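import Mathlib

/-! Algebra of orthonormal frames at one place. -/

namespace Pool.Agent.Lib.MP_abd417_co.U.Alg

open Matrix

variable {K : Type*} [Field K]

/-- The rows are orthonormal for the standard bilinear form. -/
def IsFr (g : Fin 3 → Fin 3 → K) : Prop :=
  ∀ i j, g i ⬝ᵥ g j = if i = j then 1 else 0

/-- Largest coordinate of `y` in the frame `a`. -/
noncomputable def ht (v : AbsoluteValue K ℝ) (a : Fin 3 → Fin 3 → K) (y : Fin 3 → K) : ℝ :=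
  max (v (a 0 ⬝ᵥ y)) (max (v (a 1 ⬝ᵥ y)) (v (a 2 ⬝ᵥ y)))

/-- Largest inner product between two frames. -/
noncomputable def mx (v : AbsoluteValue K ℝ) (g h : Fin 3 → Fin 3 → K) : ℝ :=
  max (ht v g (h 0)) (max (ht v g (h 1)) (ht v g (h 2)))

/-- `x (1 - x)` for `x` the squared inner product of the next axes. -/
def Th (i : Fin 3) (g h : Fin 3 → Fin 3 → K) : K :=
  (g (i + 1) ⬝ᵥ h (i + 1)) ^ 2 * (1 - (g (i + 1) ⬝ᵥ h (i + 1)) ^ 2)

/-- Weak triangle inequality with constant `ka`. -/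
def Tri (v : AbsoluteValue K ℝ) (ka : ℝ) : Prop :=
  1 ≤ ka ∧ ∀ x y, v (x + y) ≤ ka * max (v x) (v y)

theorem tri_two (v : AbsoluteValue K ℝ) : Tri v 2 := by
  refine ⟨by norm_num, fun x y => ?_⟩
  have h := v.add_le x y
  have h1 := le_max_left (v x) (v y)
  have h2 := le_max_right (v x) (v y)
  linarith

variable {v : AbsoluteValue K ℝ} {ka : ℝ}

theorem Tri.add (T : Tri v ka) {x y : K} {c : ℝ} (hx : v x ≤ c) (hy : v y ≤ c) :
    v (x + y) ≤ ka * c :=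
  (T.2 x y).trans (mul_le_mul_of_nonneg_left (max_le hx hy) (by linarith [T.1]))

theorem Tri.sub (T : Tri v ka) {x y : K} {c : ℝ} (hx : v x ≤ c) (hy : v y ≤ c) :
    v (x - y) ≤ ka * c := by
  rw [sub_eq_add_neg]
  exact T.add hx (by rwa [v.map_neg])

theorem Tri.add3 (T : Tri v ka) {x y z : K} {c : ℝ} (hx : v x ≤ c) (hy : v y ≤ c)
    (hz : v z ≤ c) : v (x + y + z) ≤ ka ^ 2 * c := by
  have hc : 0 ≤ c := (v.nonneg x).trans hx
  have h1 : c ≤ ka * c := le_mul_of_one_le_left hc T.1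
  have := T.add (T.add hx hy) (hz.trans h1)
  calc _ ≤ ka * (ka * c) := this
    _ = _ := by ring

theorem le_ht (a : Fin 3 → Fin 3 → K) (y : Fin 3 → K) (j : Fin 3) : v (a j ⬝ᵥ y) ≤ ht v a y := by
  fin_cases j
  · exact le_max_left _ _
  · exact (le_max_left _ _).trans (le_max_right _ _)
  · exact (le_max_right _ _).trans (le_max_right _ _)

theorem ht_le {a : Fin 3 → Fin 3 → K} {y : Fin 3 → K} {c : ℝ} (h : ∀ j, v (a j ⬝ᵥ y) ≤ c) :
    ht v a y ≤ c := max_le (h 0) (max_le (h 1) (h 2))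

theorem ht_nonneg (a : Fin 3 → Fin 3 → K) (y : Fin 3 → K) : 0 ≤ ht v a y :=
  (v.nonneg _).trans (le_ht a y 0)

theorem ht_le_mx (g h : Fin 3 → Fin 3 → K) (j : Fin 3) : ht v g (h j) ≤ mx v g h := by
  fin_cases j
  · exact le_max_left _ _
  · exact (le_max_left _ _).trans (le_max_right _ _)
  · exact (le_max_right _ _).trans (le_max_right _ _)

theorem le_mx (g h : Fin 3 → Fin 3 → K) (i j : Fin 3) : v (g i ⬝ᵥ h j) ≤ mx v g h :=
  (le_ht g (h j) i).trans (ht_le_mx g h j)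

theorem mx_le {g h : Fin 3 → Fin 3 → K} {c : ℝ} (H : ∀ i j, v (g i ⬝ᵥ h j) ≤ c) :
    mx v g h ≤ c :=
  max_le (ht_le fun i => H i 0) (max_le (ht_le fun i => H i 1) (ht_le fun i => H i 2))

theorem mx_nonneg (g h : Fin 3 → Fin 3 → K) : 0 ≤ mx v g h :=
  (v.nonneg _).trans (le_mx g h 0 0)

theorem mx_comm (g h : Fin 3 → Fin 3 → K) : mx v g h = mx v h g := by
  apply le_antisymm <;> refine mx_le fun i j => ?_ <;> rw [dotProduct_comm] <;> exact le_mx _ _ _ _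

theorem IsFr.self {g : Fin 3 → Fin 3 → K} (hg : IsFr g) (i : Fin 3) : g i ⬝ᵥ g i = 1 := by
  simpa using hg i i

theorem IsFr.ne {g : Fin 3 → Fin 3 → K} (hg : IsFr g) {i j : Fin 3} (h : i ≠ j) :
    g i ⬝ᵥ g j = 0 := by
  simpa [h] using hg i j

theorem mx_self {g : Fin 3 → Fin 3 → K} (hg : IsFr g) : mx v g g = 1 := by
  apply le_antisymm
  · refine mx_le fun i j => ?_
    rw [hg i j]
    split_ifs <;> simp
  · have := le_mx (v := v) g g 0 0
    rwa [hg.self, v.map_one] at this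

/-- Expansion in a frame. -/
theorem IsFr.expand {g : Fin 3 → Fin 3 → K} (hg : IsFr g) (x y : Fin 3 → K) :
    x ⬝ᵥ y = ∑ c, (g c ⬝ᵥ x) * (g c ⬝ᵥ y) := by
  have h1 : (Matrix.of g) * (Matrix.of g)ᵀ = 1 := by
    ext i j
    have := hg i j
    simp only [dotProduct] at this
    simp [Matrix.mul_apply, this, Matrix.one_apply]
  have h2 : (Matrix.of g)ᵀ * (Matrix.of g) = 1 := mul_eq_one_comm.1 h1
  have h3 : (Matrix.of g *ᵥ x) ⬝ᵥ (Matrix.of g *ᵥ y) = x ⬝ᵥ y := by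
    rw [Matrix.dotProduct_mulVec, Matrix.vecMul_mulVec, h2, Matrix.vecMul_one]
  rw [← h3]
  rfl

theorem sum3 {M : Type*} [AddCommMonoid M] {i j k : Fin 3} (h1 : i ≠ j) (h2 : i ≠ k)
    (h3 : j ≠ k) (f : Fin 3 → M) : ∑ c, f c = f i + f j + f k := by
  have : (Finset.univ : Finset (Fin 3)) = {i, j, k} := by
    revert i j k
    decide
  rw [this, Finset.sum_insert (by simp [h1, h2]), Finset.sum_insert (by simp [h3]),
    Finset.sum_singleton, add_assoc]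

theorem third {i j : Fin 3} (h : i ≠ j) : ∃ k : Fin 3, i ≠ k ∧ j ≠ k ∧
    ∀ a, a = i ∨ a = j ∨ a = k := by
  revert i j
  decide

theorem IsFr.exp3 {g : Fin 3 → Fin 3 → K} (hg : IsFr g) {i j k : Fin 3} (h1 : i ≠ j)
    (h2 : i ≠ k) (h3 : j ≠ k) (x y : Fin 3 → K) :
    x ⬝ᵥ y = (g i ⬝ᵥ x) * (g i ⬝ᵥ y) + (g j ⬝ᵥ x) * (g j ⬝ᵥ y) + (g k ⬝ᵥ x) * (g k ⬝ᵥ y) := by
  rw [hg.expand x y, sum3 h1 h2 h3]

theorem dot_le (T : Tri v ka) {a : Fin 3 → Fin 3 → K} (ha : IsFr a) (x y : Fin 3 → K) :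
    v (x ⬝ᵥ y) ≤ ka ^ 2 * (ht v a x * ht v a y) := by
  have H : ∀ c, v ((a c ⬝ᵥ x) * (a c ⬝ᵥ y)) ≤ ht v a x * ht v a y := fun c => by
    rw [v.map_mul]
    exact mul_le_mul (le_ht a x c) (le_ht a y c) (v.nonneg _) (ht_nonneg a x)
  rw [ha.expand x y, Fin.sum_univ_three]
  exact T.add3 (H 0) (H 1) (H 2)

/-- A unit vector has a coordinate of size at least `1 / ka`. -/
theorem one_le_ht (T : Tri v ka) {a : Fin 3 → Fin 3 → K} (ha : IsFr a) {y : Fin 3 → K}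
    (hy : y ⬝ᵥ y = 1) : 1 ≤ ka * ht v a y := by
  have h := dot_le T ha y y
  rw [hy, v.map_one] at h
  have h0 : 0 ≤ ka * ht v a y := mul_nonneg (by linarith [T.1]) (ht_nonneg a y)
  nlinarith

theorem one_le_mx (T : Tri v ka) {g h : Fin 3 → Fin 3 → K} (hg : IsFr g) (hh : IsFr h) :
    1 ≤ ka * mx v g h :=
  (one_le_ht T hg (hh.self 0)).trans
    (mul_le_mul_of_nonneg_left (ht_le_mx g h 0) (by linarith [T.1]))

theorem ht_tri (T : Tri v ka) {h : Fin 3 → Fin 3 → K} (hh : IsFr h) (g : Fin 3 → Fin 3 → K)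
    (y : Fin 3 → K) : ht v g y ≤ ka ^ 2 * (mx v g h * ht v h y) := by
  refine ht_le fun i => (dot_le T hh (g i) y).trans ?_
  have h1 : ht v h (g i) ≤ mx v g h := by rw [mx_comm]; exact ht_le_mx h g i
  have h2 := ht_nonneg (v := v) h y
  gcongr

/-- Triangle inequality. -/
theorem mx_tri (T : Tri v ka) {h : Fin 3 → Fin 3 → K} (hh : IsFr h) (g k : Fin 3 → Fin 3 → K) :
    mx v g k ≤ ka ^ 2 * (mx v g h * mx v h k) := by
  refine mx_le fun i j => (le_ht g (k j) i).trans ((ht_tri T hh g (k j)).trans ?_)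
  have h1 := ht_le_mx (v := v) h k j
  have h2 := mx_nonneg (v := v) g h
  gcongr

theorem one_le_mx_mate {g h : Fin 3 → Fin 3 → K} (hg : IsFr g) {j : Fin 3} (e : h j = g j) :
    1 ≤ mx v g h := by
  have := le_mx (v := v) g h j j
  rwa [e, hg.self, v.map_one] at this

theorem v_eq_of_sq {x y : K} (h : x ^ 2 = y ^ 2) : v x = v y := by
  rcases sq_eq_sq_iff_eq_or_eq_neg.1 h with e | e <;> simp [e]

/-- The two by two block of two mates. -/
theorem block {g h : Fin 3 → Fin 3 → K} (hg : IsFr g) (hh : IsFr h) {j a b : Fin 3}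
    (e : h j = g j) (h1 : j ≠ a) (h2 : j ≠ b) (h3 : a ≠ b) :
    (h a ⬝ᵥ g a) ^ 2 + (h a ⬝ᵥ g b) ^ 2 = 1 ∧ (h b ⬝ᵥ g a) ^ 2 + (h b ⬝ᵥ g b) ^ 2 = 1 ∧
    (h a ⬝ᵥ g a) * (h b ⬝ᵥ g a) + (h a ⬝ᵥ g b) * (h b ⬝ᵥ g b) = 0 ∧
    (h a ⬝ᵥ g a) ^ 2 + (h b ⬝ᵥ g a) ^ 2 = 1 := by
  have za : g j ⬝ᵥ h a = 0 := by rw [← e]; exact hh.ne h1
  have zb : g j ⬝ᵥ h b = 0 := by rw [← e]; exact hh.ne h2
  have zc : h j ⬝ᵥ g a = 0 := by rw [e]; exact hg.ne h1
  have E1 := hg.exp3 h1 h2 h3 (h a) (h a)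
  have E2 := hg.exp3 h1 h2 h3 (h b) (h b)
  have E3 := hg.exp3 h1 h2 h3 (h a) (h b)
  have E4 := hh.exp3 h1 h2 h3 (g a) (g a)
  rw [hh.self] at E1 E2
  rw [hh.ne h3] at E3
  rw [hg.self] at E4
  rw [za] at E1 E3
  rw [zb] at E2
  rw [zc] at E4
  simp only [dotProduct_comm (g _) (h _)] at E1 E2 E3
  exact ⟨by linear_combination -E1, by linear_combination -E2, by linear_combination -E3,
    by linear_combination -E4⟩

/-- For mates on the axis `j` one column of the block controls all inner products. -/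
theorem mx_mate_le (T : Tri v ka) {g h : Fin 3 → Fin 3 → K} (hg : IsFr g) (hh : IsFr h)
    {j a b : Fin 3} (e : h j = g j) (h1 : j ≠ a) (h2 : j ≠ b) (h3 : a ≠ b) :
    mx v h g ≤ ka * max (v (h a ⬝ᵥ g a)) (v (h b ⬝ᵥ g a)) ∧
    mx v h g ≤ ka * max (v (h a ⬝ᵥ g a)) (v (h a ⬝ᵥ g b)) := by
  obtain ⟨B1, B2, B3, B4⟩ := block hg hh e h1 h2 h3
  have q1 : v (h a ⬝ᵥ g b) = v (h b ⬝ᵥ g a) := v_eq_of_sq (by linear_combination B1 - B4)
  have q2 : v (h b ⬝ᵥ g b) = v (h a ⬝ᵥ g a) := v_eq_of_sq (by linear_combination B2 - B4)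
  rw [q1]
  refine (and_self_iff).2 ?_
  set m := max (v (h a ⬝ᵥ g a)) (v (h b ⬝ᵥ g a)) with hm
  have m1 : v (h a ⬝ᵥ g a) ≤ m := le_max_left _ _
  have m2 : v (h b ⬝ᵥ g a) ≤ m := le_max_right _ _
  have m0 : 0 ≤ m := (v.nonneg _).trans m1
  have k1 := T.1
  have o1 : 1 ≤ ka * m ^ 2 := by
    have := T.add (x := (h a ⬝ᵥ g a) ^ 2) (y := (h b ⬝ᵥ g a) ^ 2) (c := m ^ 2)
      (by rw [v.map_pow]; exact pow_le_pow_left₀ (v.nonneg _) m1 2)
      (by rw [v.map_pow]; exact pow_le_pow_left₀ (v.nonneg _) m2 2)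
    rwa [B4, v.map_one] at this
  have mk : m ≤ ka * m := le_mul_of_one_le_left m0 k1
  have o2 : 1 ≤ ka * m := by
    rcases le_total m 1 with c | c
    · nlinarith
    · linarith
  have all : ∀ c : Fin 3, c = j ∨ c = a ∨ c = b := by
    clear * - h1 h2 h3
    revert j a b
    decide
  refine mx_le fun s t => ?_
  rcases all s with rfl | rfl | rfl <;> rcases all t with rfl | rfl | rfl
  · rw [e, hg.self, v.map_one]; exact o2
  · rw [e, hg.ne h1, v.map_zero]; linarith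
  · rw [e, hg.ne h2, v.map_zero]; linarith
  · rw [← e, hh.ne h1.symm, v.map_zero]; linarith
  · linarith
  · rw [q1]; linarith
  · rw [← e, hh.ne h2.symm, v.map_zero]; linarith
  · linarith
  · rw [q2]; linarith

end Pool.Agent.Lib.MP_abd417_co.U.Alg
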