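import Pool.Agent.Lib.MP_abd417_co.U.AlgA

/-! Mates, heights and shared directions at one place. -/

namespace Pool.Agent.Lib.MP_abd417_co.U.Alg

open Matrix

variable {K : Type*} [Field K] {v : AbsoluteValue K ℝ} {ka : ℝ}

theorem max_mul_le {a b c d M : ℝ} (h1 : a * c ≤ M) (h2 : a * d ≤ M) (h3 : b * c ≤ M)
    (h4 : b * d ≤ M) : max a b * max c d ≤ M := by
  rcases max_choice a b with e | e <;> rcases max_choice c d with f | f <;> rw [e, f] <;>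
    assumption

/-- G1: mates through two different axes are far apart. -/
theorem G1 (T : Tri v ka) {g g1 g2 : Fin 3 → Fin 3 → K} (hg : IsFr g) (hg1 : IsFr g1)
    (hg2 : IsFr g2) {j k : Fin 3} (hjk : j ≠ k) (e1 : g1 j = g j) (e2 : g2 k = g k) :
    mx v g1 g * mx v g g2 ≤ ka ^ 2 * mx v g1 g2 := by
  obtain ⟨l, hjl, hkl, -⟩ := third hjk
  have A := (mx_mate_le T hg hg1 e1 hjl hjk hkl.symm).1
  have B := (mx_mate_le T hg hg2 e2 hkl hjk.symm hjl.symm).1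
  have H : ∀ a b, j ≠ a → k ≠ b → v (g1 a ⬝ᵥ g l) * v (g2 b ⬝ᵥ g l) ≤ mx v g1 g2 := by
    intro a b ha hb
    have E := hg.exp3 hjk hjl hkl (g1 a) (g2 b)
    have z1 : g j ⬝ᵥ g1 a = 0 := by rw [← e1]; exact hg1.ne ha
    have z2 : g k ⬝ᵥ g2 b = 0 := by rw [← e2]; exact hg2.ne hb
    rw [z1, z2, zero_mul, mul_zero, zero_add, zero_add, dotProduct_comm (g l),
      dotProduct_comm (g l)] at E
    rw [← v.map_mul, ← E]
    exact le_mx _ _ _ _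
  have C := max_mul_le (H l l hjl hkl) (H l j hjl hjk.symm) (H k l hjk hkl) (H k j hjk hjk.symm)
  have k0 : 0 ≤ ka := by linarith [T.1]
  rw [mx_comm g g2]
  calc _ ≤ (ka * max (v (g1 l ⬝ᵥ g l)) (v (g1 k ⬝ᵥ g l))) *
        (ka * max (v (g2 l ⬝ᵥ g l)) (v (g2 j ⬝ᵥ g l))) :=
        mul_le_mul A B (mx_nonneg _ _) ((mx_nonneg _ _).trans A)
    _ = ka ^ 2 * (max (v (g1 l ⬝ᵥ g l)) (v (g1 k ⬝ᵥ g l)) *
        max (v (g2 l ⬝ᵥ g l)) (v (g2 j ⬝ᵥ g l))) := by ring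
    _ ≤ _ := by gcongr

theorem ne_succ3 (i : Fin 3) : i ≠ i + 1 := by
  revert i
  decide

/-- `Th` is `x (1 - x)` for every entry of the block. -/
theorem Th_eq {g g1 : Fin 3 → Fin 3 → K} (hg : IsFr g) (hg1 : IsFr g1) {i a b : Fin 3}
    (e : g1 i = g i) (ha : i ≠ a) (hb : i ≠ b) :
    Th i g g1 = (g a ⬝ᵥ g1 b) ^ 2 * (1 - (g a ⬝ᵥ g1 b) ^ 2) := by
  have n1 : i ≠ i + 1 := ne_succ3 i
  obtain ⟨k, h1, h2, all⟩ := third n1
  obtain ⟨B1, B2, -, B4⟩ := block hg1 hg e.symm n1 h1 h2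
  unfold Th
  rcases all a with rfl | rfl | rfl
  · exact absurd rfl ha
  · rcases all b with rfl | rfl | rfl
    · exact absurd rfl hb
    · rfl
    · rw [show (g (i + 1) ⬝ᵥ g1 b) ^ 2 = 1 - (g (i + 1) ⬝ᵥ g1 (i + 1)) ^ 2 by
        linear_combination B1]
      ring
  · rcases all b with rfl | rfl | rfl
    · exact absurd rfl hb
    · rw [show (g a ⬝ᵥ g1 (i + 1)) ^ 2 = 1 - (g (i + 1) ⬝ᵥ g1 (i + 1)) ^ 2 by
        linear_combination B4]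
      ring
    · rw [show (g b ⬝ᵥ g1 b) ^ 2 = (g (i + 1) ⬝ᵥ g1 (i + 1)) ^ 2 by
        linear_combination B2 - B4]

/-- `Th` is the square of the product of the two entries of a row of the block. -/
theorem Th_sq {g g1 : Fin 3 → Fin 3 → K} (hg : IsFr g) (hg1 : IsFr g1) {i a b : Fin 3}
    (e : g1 i = g i) (ha : i ≠ a) (hb : i ≠ b) (hab : a ≠ b) :
    Th i g g1 = ((g a ⬝ᵥ g1 a) * (g a ⬝ᵥ g1 b)) ^ 2 := by
  obtain ⟨B1, -, -, -⟩ := block hg1 hg e.symm ha hb hab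
  rw [Th_eq hg hg1 e ha ha]
  linear_combination (-(g a ⬝ᵥ g1 a) ^ 2) * B1

theorem Th_le {g g1 : Fin 3 → Fin 3 → K} (hg : IsFr g) (hg1 : IsFr g1) {i : Fin 3}
    (e : g1 i = g i) : v (Th i g g1) ≤ mx v g g1 ^ 4 := by
  have n1 : i ≠ i + 1 := ne_succ3 i
  obtain ⟨k, h1, h2, -⟩ := third n1
  rw [Th_sq hg hg1 e n1 h1 h2, v.map_pow, v.map_mul]
  have a1 := le_mx (v := v) g g1 (i + 1) (i + 1)
  have a2 := le_mx (v := v) g g1 (i + 1) k
  have a0 := mx_nonneg (v := v) g g1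
  calc _ ≤ (mx v g g1 * mx v g g1) ^ 2 := by
        gcongr
    _ = _ := by ring

theorem det2 {p q r s : K} (B1 : p ^ 2 + q ^ 2 = 1) (B2 : r ^ 2 + s ^ 2 = 1)
    (B3 : p * r + q * s = 0) : ∃ e : K, e ^ 2 = 1 ∧ s = e * p ∧ r = -e * q :=
  ⟨p * s - q * r, by linear_combination (r ^ 2 + s ^ 2) * B1 + B2 - (p * r + q * s) * B3,
    by linear_combination (-s) * B1 + q * B3, by linear_combination (-r) * B1 + p * B3⟩

/-- G2. -/
theorem G2 (T : Tri v ka) {g g1 h h1 : Fin 3 → Fin 3 → K} (hg : IsFr g) (hg1 : IsFr g1)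
    (hh : IsFr h) (hh1 : IsFr h1) {i j j1 : Fin 3} (e : g1 i = g i) (hj : i ≠ j) (hj1 : i ≠ j1)
    (ej : h j = g j) (ej1 : h1 j1 = g1 j1) :
    v (Th i g g1) * (mx v g h * mx v g1 h1) ≤ ka ^ 3 * (mx v g g1 ^ 3 * mx v h h1) := by
  obtain ⟨k, hik, hjk, -⟩ := third hj
  obtain ⟨l, hil, hjl, -⟩ := third hj1
  have A := (mx_mate_le T hg hh ej hj.symm hjk hik).2
  have B := (mx_mate_le T hg1 hh1 ej1 hj1.symm hjl hil).2
  obtain ⟨P1, P2, P3, -⟩ := block hg hh ej hj.symm hjk hik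
  obtain ⟨Q1, Q2, Q3, -⟩ := block hg1 hh1 ej1 hj1.symm hjl hil
  obtain ⟨e1, s1, s2, s3⟩ := det2 P1 P2 P3
  obtain ⟨e2, t1, t2, t3⟩ := det2 Q1 Q2 Q3
  have M : ∀ a b, j ≠ a → j1 ≠ b → h a ⬝ᵥ h1 b =
      (h a ⬝ᵥ g i) * (h1 b ⬝ᵥ g1 i) + (g k ⬝ᵥ g1 l) * ((h a ⬝ᵥ g k) * (h1 b ⬝ᵥ g1 l)) := by
    intro a b ha hb
    have E := hg.exp3 hj hik hjk (h a) (h1 b)
    have F := hg1.exp3 hj1 hil hjl (g k) (h1 b)
    have z1 : g j ⬝ᵥ h a = 0 := by rw [← ej]; exact hh.ne ha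
    have z2 : g1 j1 ⬝ᵥ h1 b = 0 := by rw [← ej1]; exact hh1.ne hb
    have z3 : g1 i ⬝ᵥ g k = 0 := by rw [e]; exact hg.ne hik
    rw [z2, z3] at F
    rw [z1, F, ← e] at E
    rw [E, dotProduct_comm (h a) (g k), dotProduct_comm (h1 b) (g1 i),
      dotProduct_comm (h1 b) (g1 l), dotProduct_comm (g k) (g1 l), ← e,
      dotProduct_comm (h a) (g1 i)]
    ring
  have Mii := M i i hj.symm hj1.symm
  have Mil := M i l hj.symm hjl
  have Mki := M k i hjk hj1.symm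
  have Mkl := M k l hjk hjl
  rw [t2, t3] at Mil Mkl
  rw [s2, s3] at Mki Mkl
  rw [Th_eq hg hg1 e hik hil]
  set p := h i ⬝ᵥ g i
  set q := h i ⬝ᵥ g k
  set p1 := h1 i ⬝ᵥ g1 i
  set q1 := h1 i ⬝ᵥ g1 l
  set n := g k ⬝ᵥ g1 l with hn
  have v1 : v e1 = 1 := by simpa using v_eq_of_sq (v := v) (x := e1) (y := 1) (by simpa using s1)
  have v2 : v e2 = 1 := by simpa using v_eq_of_sq (v := v) (x := e2) (y := 1) (by simpa using t1)
  have D1 : 1 ≤ mx v g g1 := one_le_mx_mate hg e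
  have Dn : v n ≤ mx v g g1 := le_mx _ _ _ _
  have H0 := mx_nonneg (v := v) h h1
  have W : ∀ a b c d, v (h a ⬝ᵥ h1 b + e1 * e2 * n * (h c ⬝ᵥ h1 d)) ≤
      ka * (mx v g g1 * mx v h h1) ∧ v (h a ⬝ᵥ h1 b - e1 * e2 * n * (h c ⬝ᵥ h1 d)) ≤
      ka * (mx v g g1 * mx v h h1) := by
    intro a b c d
    have x1 : v (h a ⬝ᵥ h1 b) ≤ mx v g g1 * mx v h h1 :=
      (le_mx _ _ _ _).trans (le_mul_of_one_le_left H0 D1)
    have x2 : v (e1 * e2 * n * (h c ⬝ᵥ h1 d)) ≤ mx v g g1 * mx v h h1 := by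
      rw [v.map_mul, v.map_mul, v.map_mul, v1, v2, one_mul, one_mul]
      exact mul_le_mul Dn (le_mx _ _ _ _) (v.nonneg _) (by linarith)
    exact ⟨T.add x1 x2, T.sub x1 x2⟩
  have w1 := (W i i k l).2
  have w2 := (W i l k i).1
  have w3 := (W k i i l).1
  have w4 := (W k l i i).2
  rw [show h i ⬝ᵥ h1 i - e1 * e2 * n * (h k ⬝ᵥ h1 l) = (1 - n ^ 2) * (p * p1) by
    rw [Mii, Mkl]
    linear_combination (-(n * q * q1 + n ^ 2 * p * p1) * e2 ^ 2) * s1 -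
      (n * q * q1 + n ^ 2 * p * p1) * t1, v.map_mul, v.map_mul] at w1
  rw [show h i ⬝ᵥ h1 l + e1 * e2 * n * (h k ⬝ᵥ h1 i) = -e2 * ((1 - n ^ 2) * (p * q1)) by
    rw [Mil, Mki]
    linear_combination (e2 * (n ^ 2 * p * q1 - n * q * p1)) * s1,
    v.map_mul, v.map_neg, v2, one_mul, v.map_mul, v.map_mul] at w2
  rw [show h k ⬝ᵥ h1 i + e1 * e2 * n * (h i ⬝ᵥ h1 l) = -e1 * ((1 - n ^ 2) * (q * p1)) by
    rw [Mil, Mki]
    linear_combination (e1 * (n ^ 2 * q * p1 - n * p * q1)) * t1,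
    v.map_mul, v.map_neg, v1, one_mul, v.map_mul, v.map_mul] at w3
  rw [show h k ⬝ᵥ h1 l - e1 * e2 * n * (h i ⬝ᵥ h1 i) = e1 * (e2 * ((1 - n ^ 2) * (q * q1))) by
    rw [Mii, Mkl]
    ring, v.map_mul, v1, one_mul, v.map_mul, v2, one_mul, v.map_mul, v.map_mul] at w4
  have u0 := v.nonneg (1 - n ^ 2)
  have k0 : 0 ≤ ka := by linarith [T.1]
  have C : v (1 - n ^ 2) * (max (v p) (v q) * max (v p1) (v q1)) ≤
      ka * (mx v g g1 * mx v h h1) := by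
    rcases max_choice (v p) (v q) with x | x <;> rcases max_choice (v p1) (v q1) with y | y <;>
      rw [x, y] <;> assumption
  rw [v.map_mul, v.map_pow, mx_comm g h, mx_comm g1 h1]
  have n0 := v.nonneg n
  have m0 := mx_nonneg (v := v) h g
  have m1 := mx_nonneg (v := v) h1 g1
  calc v n ^ 2 * v (1 - n ^ 2) * (mx v h g * mx v h1 g1)
      ≤ mx v g g1 ^ 2 * v (1 - n ^ 2) *
        ((ka * max (v p) (v q)) * (ka * max (v p1) (v q1))) := by gcongr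
    _ = ka ^ 2 * mx v g g1 ^ 2 * (v (1 - n ^ 2) * (max (v p) (v q) * max (v p1) (v q1))) := by
        ring
    _ ≤ ka ^ 2 * mx v g g1 ^ 2 * (ka * (mx v g g1 * mx v h h1)) := by gcongr
    _ = _ := by ring

end Pool.Agent.Lib.MP_abd417_co.U.Alg
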