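import Mathlib

/-! Balanced base point on the complex orthogonal group (step 8). -/

namespace Pool.Agent.Lib.MP_abd417_co.U.Base

open Matrix Finset

abbrev M3 := Matrix (Fin 3) (Fin 3) ℂ

/-- Hermitian squared norm. -/
def Nn (u : Fin 3 → ℂ) : ℝ := ∑ j, Complex.normSq (u j)

lemma one_le_Nn {u : Fin 3 → ℂ} (h : u ⬝ᵥ u = 1) : 1 ≤ Nn u := by
  have h1 : ‖u ⬝ᵥ u‖ ≤ ∑ j, ‖u j * u j‖ := norm_sum_le _ _
  rw [h, norm_one] at h1
  refine h1.trans (le_of_eq ?_)
  unfold Nn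
  refine Finset.sum_congr rfl fun j _ => ?_
  rw [norm_mul, Complex.normSq_eq_norm_sq, sq]

lemma orth_mul {g k : M3} (hg : g * gᵀ = 1) (hk : k * kᵀ = 1) :
    (g * kᵀ) * (g * kᵀ)ᵀ = 1 := by
  have hk' : kᵀ * k = 1 := mul_eq_one_comm.mp hk
  rw [transpose_mul, transpose_transpose, Matrix.mul_assoc, ← Matrix.mul_assoc kᵀ, hk',
    Matrix.one_mul, hg]

lemma row_dot {m : M3} (hm : m * mᵀ = 1) (i j : Fin 3) :
    m i ⬝ᵥ m j = if i = j then 1 else 0 := by
  have := congrFun (congrFun hm i) j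
  rw [Matrix.one_apply] at this
  rw [← this]; rfl

lemma one_le_row {m : M3} (hm : m * mᵀ = 1) (i : Fin 3) : 1 ≤ Nn (m i) :=
  one_le_Nn (by rw [row_dot hm]; simp)

variable {ι : Type*}

/-- The function that is minimised. -/
noncomputable def Phi (F : Finset ι) (ν : ι → ℝ) (g : ι → M3) (k : M3) : ℝ :=
  ∑ x ∈ F, ν x * ∑ i, Real.log (Nn ((g x * kᵀ) i))

lemma cont_N (m : M3) (i : Fin 3) : Continuous fun k : M3 => Nn ((m * kᵀ) i) := by
  unfold Nn
  refine continuous_finsetSum _ fun j _ => Complex.continuous_normSq.comp ?_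
  simp only [Matrix.mul_apply, Matrix.transpose_apply]
  fun_prop

lemma exists_min (F : Finset ι) (ν : ι → ℝ) (g : ι → M3) (hν : ∀ x ∈ F, 0 ≤ ν x)
    (hg : ∀ x ∈ F, g x * (g x)ᵀ = 1) (k0 : M3) (hk0 : k0 * k0ᵀ = 1) :
    ∃ k : M3, k * kᵀ = 1 ∧ ∀ k' : M3, k' * k'ᵀ = 1 → Phi F ν g k ≤ Phi F ν g k' := by
  classical
  by_cases hz : ∀ x ∈ F, ν x = 0
  · refine ⟨k0, hk0, fun k' _ => le_of_eq ?_⟩
    unfold Phi
    refine Finset.sum_congr rfl fun x hx => ?_
    rw [hz x hx, zero_mul, zero_mul]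
  push Not at hz
  obtain ⟨x0, hx0, hne⟩ := hz
  have hpos : 0 < ν x0 := lt_of_le_of_ne (hν x0 hx0) (Ne.symm hne)
  set O : Set M3 := {k | k * kᵀ = 1} with hO
  have hOc : IsClosed O := by
    refine isClosed_eq ?_ continuous_const
    exact continuous_id.matrix_mul continuous_id.matrix_transpose
  have hcont : ContinuousOn (Phi F ν g) O := by
    unfold Phi
    refine continuousOn_finsetSum _ fun x hx => continuousOn_const.mul ?_
    refine continuousOn_finsetSum _ fun i _ => ?_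
    refine (cont_N (g x) i).continuousOn.log fun k hk => ?_
    have := one_le_row (orth_mul (hg x hx) hk) i
    linarith
  set R : ℝ := Real.exp (Phi F ν g k0 / ν x0) with hR
  set T : Set M3 := Set.pi Set.univ fun _ => Set.pi Set.univ fun _ => Metric.closedBall (0 : ℂ) R
    with hT
  have hTc : IsCompact T :=
    isCompact_univ_pi fun _ => isCompact_univ_pi fun _ => isCompact_closedBall _ _
  have hmap : Continuous fun m : M3 => mᵀ * g x0 :=
    continuous_id.matrix_transpose.matrix_mul continuous_const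
  have hK : IsCompact (O ∩ (fun m : M3 => mᵀ * g x0) '' T) := (hTc.image hmap).inter_left hOc
  have hlog : ∀ k : M3, k * kᵀ = 1 → ∀ x ∈ F, ∀ i, 0 ≤ Real.log (Nn ((g x * kᵀ) i)) :=
    fun k hk x hx i => Real.log_nonneg (one_le_row (orth_mul (hg x hx) hk) i)
  have hmem : ∀ k : M3, k * kᵀ = 1 → Phi F ν g k ≤ Phi F ν g k0 →
      k ∈ O ∩ (fun m : M3 => mᵀ * g x0) '' T := by
    intro k hk hle
    refine ⟨hk, g x0 * kᵀ, ?_, ?_⟩
    · intro i _ j _
      rw [mem_closedBall_zero_iff]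
      have h1 : ν x0 * ∑ i, Real.log (Nn ((g x0 * kᵀ) i)) ≤ Phi F ν g k :=
        Finset.single_le_sum (f := fun x => ν x * ∑ i, Real.log (Nn ((g x * kᵀ) i)))
          (fun x hx => mul_nonneg (hν x hx) (Finset.sum_nonneg fun i _ => hlog k hk x hx i)) hx0
      have h2 : Real.log (Nn ((g x0 * kᵀ) i)) ≤ ∑ i, Real.log (Nn ((g x0 * kᵀ) i)) :=
        Finset.single_le_sum (f := fun i => Real.log (Nn ((g x0 * kᵀ) i)))
          (fun i _ => hlog k hk x0 hx0 i) (Finset.mem_univ i)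
      have h3 : Real.log (Nn ((g x0 * kᵀ) i)) ≤ Phi F ν g k0 / ν x0 := by
        rw [le_div_iff₀ hpos]
        nlinarith [mul_le_mul_of_nonneg_left h2 hpos.le]
      have h4 := one_le_row (orth_mul (hg x0 hx0) hk) i
      have h5 : Nn ((g x0 * kᵀ) i) ≤ R := by
        rw [hR, ← Real.log_le_iff_le_exp (by linarith)]; exact h3
      have h6 : Complex.normSq ((g x0 * kᵀ) i j) ≤ Nn ((g x0 * kᵀ) i) :=
        Finset.single_le_sum (f := fun j => Complex.normSq ((g x0 * kᵀ) i j))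
          (fun j _ => Complex.normSq_nonneg _) (Finset.mem_univ j)
      rw [Complex.normSq_eq_norm_sq] at h6
      nlinarith [norm_nonneg ((g x0 * kᵀ) i j), sq_nonneg (‖(g x0 * kᵀ) i j‖ - 1)]
    · have hg' : (g x0)ᵀ * g x0 = 1 := mul_eq_one_comm.mp (hg x0 hx0)
      simp only [transpose_mul, transpose_transpose]
      rw [Matrix.mul_assoc, hg', Matrix.mul_one]
  obtain ⟨k, hk, hmin⟩ := hK.exists_isMinOn ⟨k0, hmem k0 hk0 le_rfl⟩
    (hcont.mono Set.inter_subset_left)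
  refine ⟨k, hk.1, fun k' hk' => ?_⟩
  by_cases h : Phi F ν g k' ≤ Phi F ν g k0
  · exact hmin (hmem k' hk' h)
  · exact (hmin (hmem k0 hk0 le_rfl)).trans (le_of_not_ge h)

lemma first_order (F : Finset ι) (ν : ι → ℝ) (g : ι → M3)
    (hg : ∀ x ∈ F, g x * (g x)ᵀ = 1) (k : M3) (hk : k * kᵀ = 1)
    (hmin : ∀ k' : M3, k' * k'ᵀ = 1 → Phi F ν g k ≤ Phi F ν g k')
    (B : ℝ → M3) (hB : ∀ θ, B θ * (B θ)ᵀ = 1) (p q : (Fin 3 → ℂ) → ℝ)
    (hN : ∀ θ u, Nn (B θ *ᵥ u) = Nn u + (Real.cosh (2 * θ) - 1) * p u + Real.sinh (2 * θ) * q u) :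
    ∑ x ∈ F, ν x * ∑ i, q ((g x * kᵀ) i) / Nn ((g x * kᵀ) i) = 0 := by
  set f : ℝ → ℝ := fun θ => ∑ x ∈ F, ν x * ∑ i, Real.log (Nn ((g x * kᵀ) i)
    + (Real.cosh (2 * θ) - 1) * p ((g x * kᵀ) i) + Real.sinh (2 * θ) * q ((g x * kᵀ) i)) with hf
  have hrow : ∀ θ x i, (g x * (B θ * k)ᵀ) i = B θ *ᵥ ((g x * kᵀ) i) := by
    intro θ x i
    ext j
    rw [transpose_mul, ← Matrix.mul_assoc]
    simp only [Matrix.mul_apply (M := g x * kᵀ), Matrix.transpose_apply, Matrix.mulVec,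
      dotProduct, mul_comm]
  have hPhi : ∀ θ, Phi F ν g (B θ * k) = f θ := by
    intro θ
    simp only [hf, Phi, hrow, hN]
  have h0 : f 0 = Phi F ν g k := by simp [hf, Phi]
  have hloc : IsLocalMin f 0 := by
    refine Filter.Eventually.of_forall fun θ => ?_
    rw [h0, ← hPhi]
    refine hmin _ ?_
    rw [transpose_mul, Matrix.mul_assoc, ← Matrix.mul_assoc k, hk, Matrix.one_mul, hB]
  have hc : HasDerivAt (fun θ : ℝ => Real.cosh (2 * θ)) 0 0 := by
    have := ((hasDerivAt_id (0 : ℝ)).const_mul 2).cosh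
    simpa using this
  have hs : HasDerivAt (fun θ : ℝ => Real.sinh (2 * θ)) 2 0 := by
    have := ((hasDerivAt_id (0 : ℝ)).const_mul 2).sinh
    simpa using this
  have hd : HasDerivAt f (∑ x ∈ F, ν x * ∑ i, 2 * q ((g x * kᵀ) i) / Nn ((g x * kᵀ) i)) 0 := by
    refine HasDerivAt.fun_sum fun x hx => HasDerivAt.const_mul _ ?_
    refine HasDerivAt.fun_sum fun i _ => ?_
    have h1 := one_le_row (orth_mul (hg x hx) hk) i
    have h2 := (((hc.sub_const 1).mul_const (p ((g x * kᵀ) i))).const_add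
      (Nn ((g x * kᵀ) i))).fun_add (hs.mul_const (q ((g x * kᵀ) i)))
    have h3 := h2.log (by simp; linarith)
    simpa using h3
  have hz := hloc.hasDerivAt_eq_zero hd
  have : ∑ x ∈ F, ν x * ∑ i, 2 * q ((g x * kᵀ) i) / Nn ((g x * kᵀ) i)
      = 2 * ∑ x ∈ F, ν x * ∑ i, q ((g x * kᵀ) i) / Nn ((g x * kᵀ) i) := by
    rw [Finset.mul_sum]
    refine Finset.sum_congr rfl fun x _ => ?_
    rw [mul_left_comm, Finset.mul_sum _ _ 2]
    simp only [mul_div_assoc]
  linarith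

lemma ch2 (θ : ℝ) : Real.cosh θ * Real.cosh θ = 1 + Real.sinh θ * Real.sinh θ := by
  have := Real.cosh_sq θ
  linarith

lemma ch2c (θ : ℝ) : (Real.cosh θ : ℂ) * (Real.cosh θ : ℂ)
    = 1 + (Real.sinh θ : ℂ) * (Real.sinh θ : ℂ) := by
  exact_mod_cast ch2 θ

noncomputable def B01 (c s : ℝ) : M3 := !![c, Complex.I * s, 0; -Complex.I * s, c, 0; 0, 0, 1]
noncomputable def B02 (c s : ℝ) : M3 := !![c, 0, Complex.I * s; 0, 1, 0; -Complex.I * s, 0, c]
noncomputable def B12 (c s : ℝ) : M3 := !![1, 0, 0; 0, c, Complex.I * s; 0, -Complex.I * s, c]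

lemma B_orth {c s : ℝ} (h : c * c = 1 + s * s) :
    B01 c s * (B01 c s)ᵀ = 1 ∧ B02 c s * (B02 c s)ᵀ = 1 ∧ B12 c s * (B12 c s)ᵀ = 1 := by
  have hc : (c : ℂ) * c = 1 + s * s := by exact_mod_cast h
  have hI := Complex.I_mul_I
  refine ⟨?_, ?_, ?_⟩ <;> ext i j <;> fin_cases i <;> fin_cases j <;>
    simp [B01, B02, B12, Matrix.mul_apply, Fin.sum_univ_three] <;>
    first | ring1 | linear_combination hc + (s : ℂ) * s * hI

lemma B_N (c s : ℝ) (u : Fin 3 → ℂ) :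
    Nn (B01 c s *ᵥ u) = Nn u + (c ^ 2 + s ^ 2 - 1) * (Complex.normSq (u 0) + Complex.normSq (u 1))
      + 2 * s * c * (2 * (u 0 * (starRingEnd ℂ) (u 1)).im) ∧
    Nn (B02 c s *ᵥ u) = Nn u + (c ^ 2 + s ^ 2 - 1) * (Complex.normSq (u 0) + Complex.normSq (u 2))
      + 2 * s * c * (2 * (u 0 * (starRingEnd ℂ) (u 2)).im) ∧
    Nn (B12 c s *ᵥ u) = Nn u + (c ^ 2 + s ^ 2 - 1) * (Complex.normSq (u 1) + Complex.normSq (u 2))
      + 2 * s * c * (2 * (u 1 * (starRingEnd ℂ) (u 2)).im) := by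
  refine ⟨?_, ?_, ?_⟩ <;>
    simp [Nn, B01, B02, B12, Matrix.mulVec, dotProduct, Fin.sum_univ_three,
      Complex.normSq_apply] <;> ring

/-- **Balanced base.** There is an orthogonal `k`, not worse than `k0` for `Phi`, at which the
average imaginary part of the three projectors vanishes. -/
theorem exists_base (F : Finset ι) (ν : ι → ℝ) (g : ι → M3) (hν : ∀ x ∈ F, 0 ≤ ν x)
    (hg : ∀ x ∈ F, g x * (g x)ᵀ = 1) (k0 : M3) (hk0 : k0 * k0ᵀ = 1) :
    ∃ k : M3, k * kᵀ = 1 ∧ Phi F ν g k ≤ Phi F ν g k0 ∧ ∀ a b : Fin 3,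
      ∑ x ∈ F, ν x * ∑ i, ((g x * kᵀ) i a * (starRingEnd ℂ) ((g x * kᵀ) i b)).im
        / Nn ((g x * kᵀ) i) = 0 := by
  obtain ⟨k, hk, hmin⟩ := exists_min F ν g hν hg k0 hk0
  refine ⟨k, hk, hmin k0 hk0, ?_⟩
  set E : Fin 3 → Fin 3 → ℝ := fun a b => ∑ x ∈ F, ν x * ∑ i,
    ((g x * kᵀ) i a * (starRingEnd ℂ) ((g x * kᵀ) i b)).im / Nn ((g x * kᵀ) i) with hE
  have half : ∀ a b : Fin 3, ∑ x ∈ F, ν x * ∑ i,
      2 * ((g x * kᵀ) i a * (starRingEnd ℂ) ((g x * kᵀ) i b)).im / Nn ((g x * kᵀ) i)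
      = 2 * E a b := by
    intro a b
    rw [hE, Finset.mul_sum]
    refine Finset.sum_congr rfl fun x _ => ?_
    rw [mul_left_comm, Finset.mul_sum _ _ 2]
    simp only [mul_div_assoc]
  have anti : ∀ a b : Fin 3, E b a = - E a b := by
    intro a b
    rw [hE]
    simp only [← Finset.sum_neg_distrib, ← mul_neg]
    refine Finset.sum_congr rfl fun x _ => ?_
    congr 1
    refine Finset.sum_congr rfl fun i _ => ?_
    rw [← neg_div]
    congr 1
    simp only [Complex.mul_im, Complex.conj_re, Complex.conj_im]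
    ring
  have h01 : E 0 1 = 0 := by
    have := first_order F ν g hg k hk hmin (fun θ => B01 (Real.cosh θ) (Real.sinh θ))
      (fun θ => (B_orth (ch2 θ)).1) _ (fun u => 2 * (u 0 * (starRingEnd ℂ) (u 1)).im)
      (fun θ u => by rw [Real.cosh_two_mul, Real.sinh_two_mul]; exact (B_N _ _ u).1)
    rw [half] at this
    linarith
  have h02 : E 0 2 = 0 := by
    have := first_order F ν g hg k hk hmin (fun θ => B02 (Real.cosh θ) (Real.sinh θ))
      (fun θ => (B_orth (ch2 θ)).2.1) _ (fun u => 2 * (u 0 * (starRingEnd ℂ) (u 2)).im)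
      (fun θ u => by rw [Real.cosh_two_mul, Real.sinh_two_mul]; exact (B_N _ _ u).2.1)
    rw [half] at this
    linarith
  have h12 : E 1 2 = 0 := by
    have := first_order F ν g hg k hk hmin (fun θ => B12 (Real.cosh θ) (Real.sinh θ))
      (fun θ => (B_orth (ch2 θ)).2.2) _ (fun u => 2 * (u 1 * (starRingEnd ℂ) (u 2)).im)
      (fun θ u => by rw [Real.cosh_two_mul, Real.sinh_two_mul]; exact (B_N _ _ u).2.2)
    rw [half] at this
    linarith
  have hd : ∀ a, E a a = 0 := fun a => by have := anti a a; linarith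
  have h10 : E 1 0 = 0 := by rw [anti 0 1, h01, neg_zero]
  have h20 : E 2 0 = 0 := by rw [anti 0 2, h02, neg_zero]
  have h21 : E 2 1 = 0 := by rw [anti 1 2, h12, neg_zero]
  intro a b
  change E a b = 0
  clear half anti hE
  clear_value E
  fin_cases a <;> fin_cases b
  exacts [hd _, h01, h02, h10, hd _, h12, h20, h21, hd _]

end Pool.Agent.Lib.MP_abd417_co.U.Base

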