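import Mathlib

/-! Concentration of a law on a laminar family of walls (abd417, start of step 8). -/

namespace AbdConc

open Finset

variable {F Wl : Type*} [Fintype F]

/-- First moment: the mean of the weight of the walls of `J` whose marked set holds `g`. -/
theorem mean_wt (nu : F → ℝ) (w : Wl → ℝ) (J : Finset Wl) (P : Wl → F → Prop)
    [∀ a g, Decidable (P a g)] :
    ∑ g, nu g * ∑ a ∈ J, (if P a g then w a else 0)
      = ∑ a ∈ J, w a * ∑ g, (if P a g then nu g else 0) := by
  simp only [Finset.mul_sum]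
  rw [Finset.sum_comm]
  refine Finset.sum_congr rfl fun a _ => Finset.sum_congr rfl fun g _ => ?_
  split_ifs <;> ring

/-- Mixed second moment. -/
theorem mean_wt2 (nu : F → ℝ) (w : Wl → ℝ) (J : Finset Wl) (Q R : Wl → F → Prop)
    [∀ a g, Decidable (Q a g)] [∀ a g, Decidable (R a g)] :
    ∑ g, nu g * ((∑ a ∈ J, (if Q a g then w a else 0)) * ∑ c ∈ J, (if R c g then w c else 0))
      = ∑ a ∈ J, ∑ c ∈ J, w a * w c * ∑ g, (if Q a g ∧ R c g then nu g else 0) := by
  have e : ∀ g, nu g * ((∑ a ∈ J, (if Q a g then w a else 0)) * ∑ c ∈ J, (if R c g then w c else 0))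
      = ∑ a ∈ J, ∑ c ∈ J, w a * w c * (if Q a g ∧ R c g then nu g else 0) := by
    intro g
    rw [Finset.sum_mul_sum, Finset.mul_sum]
    refine Finset.sum_congr rfl fun a _ => ?_
    rw [Finset.mul_sum]
    refine Finset.sum_congr rfl fun c _ => ?_
    by_cases h1 : Q a g <;> by_cases h2 : R c g <;> simp [h1, h2]
    ring
  rw [Finset.sum_congr rfl fun g _ => e g, Finset.sum_comm]
  refine Finset.sum_congr rfl fun a _ => ?_
  rw [Finset.sum_comm]
  exact Finset.sum_congr rfl fun c _ => by rw [Finset.mul_sum]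

/-- Carleson bound: near dominated sets that are nested or disjoint. -/
theorem carleson (nu : F → ℝ) (hnu : ∀ g, 0 ≤ nu g) (w : Wl → ℝ) (hw : ∀ a, 0 ≤ w a)
    (J : Finset Wl) (P N : Wl → F → Prop) [∀ a g, Decidable (P a g)] [∀ a g, Decidable (N a g)]
    (hlam : ∀ a ∈ J, ∀ c ∈ J, (∀ g, P a g → P c g) ∨ (∀ g, P c g → P a g) ∨ ∀ g, ¬ (P a g ∧ P c g))
    (hND : ∀ a ∈ J, ∑ g, (if P a g then nu g else 0) ≤ 2 * ∑ g, (if P a g ∧ N a g then nu g else 0))
    (nr : F → ℝ) (hnr : ∀ g, ∑ a ∈ J, (if N a g then w a else 0) ≤ nr g) :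
    ∑ g, nu g * (∑ a ∈ J, (if P a g then w a else 0)) ≤ 2 * ∑ g, nu g * nr g ∧
    ∑ g, nu g * (∑ a ∈ J, (if P a g then w a else 0)) ^ 2 ≤ 16 * ∑ g, nu g * nr g ^ 2 := by
  have hPN : ∀ g, ∑ a ∈ J, (if P a g ∧ N a g then w a else 0) ≤ nr g := fun g =>
    le_trans (Finset.sum_le_sum fun a _ => by
      by_cases h1 : P a g <;> by_cases h2 : N a g <;> simp [h1, h2, hw a]) (hnr g)
  have hZ0 : ∀ g, 0 ≤ ∑ a ∈ J, (if P a g then w a else 0) := fun g =>
    Finset.sum_nonneg fun a _ => by split_ifs; exacts [hw a, le_rfl]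
  constructor
  · rw [mean_wt]
    calc ∑ a ∈ J, w a * ∑ g, (if P a g then nu g else 0)
        ≤ ∑ a ∈ J, w a * (2 * ∑ g, (if P a g ∧ N a g then nu g else 0)) :=
          Finset.sum_le_sum fun a ha => mul_le_mul_of_nonneg_left (hND a ha) (hw a)
      _ = 2 * ∑ a ∈ J, w a * ∑ g, (if P a g ∧ N a g then nu g else 0) := by
          rw [Finset.mul_sum]; exact Finset.sum_congr rfl fun a _ => by ring
      _ = 2 * ∑ g, nu g * ∑ a ∈ J, (if P a g ∧ N a g then w a else 0) := by
          rw [mean_wt nu w J fun a g => P a g ∧ N a g]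
      _ ≤ 2 * ∑ g, nu g * nr g := by
          refine mul_le_mul_of_nonneg_left (Finset.sum_le_sum fun g _ => ?_) (by norm_num)
          exact mul_le_mul_of_nonneg_left (hPN g) (hnu g)
  · -- pair masses
    set Z : F → ℝ := fun g => ∑ a ∈ J, (if P a g then w a else 0) with hZ
    set q : Wl → Wl → ℝ := fun a c => ∑ g, (if (P a g ∧ N a g) ∧ P c g then nu g else 0) with hq
    have hq0 : ∀ a c, 0 ≤ q a c := fun a c =>
      Finset.sum_nonneg fun g _ => by split_ifs; exacts [hnu g, le_rfl]
    have hsub : ∀ a ∈ J, ∀ c, (∀ g, P a g → P c g) →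
        ∑ g, (if P a g ∧ P c g then nu g else 0) ≤ 2 * q a c := by
      intro a ha c h
      have e1 : ∑ g, (if P a g ∧ P c g then nu g else 0) = ∑ g, (if P a g then nu g else 0) :=
        Finset.sum_congr rfl fun g _ => by
          by_cases h1 : P a g
          · simp [h1, h g h1]
          · simp [h1]
      have e2 : q a c = ∑ g, (if P a g ∧ N a g then nu g else 0) :=
        Finset.sum_congr rfl fun g _ => by
          by_cases h1 : P a g
          · simp [h1, h g h1]
          · simp [h1]
      rw [e1, e2]; exact hND a ha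
    have hpair : ∀ a ∈ J, ∀ c ∈ J,
        ∑ g, (if P a g ∧ P c g then nu g else 0) ≤ 2 * q a c + 2 * q c a := by
      intro a ha c hc
      rcases hlam a ha c hc with h | h | h
      · have := hsub a ha c h
        have := hq0 c a
        linarith
      · have h1 := hsub c hc a h
        have e : ∑ g, (if P a g ∧ P c g then nu g else 0)
            = ∑ g, (if P c g ∧ P a g then nu g else 0) :=
          Finset.sum_congr rfl fun g _ => by simp only [and_comm]
        have := hq0 a c
        linarith
      · have e : ∑ g, (if P a g ∧ P c g then nu g else 0) = 0 :=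
          Finset.sum_eq_zero fun g _ => by simp [h g]
        have := hq0 a c
        have := hq0 c a
        linarith
    have e1 : ∑ g, nu g * Z g ^ 2
        = ∑ a ∈ J, ∑ c ∈ J, w a * w c * ∑ g, (if P a g ∧ P c g then nu g else 0) := by
      rw [← mean_wt2 nu w J P P]; exact Finset.sum_congr rfl fun g _ => by rw [sq]
    have e2 : ∑ g, nu g * ((∑ a ∈ J, (if P a g ∧ N a g then w a else 0)) * Z g)
        = ∑ a ∈ J, ∑ c ∈ J, w a * w c * q a c :=
      mean_wt2 nu w J (fun a g => P a g ∧ N a g) P
    have e3 : ∑ a ∈ J, ∑ c ∈ J, w a * w c * q c a = ∑ a ∈ J, ∑ c ∈ J, w a * w c * q a c := by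
      rw [Finset.sum_comm]
      exact Finset.sum_congr rfl fun a _ => Finset.sum_congr rfl fun c _ => by ring
    have b1 : ∑ g, nu g * Z g ^ 2 ≤ 4 * ∑ a ∈ J, ∑ c ∈ J, w a * w c * q a c := by
      rw [e1]
      calc ∑ a ∈ J, ∑ c ∈ J, w a * w c * ∑ g, (if P a g ∧ P c g then nu g else 0)
          ≤ ∑ a ∈ J, ∑ c ∈ J, (2 * (w a * w c * q a c) + 2 * (w a * w c * q c a)) := by
            refine Finset.sum_le_sum fun a ha => Finset.sum_le_sum fun c hc => ?_
            have := mul_le_mul_of_nonneg_left (hpair a ha c hc) (mul_nonneg (hw a) (hw c))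
            linarith
        _ = 4 * ∑ a ∈ J, ∑ c ∈ J, w a * w c * q a c := by
            simp only [Finset.sum_add_distrib, ← Finset.mul_sum]
            linarith
    have b2 : ∑ g, nu g * ((∑ a ∈ J, (if P a g ∧ N a g then w a else 0)) * Z g)
        ≤ ∑ g, (2 * (nu g * nr g ^ 2) + (1 / 8) * (nu g * Z g ^ 2)) := by
      refine Finset.sum_le_sum fun g _ => ?_
      have h1 := mul_le_mul_of_nonneg_right (hPN g) (hZ0 g)
      have h2 : nr g * Z g ≤ 2 * nr g ^ 2 + (1 / 8) * Z g ^ 2 := by
        nlinarith [sq_nonneg (4 * nr g - Z g)]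
      have h3 := mul_le_mul_of_nonneg_left (le_trans h1 h2) (hnu g)
      simp only [hZ] at h3 ⊢
      linarith
    rw [Finset.sum_add_distrib, ← Finset.mul_sum, ← Finset.mul_sum] at b2
    change ∑ g, nu g * Z g ^ 2 ≤ _
    linarith

/-- Sides of mass below one half of a laminar family are nested or disjoint. -/
theorem small_sides (nu : F → ℝ) (hnu : ∀ g, 0 ≤ nu g) (h1 : ∑ g, nu g = 1)
    (S T : F → Bool) (hl : ∃ s t : Bool, ∀ g, ¬ (S g = s ∧ T g = t)) (x y : Bool)
    (hx : ∑ g, (if S g = x then nu g else 0) < 1 / 2)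
    (hy : ∑ g, (if T g = y then nu g else 0) < 1 / 2) :
    (∀ g, S g = x → T g = y) ∨ (∀ g, T g = y → S g = x) ∨ ∀ g, ¬ (S g = x ∧ T g = y) := by
  obtain ⟨s, t, h⟩ := hl
  by_cases hs : s = x <;> by_cases ht : t = y
  · subst hs ht; exact Or.inr (Or.inr h)
  · subst hs
    refine Or.inl fun g hg => ?_
    have := h g
    revert this ht hg; cases T g <;> cases t <;> cases y <;> simp
  · subst ht
    refine Or.inr (Or.inl fun g hg => ?_)
    have := h g
    revert this hs hg; cases S g <;> cases s <;> cases x <;> simp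
  · exfalso
    have : ∑ g, nu g ≤ ∑ g, ((if S g = x then nu g else 0) + (if T g = y then nu g else 0)) := by
      refine Finset.sum_le_sum fun g _ => ?_
      have h2 := h g
      have h3 := hnu g
      by_cases a : S g = x <;> by_cases c : T g = y
      · simp [a, c, h3]
      · simp [a, c]
      · simp [a, c]
      · exfalso; apply h2
        revert a c hs ht; cases S g <;> cases T g <;> cases s <;> cases t <;> cases x <;>
          cases y <;> simp
    rw [Finset.sum_add_distrib] at this
    linarith

/-- Concentration: every wall is big, small and bad, or small and near dominated. -/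
theorem conc [Fintype Wl] (nu : F → ℝ) (hnu : ∀ g, 0 ≤ nu g) (h1 : ∑ g, nu g = 1)
    (w : Wl → ℝ) (hw : ∀ a, 0 ≤ w a) (S : Wl → F → Bool)
    (hlam : ∀ a c, ∃ s t : Bool, ∀ g, ¬ (S a g = s ∧ S c g = t))
    (N : Wl → F → Prop) [∀ a g, Decidable (N a g)] (nr : F → ℝ)
    (hnr : ∀ g, ∑ a, (if N a g then w a else 0) ≤ nr g)
    (Big Sm ND : Finset Wl) (hcov : ∀ a, a ∈ Big ∨ a ∈ Sm ∨ a ∈ ND) (sd : Wl → Bool)
    (hsm : ∀ a ∈ ND, ∑ g, (if S a g = sd a then nu g else 0) < 1 / 2)
    (hND : ∀ a ∈ ND, ∑ g, (if S a g = sd a then nu g else 0)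
      ≤ 2 * ∑ g, (if S a g = sd a ∧ N a g then nu g else 0))
    (L ga A B : ℝ) (hL : ∑ a ∈ Big, w a ≤ L)
    (hga : ∑ a ∈ Sm, w a * ∑ g, (if S a g = sd a then nu g else 0) ≤ ga)
    (hA : ∑ g, nu g * nr g ≤ A) (hB : ∑ g, nu g * nr g ^ 2 ≤ B) :
    ∃ y, 0 < nu y ∧
      ∑ g, nu g * (∑ a, if S a y ≠ S a g then w a else 0) ≤ L + 2 * ga + 4 * A ∧
      ∀ R, 0 < R → 2 * (L + ga + 2 * A) ≤ R →
        ∑ g, (if R < (∑ a, if S a y ≠ S a g then w a else 0) then
          nu g * (∑ a, if S a y ≠ S a g then w a else 0) else 0) ≤ 4 * ga + 256 * B / R := by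
  classical
  set f : F → ℝ := fun g => ∑ a ∈ Sm, (if S a g = sd a then w a else 0) with hf
  set Z : F → ℝ := fun g => ∑ a ∈ ND, (if S a g = sd a then w a else 0) with hZ
  have hf0 : ∀ g, 0 ≤ f g := fun g =>
    Finset.sum_nonneg fun a _ => by split_ifs; exacts [hw a, le_rfl]
  have hZ0 : ∀ g, 0 ≤ Z g := fun g =>
    Finset.sum_nonneg fun a _ => by split_ifs; exacts [hw a, le_rfl]
  have hnr' : ∀ g, ∑ a ∈ ND, (if N a g then w a else 0) ≤ nr g := fun g =>
    le_trans (Finset.sum_le_sum_of_subset_of_nonneg (Finset.subset_univ _) fun a _ _ => by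
      split_ifs; exacts [hw a, le_rfl]) (hnr g)
  obtain ⟨c1, c2⟩ := carleson nu hnu w hw ND (fun a g => S a g = sd a) N
    (fun a ha c hc => small_sides nu hnu h1 (S a) (S c) (hlam a c) (sd a) (sd c)
      (hsm a ha) (hsm c hc)) hND nr hnr'
  have c1' : ∑ g, nu g * Z g ≤ 2 * A := by
    have : ∑ g, nu g * Z g ≤ 2 * ∑ g, nu g * nr g := c1
    linarith
  have c2' : ∑ g, nu g * Z g ^ 2 ≤ 16 * B := by
    have : ∑ g, nu g * Z g ^ 2 ≤ 16 * ∑ g, nu g * nr g ^ 2 := c2
    linarith
  have c3 : ∑ g, nu g * f g ≤ ga := by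
    have e : ∑ g, nu g * f g = ∑ a ∈ Sm, w a * ∑ g, (if S a g = sd a then nu g else 0) :=
      mean_wt nu w Sm fun a g => S a g = sd a
    linarith
  obtain ⟨y, hy0, hy⟩ : ∃ y, 0 < nu y ∧ f y + Z y ≤ ga + 2 * A := by
    by_contra hcon
    push Not at hcon
    have hex : ∃ g, 0 < nu g := by
      by_contra h0
      push Not at h0
      have : ∑ g, nu g ≤ 0 := Finset.sum_nonpos fun g _ => h0 g
      linarith
    obtain ⟨g0, hg0⟩ := hex
    have : ∑ g, nu g * (ga + 2 * A) < ∑ g, nu g * (f g + Z g) := by
      refine Finset.sum_lt_sum (fun g _ => ?_) ⟨g0, Finset.mem_univ _, ?_⟩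
      · rcases (hnu g).eq_or_lt with h | h
        · rw [← h]; simp
        · exact mul_le_mul_of_nonneg_left (hcon g h).le h.le
      · exact mul_lt_mul_of_pos_left (hcon g0 hg0) hg0
    rw [← Finset.sum_mul, h1] at this
    simp only [mul_add, Finset.sum_add_distrib] at this
    linarith
  have hD : ∀ g, (∑ a, if S a y ≠ S a g then w a else 0) ≤ L + ga + 2 * A + (f g + Z g) := by
    intro g
    have key : ∀ a, (if S a y ≠ S a g then w a else 0) ≤ (if a ∈ Big then w a else 0)
        + ((if a ∈ Sm then (if S a y = sd a then w a else 0) else 0)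
        + (if a ∈ ND then (if S a y = sd a then w a else 0) else 0))
        + ((if a ∈ Sm then (if S a g = sd a then w a else 0) else 0)
        + (if a ∈ ND then (if S a g = sd a then w a else 0) else 0)) := by
      intro a
      have hwa := hw a
      have hc := hcov a
      have hb : S a y ≠ S a g → S a y = sd a ∨ S a g = sd a := by
        cases S a y <;> cases S a g <;> cases sd a <;> simp
      have n1 : 0 ≤ (if a ∈ Big then w a else 0) := by split_ifs <;> linarith
      have n2 : ∀ x, 0 ≤ (if a ∈ Sm then (if S a x = sd a then w a else 0) else 0) := fun x => by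
        split_ifs <;> linarith
      have n3 : ∀ x, 0 ≤ (if a ∈ ND then (if S a x = sd a then w a else 0) else 0) := fun x => by
        split_ifs <;> linarith
      have n4 := n2 y
      have n5 := n2 g
      have n6 := n3 y
      have n7 := n3 g
      by_cases p6 : S a y ≠ S a g
      · rw [if_pos p6]
        rcases hc with p | p | p
        · rw [if_pos p]; linarith
        · rcases hb p6 with r | r
          · have e : (if a ∈ Sm then (if S a y = sd a then w a else 0) else 0) = w a := by
              rw [if_pos p, if_pos r]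
            linarith
          · have e : (if a ∈ Sm then (if S a g = sd a then w a else 0) else 0) = w a := by
              rw [if_pos p, if_pos r]
            linarith
        · rcases hb p6 with r | r
          · have e : (if a ∈ ND then (if S a y = sd a then w a else 0) else 0) = w a := by
              rw [if_pos p, if_pos r]
            linarith
          · have e : (if a ∈ ND then (if S a g = sd a then w a else 0) else 0) = w a := by
              rw [if_pos p, if_pos r]
            linarith
      · rw [if_neg p6]; linarith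
    have := Finset.sum_le_sum fun a (_ : a ∈ Finset.univ) => key a
    simp only [Finset.sum_add_distrib, Finset.sum_ite_mem, Finset.univ_inter] at this
    simp only [hf, hZ] at hy ⊢
    linarith
  refine ⟨y, hy0, ?_, fun R hR0 hR => ?_⟩
  · calc ∑ g, nu g * (∑ a, if S a y ≠ S a g then w a else 0)
        ≤ ∑ g, nu g * (L + ga + 2 * A + (f g + Z g)) :=
          Finset.sum_le_sum fun g _ => mul_le_mul_of_nonneg_left (hD g) (hnu g)
      _ = (L + ga + 2 * A) + (∑ g, nu g * f g + ∑ g, nu g * Z g) := by
          simp only [mul_add (nu _) (L + ga + 2 * A), mul_add (nu _) (f _),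
            Finset.sum_add_distrib, ← Finset.sum_mul, h1, one_mul]
      _ ≤ L + 2 * ga + 4 * A := by linarith
  · calc ∑ g, (if R < (∑ a, if S a y ≠ S a g then w a else 0) then
          nu g * (∑ a, if S a y ≠ S a g then w a else 0) else 0)
        ≤ ∑ g, (4 * (nu g * f g) + 16 / R * (nu g * Z g ^ 2)) := by
          refine Finset.sum_le_sum fun g _ => ?_
          have hfg := hf0 g
          have hZg := hZ0 g
          have hng := hnu g
          have h16 : 0 ≤ 16 / R := by positivity
          split_ifs with h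
          · have hd := hD g
            generalize (∑ a, if S a y ≠ S a g then w a else 0) = D at h hd
            have k : D ≤ 4 * f g + 16 / R * Z g ^ 2 := by
              by_cases hz : Z g ≤ f g
              · have : 0 ≤ 16 / R * Z g ^ 2 := by positivity
                linarith
              · push Not at hz
                have z1 : R / 4 ≤ Z g := by linarith
                have z2 : 4 * Z g ≤ 16 / R * Z g ^ 2 := by
                  rw [div_mul_eq_mul_div, le_div_iff₀ hR0]
                  nlinarith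
                linarith
            have := mul_le_mul_of_nonneg_left k hng
            linarith
          · positivity
      _ = 4 * ∑ g, nu g * f g + 16 / R * ∑ g, nu g * Z g ^ 2 := by
          rw [Finset.sum_add_distrib, ← Finset.mul_sum, ← Finset.mul_sum]
      _ ≤ 4 * ga + 16 / R * (16 * B) := by
          have h16 : 0 ≤ 16 / R := by positivity
          have := mul_le_mul_of_nonneg_left c2' h16
          linarith
      _ = 4 * ga + 256 * B / R := by ring

end AbdConc
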