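import Pool.Agent.Lib.MP_abd417_co.W.Defs

/-! Potential, tests and the cycle property: definitions. -/

namespace Pool.Agent.Lib.MP_abd417_co.U.Cy

open Finset Classical
open Pool.Agent.Lib.MP_abd417_co.W (ind ms Sep Cross Near NoCr DT vr)

noncomputable section

variable {F U Wl A : Type} [Fintype F] [Fintype Wl] [Fintype A]

/-- the normalised law. -/
def nrm (μ : F → ℝ) : F → ℝ := fun g => μ g / ∑ x, μ x

/-- unnormalised covariance. -/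
def Cv (μ f h : F → ℝ) : ℝ :=
  ∑ g, μ g * (f g * h g) - (∑ g, μ g * f g) * (∑ g, μ g * h g) / ∑ g, μ g

/-- unnormalised variance. -/
def Vr (μ f : F → ℝ) : ℝ := Cv μ f f

/-- the test functional. -/
def Vn (μ f h : F → ℝ) : ℝ := Cv μ f h - (Vr μ f + Vr μ h) / 4

/-- restriction to a fibre of `u`. -/
def fib (u : F → U) (μ : F → ℝ) (a : U) : F → ℝ := fun g => if u g = a then μ g else 0

/-- unnormalised conditional variance given `u`. -/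
def CV (u : F → U) (μ f : F → ℝ) : ℝ := ∑ a ∈ univ.image u, Vr (fib u μ a) f

/-- conditional expectation given `u`. -/
def cE (u : F → U) (μ f : F → ℝ) (a : U) : ℝ :=
  (∑ g, fib u μ a g * f g) / ∑ g, fib u μ a g

/-- the side of a wall as a sign. -/
def sg (s : Finset F) (g : F) : ℝ := if g ∈ s then 1 else -1

/-- `P` is one of the two sides of the wall `s`. -/
def Side (s : Finset F) (P : F → Prop) : Prop := (∀ g, P g ↔ g ∈ s) ∨ ∀ g, P g ↔ g ∉ s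

/-- part of the potential carried by one wall. -/
def PsW (ax : Fin 3 → F → U) (s : Finset F) (μ : F → ℝ) : ℝ :=
  Vr μ (sg s) + ∑ i, CV (ax i) μ (sg s)

/-- part of the potential carried by one partition into cells. -/
def PsC (cl : F → F) (μ : F → ℝ) : ℝ := ∑ c, Vr μ (fun g => if cl g = c then 1 else 0)

/-- the potential. -/
def Psi (ax : Fin 3 → F → U) (w : Wl → ℝ) (S : Wl → Finset F) (wa : A → ℝ) (cell : A → F → F)
    (μ : F → ℝ) : ℝ :=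
  ∑ l, w l * PsW ax (S l) μ + ∑ a, wa a * PsC (cell a) μ

/-- `ν` is a finite decomposition of `μ`. -/
def Dec {Om : Type} [Fintype Om] (ν : Om → F → ℝ) (μ : F → ℝ) : Prop :=
  (∀ k g, 0 ≤ ν k g) ∧ ∀ g, ∑ k, ν k g = μ g

/-- drop of the variance along a decomposition. -/
def dr {Om : Type} [Fintype Om] (ν : Om → F → ℝ) (μ f : F → ℝ) : ℝ := Vr μ f - ∑ k, Vr (ν k) f

/-- a split of `ν` lowers `D` by at least `γ`. -/
def Gain (D : (F → ℝ) → ℝ) (ν : F → ℝ) (γ : ℝ) : Prop :=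
  ∃ φ : F → ℝ, (∀ g, 0 ≤ φ g ∧ φ g ≤ 1) ∧
    D (fun g => ν g * φ g) + D (fun g => ν g * (1 - φ g)) + γ ≤ D ν

/-- the cycle property. -/
def CYC (D Ps : (F → ℝ) → ℝ) (μ : F → ℝ) (c1 c : ℝ) : Prop :=
  ∀ (Om : Type) [Fintype Om] (ν : Om → F → ℝ), (∀ k g, 0 ≤ ν k g) → (∀ g, ∑ k, ν k g = μ g) →
    Ps μ - c1 * ∑ g, μ g ≤ ∑ k, Ps (ν k) →
    ∃ γ : Om → ℝ, (∀ k, Gain D (ν k) (γ k)) ∧ c * ∑ g, μ g ≤ ∑ k, γ k

/-- what the entropy layer gives for the pair of maps `u, v`. -/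
structure EntOK (u v : F → U) (D : (F → ℝ) → ℝ) (C0 : ℝ) : Prop where
  zero : ∀ ν : F → ℝ, (∀ g, 0 ≤ ν g) → Gain D ν 0
  l2 : ∀ (ν : F → ℝ) (X Y : U → ℝ) (e : ℝ), (∀ g, 0 ≤ ν g) → (∀ a, |X a| ≤ 1) → (∀ a, |Y a| ≤ 1) →
    0 < e → e ≤ 1 / 16 →
    Gain D ν (4 * e ^ 2 * Vn ν (fun g => X (u g)) (fun g => Y (v g)) - C0 * e ^ 4 * ∑ g, ν g)
  small : ∀ (ν : F → ℝ) (P Q : U → Prop) (y : ℝ), (∀ g, 0 ≤ ν g) →
    0 < ms ν (fun g => P (u g) ∧ Q (v g)) →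
    ms ν (fun g => P (u g)) ≤ y → ms ν (fun g => Q (v g)) ≤ y → y ≤ ∑ g, ν g →
    Gain D ν (ms ν (fun g => P (u g) ∧ Q (v g)) *
      (4 / 3 * Real.log ((∑ g, ν g) / y)
        - Real.log ((∑ g, ν g) / ms ν (fun g => P (u g) ∧ Q (v g))) - C0))

/-- a fine test at a partition into cells. -/
def Fine (ax : Fin 3 → F → U) (cl : F → F) (μ : F → ℝ) (γ Nc : ℝ) (p : Fin 3) : Prop :=
  ∃ (X Y : U → ℝ) (C : Finset F) (x y : F → ℝ), (∀ a, |X a| ≤ 1) ∧ (∀ a, |Y a| ≤ 1) ∧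
    (∀ c, |x c| ≤ 1) ∧ (∀ c, |y c| ≤ 1) ∧ (C.card : ℝ) ≤ Nc ∧
    γ * ∑ g, μ g ≤ Vn μ (fun g => X (ax (p + 1) g)) (fun g => Y (ax (p + 2) g)) ∧
    ∑ g, μ g * (X (ax (p + 1) g) - if cl g ∈ C then x (cl g) else 0) ^ 2 ≤ γ / 4 * ∑ g, μ g ∧
    ∑ g, μ g * (Y (ax (p + 2) g) - if cl g ∈ C then y (cl g) else 0) ^ 2 ≤ γ / 4 * ∑ g, μ g

end

end Pool.Agent.Lib.MP_abd417_co.U.Cy
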