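import Pool.Agent.Lib.MP_abd417_co.U.CycDefs
import Pool.Agent.Lib.MP_abd417_co.Up.Ent

/-! The entropy deficiency satisfies the three gain properties used by the cycle block. -/

namespace Pool.Agent.Lib.MP_abd417_co.U.Cy

open Finset Real Classical
open Pool.Agent.Lib.MP_abd417_co.Up

variable {F U : Type} [Fintype F] [Fintype U]

theorem ent_gg_lower {a b : ℝ} (ha : 0 < a) (hb : 0 ≤ b) :
    a * (log (a + b) - log a) ≤ Ent.gg a b := by
  have k : b * log b ≤ b * log (a + b) := by
    rcases hb.eq_or_lt with h | h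
    · subst h; simp
    · exact mul_le_mul_of_nonneg_left (Real.log_le_log h (by linarith)) hb
  unfold Ent.gg negMulLog
  nlinarith

theorem ent_push_small [DecidableEq U] (u : F → U) {m1 m0 : F → ℝ} (P : U → Prop) {y : ℝ}
    (h1 : ∀ g, 0 ≤ m1 g) (h0 : ∀ g, 0 ≤ m0 g) (hP : ∀ g, ¬ P (u g) → m1 g = 0)
    (hb : 0 < ∑ g, m1 g) (hy : ∑ g, (if P (u g) then m1 g + m0 g else 0) ≤ y) :
    ∑ a, Ent.gg (Ent.push u m1 a) (Ent.push u m0 a)
      ≤ (∑ g, m1 g) * (log y - log (∑ g, m1 g) + 2) := by
  set b := ∑ g, m1 g with hbd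
  have s1 : ∑ g, (if P (u g) then m0 g else 0) + b = ∑ g, (if P (u g) then m1 g + m0 g else 0) := by
    rw [hbd, ← Finset.sum_add_distrib]
    refine Finset.sum_congr rfl fun g _ => ?_
    split_ifs with h
    · ring
    · rw [hP g h]; ring
  have s0 : 0 ≤ ∑ g, (if P (u g) then m0 g else 0) :=
    Finset.sum_nonneg fun g _ => by split_ifs <;> simp [h0 g]
  have hby : b ≤ y := by linarith
  have hy0 : 0 < y := by linarith
  have hs : 0 < y + b := by linarith
  have key : ∀ a, Ent.gg (Ent.push u m1 a) (Ent.push u m0 a)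
      ≤ Ent.push u m1 a * (-log (b / (y + b)))
        + Ent.push u m0 a * (if P a then -log (y / (y + b)) else 0) := by
    intro a
    by_cases h : P a
    · have := Ent.gg_le (Ent.push_nonneg u h1 a) (Ent.push_nonneg u h0 a)
        (show 0 < b / (y + b) by positivity) (show 0 < y / (y + b) by positivity)
        (by rw [← add_div, add_comm, div_self hs.ne'])
      rw [if_pos h]; linarith
    · have z : Ent.push u m1 a = 0 := by
        unfold Ent.push
        refine Finset.sum_eq_zero fun g _ => ?_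
        split_ifs with e
        · exact hP g (by rw [e]; exact h)
        · rfl
      simp [z, h, Ent.gg]
  refine (Finset.sum_le_sum fun a _ => key a).trans ?_
  rw [Finset.sum_add_distrib, Ent.sum_push_mul, Ent.sum_push_mul, ← Finset.sum_mul, ← hbd]
  have e2 : ∑ g, m0 g * (if P (u g) then -log (y / (y + b)) else 0)
      = (∑ g, (if P (u g) then m0 g else 0)) * (-log (y / (y + b))) := by
    rw [Finset.sum_mul]
    refine Finset.sum_congr rfl fun g _ => ?_
    split_ifs <;> simp
  rw [e2]
  have l1 : -log (y / (y + b)) ≤ b / y := by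
    rw [← Real.log_inv, inv_div]
    have := Real.log_le_sub_one_of_pos (show 0 < (y + b) / y by positivity)
    have e : (y + b) / y - 1 = b / y := by field_simp; ring
    linarith
  have l0 : 0 ≤ -log (y / (y + b)) := by
    rw [neg_nonneg]
    exact Real.log_nonpos (by positivity) (by rw [div_le_one hs]; linarith)
  have l2 : -log (b / (y + b)) ≤ log y - log b + 1 := by
    rw [Real.log_div hb.ne' hs.ne']
    have a1 : log (y + b) ≤ log (2 * y) := Real.log_le_log hs (by linarith)
    rw [Real.log_mul two_ne_zero hy0.ne'] at a1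
    have a2 := Real.log_le_sub_one_of_pos (show (0 : ℝ) < 2 by norm_num)
    linarith
  have l3 : (∑ g, (if P (u g) then m0 g else 0)) * (-log (y / (y + b))) ≤ y * (b / y) :=
    mul_le_mul (by linarith) l1 l0 hy0.le
  have l4 : y * (b / y) = b := by field_simp
  have l5 := mul_le_mul_of_nonneg_left l2 hb.le
  nlinarith

theorem ent_ms_eq (ν : F → ℝ) (P : F → Prop) : W.ms ν P = ∑ g, if P g then ν g else 0 := by
  unfold W.ms W.ind
  refine Finset.sum_congr rfl fun g _ => ?_
  split_ifs <;> simp

theorem entOK [DecidableEq U] (u v : F → U) : EntOK u v (Ent.D u v) 28672 where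
  zero := by
    intro ν _
    refine ⟨fun _ => 1, fun _ => ⟨zero_le_one, le_rfl⟩, ?_⟩
    simp [Ent.D, Ent.H, Ent.push]
  l2 := by
    intro ν X Y e hν hX hY he0 he
    obtain ⟨phi, p1, -, p3⟩ := Ent.l2_step u v X Y hν (fun g => hX _) (fun g => hY _) he0.le he
    refine ⟨phi, fun g => ⟨by linarith [(p1 g).1], by linarith [(p1 g).2]⟩, ?_⟩
    have : Vn ν (fun g => X (u g)) (fun g => Y (v g))
        = Ent.Vn ν (fun g => X (u g)) (fun g => Y (v g)) := by
      unfold Vn Vr Cv Ent.Vn
      simp only [sq]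
    rw [this]
    linarith
  small := by
    intro ν P Q y hν hb hP hQ hy
    set phi : F → ℝ := fun g => if P (u g) ∧ Q (v g) then 1 else 0 with hphi
    have p01 : ∀ g, 0 ≤ phi g ∧ phi g ≤ 1 := by
      intro g; simp only [hphi]; split_ifs <;> norm_num
    refine ⟨phi, p01, ?_⟩
    have h1 : ∀ g, 0 ≤ ν g * phi g := fun g => mul_nonneg (hν g) (p01 g).1
    have h0 : ∀ g, 0 ≤ ν g * (1 - phi g) := fun g =>
      mul_nonneg (hν g) (by linarith [(p01 g).2])
    have eb : ∑ g, ν g * phi g = W.ms ν (fun g => P (u g) ∧ Q (v g)) := by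
      rw [ent_ms_eq]
      refine Finset.sum_congr rfl fun g _ => ?_
      simp only [hphi]
      by_cases h : P (u g) ∧ Q (v g) <;> simp [h]
    have es : ∀ g, ν g * phi g + ν g * (1 - phi g) = ν g := fun g => by ring
    have e := Ent.D_split_eq u v (fun g => ν g * phi g) (fun g => ν g * (1 - phi g))
    have hb' : 0 < ∑ g, ν g * phi g := by rw [eb]; exact hb
    have k1 := ent_push_small u P (y := y) h1 h0
      (fun g h => by simp [hphi, h]) hb' (by simp only [es]; rw [← ent_ms_eq]; exact hP)
    have k2 := ent_push_small v Q (y := y) h1 h0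
      (fun g h => by simp [hphi, h]) hb' (by simp only [es]; rw [← ent_ms_eq]; exact hQ)
    have k3 : 0 ≤ ∑ g, Ent.gg (ν g * phi g) (ν g * (1 - phi g)) :=
      Finset.sum_nonneg fun g _ => Ent.gg_nonneg (h1 g) (h0 g)
    have k4 := ent_gg_lower hb' (Finset.sum_nonneg fun g (_ : g ∈ Finset.univ) => h0 g)
    rw [← Finset.sum_add_distrib] at k4
    simp only [es] at e k4
    have hle : ∑ g, ν g * phi g ≤ W.ms ν (fun g => P (u g)) := by
      rw [ent_ms_eq]
      refine Finset.sum_le_sum fun g _ => ?_
      simp only [hphi]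
      by_cases h : P (u g)
      · by_cases h' : Q (v g) <;> simp [h, h', hν g]
      · simp [h]
    have hy0 : 0 < y := by linarith
    have hm0 : 0 < ∑ g, ν g := by linarith
    rw [← eb, Real.log_div hm0.ne' hy0.ne', Real.log_div hm0.ne' hb'.ne']
    have e' : (fun g => ν g) = ν := rfl
    rw [e'] at e
    nlinarith

end Pool.Agent.Lib.MP_abd417_co.U.Cy
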