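import Pool.Agent.Lib.MP_abd417_co.U.CycDefs

/-! The cycle property from a family of fine tests. -/

namespace Pool.Agent.Lib.MP_abd417_co.U.Cy.CF

open Finset Classical

variable {F U Wl A Om : Type} [Fintype F] [Fintype Wl] [Fintype A] [Fintype Om]

theorem sq_div_ge (μ f : F → ℝ) (hμ : ∀ g, 0 ≤ μ g) (t : ℝ) :
    2 * t * (∑ g, μ g * f g) - t ^ 2 * ∑ g, μ g ≤
      (∑ g, μ g * f g) * (∑ g, μ g * f g) / ∑ g, μ g := by
  rcases (Finset.sum_nonneg fun g (_ : g ∈ Finset.univ) => hμ g).eq_or_lt with h | h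
  · have h0 : ∀ g, μ g = 0 := fun g =>
      (Finset.sum_eq_zero_iff_of_nonneg fun g _ => hμ g).1 h.symm g (Finset.mem_univ g)
    simp [h0]
  · rw [le_div_iff₀ h]
    nlinarith [sq_nonneg ((∑ g, μ g * f g) - t * ∑ g, μ g)]

theorem opt_eq (s m : ℝ) : 2 * (s / m) * s - (s / m) ^ 2 * m = s * s / m := by
  by_cases h : m = 0
  · simp [h]
  · field_simp
    ring

theorem Vr_nonneg (μ f : F → ℝ) (hμ : ∀ g, 0 ≤ μ g) : 0 ≤ Vr μ f := by
  unfold Vr Cv
  rw [← opt_eq]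
  set t := (∑ g, μ g * f g) / ∑ g, μ g
  have h : 0 ≤ ∑ g, μ g * (f g - t) ^ 2 :=
    Finset.sum_nonneg fun g _ => mul_nonneg (hμ g) (sq_nonneg _)
  have e : ∑ g, μ g * (f g - t) ^ 2 =
      ∑ g, μ g * (f g * f g) - (2 * t * (∑ g, μ g * f g) - t ^ 2 * ∑ g, μ g) := by
    rw [Finset.mul_sum, Finset.mul_sum, ← Finset.sum_sub_distrib, ← Finset.sum_sub_distrib]
    exact Finset.sum_congr rfl fun g _ => by ring
  linarith

theorem Vr_le (μ f : F → ℝ) (hμ : ∀ g, 0 ≤ μ g) : Vr μ f ≤ ∑ g, μ g * f g ^ 2 := by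
  unfold Vr Cv
  have h : 0 ≤ (∑ g, μ g * f g) * (∑ g, μ g * f g) / ∑ g, μ g :=
    div_nonneg (mul_self_nonneg _) (Finset.sum_nonneg fun g _ => hμ g)
  have e : ∑ g, μ g * (f g * f g) = ∑ g, μ g * f g ^ 2 :=
    Finset.sum_congr rfl fun g _ => by ring
  linarith

theorem sum_dec {ν : Om → F → ℝ} {μ : F → ℝ} (h : ∀ g, ∑ k, ν k g = μ g) (f : F → ℝ) :
    ∑ k, ∑ g, ν k g * f g = ∑ g, μ g * f g := by
  rw [Finset.sum_comm]
  exact Finset.sum_congr rfl fun g _ => by rw [← Finset.sum_mul, h g]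

theorem mass_dec {ν : Om → F → ℝ} {μ : F → ℝ} (h : ∀ g, ∑ k, ν k g = μ g) :
    ∑ k, ∑ g, ν k g = ∑ g, μ g := by
  rw [Finset.sum_comm]
  exact Finset.sum_congr rfl fun g _ => h g

theorem dr_nonneg {ν : Om → F → ℝ} {μ : F → ℝ} (h : Dec ν μ) (f : F → ℝ) : 0 ≤ dr ν μ f := by
  unfold dr Vr Cv
  rw [Finset.sum_sub_distrib, sum_dec h.2 (fun g => f g * f g), ← opt_eq]
  set t := (∑ g, μ g * f g) / ∑ g, μ g
  have h1 := Finset.sum_le_sum fun k (_ : k ∈ Finset.univ) => sq_div_ge (ν k) f (h.1 k) t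
  rw [Finset.sum_sub_distrib, ← Finset.mul_sum, ← Finset.mul_sum, sum_dec h.2 f,
    mass_dec h.2] at h1
  linarith

theorem dr_le {ν : Om → F → ℝ} {μ : F → ℝ} (h : Dec ν μ) (f : F → ℝ) :
    dr ν μ f ≤ ∑ g, μ g * f g ^ 2 := by
  have hμ : ∀ g, 0 ≤ μ g := fun g => by
    rw [← h.2 g]
    exact Finset.sum_nonneg fun k _ => h.1 k g
  have h1 : 0 ≤ ∑ k, Vr (ν k) f := Finset.sum_nonneg fun k _ => Vr_nonneg _ _ (h.1 k)
  have h2 := Vr_le μ f hμ
  unfold dr
  linarith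

theorem Vr_add (μ f h : F → ℝ) (t : ℝ) :
    Vr μ (fun g => f g + t * h g) = Vr μ f + 2 * t * Cv μ f h + t ^ 2 * Vr μ h := by
  unfold Vr Cv
  have e1 : ∑ g, μ g * ((f g + t * h g) * (f g + t * h g)) =
      ∑ g, μ g * (f g * f g) + 2 * t * ∑ g, μ g * (f g * h g) + t ^ 2 * ∑ g, μ g * (h g * h g) := by
    rw [Finset.mul_sum, Finset.mul_sum, ← Finset.sum_add_distrib, ← Finset.sum_add_distrib]
    exact Finset.sum_congr rfl fun g _ => by ring
  have e2 : ∑ g, μ g * (f g + t * h g) = ∑ g, μ g * f g + t * ∑ g, μ g * h g := by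
    rw [Finset.mul_sum, ← Finset.sum_add_distrib]
    exact Finset.sum_congr rfl fun g _ => by ring
  rw [e1, e2]
  ring

theorem dr_add (ν : Om → F → ℝ) (μ f h : F → ℝ) (t : ℝ) :
    dr ν μ (fun g => f g + t * h g) =
      dr ν μ f + 2 * t * (Cv μ f h - ∑ k, Cv (ν k) f h) + t ^ 2 * dr ν μ h := by
  unfold dr
  simp only [Vr_add, Finset.sum_add_distrib, ← Finset.mul_sum]
  ring

theorem abs_between {ν : Om → F → ℝ} {μ : F → ℝ} (h : Dec ν μ) (f f' : F → ℝ) :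
    |Cv μ f f' - ∑ k, Cv (ν k) f f'| ≤ (dr ν μ f + dr ν μ f') / 2 := by
  have h1 := dr_nonneg h (fun g => f g + 1 * f' g)
  have h2 := dr_nonneg h (fun g => f g + (-1) * f' g)
  rw [dr_add] at h1 h2
  rw [abs_le]
  constructor <;> linarith

theorem Vn_persist {ν : Om → F → ℝ} {μ : F → ℝ} (h : Dec ν μ) (f f' : F → ℝ) :
    Vn μ f f' - (dr ν μ f + dr ν μ f') / 4 ≤ ∑ k, Vn (ν k) f f' := by
  have h1 := (abs_le.1 (abs_between h f f')).2
  unfold Vn
  rw [Finset.sum_sub_distrib, ← Finset.sum_div, Finset.sum_add_distrib]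
  unfold dr at *
  linarith

theorem Cv_sum (μ : F → ℝ) {ι : Type} (C : Finset ι) (x : ι → ℝ) (f : ι → F → ℝ) :
    Vr μ (fun g => ∑ c ∈ C, x c * f c g) =
      ∑ c ∈ C, ∑ c' ∈ C, x c * x c' * Cv μ (f c) (f c') := by
  unfold Vr Cv
  have e1 : ∑ g, μ g * ((∑ c ∈ C, x c * f c g) * ∑ c ∈ C, x c * f c g) =
      ∑ c ∈ C, ∑ c' ∈ C, x c * x c' * ∑ g, μ g * (f c g * f c' g) := by
    have e0 : ∀ g, μ g * ((∑ c ∈ C, x c * f c g) * ∑ c ∈ C, x c * f c g) =
        ∑ c ∈ C, ∑ c' ∈ C, x c * x c' * (μ g * (f c g * f c' g)) := fun g => by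
      rw [Finset.sum_mul_sum, Finset.mul_sum]
      refine Finset.sum_congr rfl fun c _ => ?_
      rw [Finset.mul_sum]
      exact Finset.sum_congr rfl fun c' _ => by ring
    simp only [e0]
    rw [Finset.sum_comm]
    refine Finset.sum_congr rfl fun c _ => ?_
    rw [Finset.sum_comm]
    exact Finset.sum_congr rfl fun c' _ => by rw [Finset.mul_sum]
  have e2 : ∑ g, μ g * (∑ c ∈ C, x c * f c g) = ∑ c ∈ C, x c * ∑ g, μ g * f c g := by
    simp only [Finset.mul_sum]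
    rw [Finset.sum_comm]
    exact Finset.sum_congr rfl fun c _ => Finset.sum_congr rfl fun g _ => by ring
  rw [e1, e2, Finset.sum_mul_sum, Finset.sum_div, ← Finset.sum_sub_distrib]
  refine Finset.sum_congr rfl fun c _ => ?_
  rw [Finset.sum_div, ← Finset.sum_sub_distrib]
  exact Finset.sum_congr rfl fun c' _ => by ring

theorem dr_sum {ν : Om → F → ℝ} {μ : F → ℝ} (h : Dec ν μ) {ι : Type} (C : Finset ι) (x : ι → ℝ)
    (hx : ∀ c, |x c| ≤ 1) (f : ι → F → ℝ) :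
    dr ν μ (fun g => ∑ c ∈ C, x c * f c g) ≤ C.card * ∑ c ∈ C, dr ν μ (f c) := by
  have e : dr ν μ (fun g => ∑ c ∈ C, x c * f c g) =
      ∑ c ∈ C, ∑ c' ∈ C, x c * x c' * (Cv μ (f c) (f c') - ∑ k, Cv (ν k) (f c) (f c')) := by
    unfold dr
    simp only [Cv_sum, mul_sub, Finset.sum_sub_distrib, Finset.mul_sum]
    congr 1
    rw [Finset.sum_comm]
    refine Finset.sum_congr rfl fun c _ => ?_
    rw [Finset.sum_comm]
  have h1 : ∀ c ∈ C, ∀ c' ∈ C,
      x c * x c' * (Cv μ (f c) (f c') - ∑ k, Cv (ν k) (f c) (f c')) ≤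
        (dr ν μ (f c) + dr ν μ (f c')) / 2 := fun c _ c' _ => by
    refine le_trans (le_abs_self _) (le_trans ?_ (abs_between h (f c) (f c')))
    rw [abs_mul, abs_mul]
    have h2 : |x c| * |x c'| ≤ 1 := mul_le_one₀ (hx c) (abs_nonneg _) (hx c')
    exact mul_le_of_le_one_left (abs_nonneg _) h2
  rw [e]
  refine le_trans (Finset.sum_le_sum fun c hc => Finset.sum_le_sum fun c' hc' => h1 c hc c' hc')
    (le_of_eq ?_)
  simp only [← Finset.sum_div, Finset.sum_add_distrib, Finset.sum_const, nsmul_eq_mul,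
    ← Finset.mul_sum]
  ring

theorem PsC_drop (cl : F → F) (ν : Om → F → ℝ) (μ : F → ℝ) :
    PsC cl μ - ∑ k, PsC cl (ν k) = ∑ c, dr ν μ (fun g => if cl g = c then 1 else 0) := by
  unfold PsC dr
  rw [Finset.sum_sub_distrib, Finset.sum_comm]

theorem PsC_super {ν : Om → F → ℝ} {μ : F → ℝ} (h : Dec ν μ) (cl : F → F) :
    0 ≤ PsC cl μ - ∑ k, PsC cl (ν k) := by
  rw [PsC_drop]
  exact Finset.sum_nonneg fun c _ => dr_nonneg h _

theorem PsW_super {ν : Om → F → ℝ} {μ : F → ℝ} (h : Dec ν μ) (ax : Fin 3 → F → U)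
    (s : Finset F) : ∑ k, PsW ax s (ν k) ≤ PsW ax s μ := by
  unfold PsW
  rw [Finset.sum_add_distrib, Finset.sum_comm]
  have h1 := dr_nonneg h (sg s)
  unfold dr at h1
  have h2 : ∀ i, ∑ k, CV (ax i) (ν k) (sg s) ≤ CV (ax i) μ (sg s) := fun i => by
    unfold CV
    rw [Finset.sum_comm]
    refine Finset.sum_le_sum fun a _ => ?_
    have h3 : Dec (fun k => fib (ax i) (ν k) a) (fib (ax i) μ a) := by
      refine ⟨fun k g => ?_, fun g => ?_⟩
      · simp only [fib]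
        split_ifs
        · exact h.1 k g
        · exact le_rfl
      · simp only [fib]
        split_ifs
        · exact h.2 g
        · simp
    have h4 := dr_nonneg h3 (sg s)
    unfold dr at h4
    linarith
  have h3 := Finset.sum_le_sum fun i (_ : i ∈ Finset.univ) => h2 i
  linarith

/-- the drop of a function close to a function of few cells. -/
theorem dr_cells {ν : Om → F → ℝ} {μ : F → ℝ} (h : Dec ν μ) (cl : F → F) (X : F → ℝ)
    (C : Finset F) (x : F → ℝ) (hx : ∀ c, |x c| ≤ 1) :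
    dr ν μ X ≤ 2 * ∑ g, μ g * (X g - if cl g ∈ C then x (cl g) else 0) ^ 2 +
      2 * (C.card * (PsC cl μ - ∑ k, PsC cl (ν k))) := by
  have e : (fun g => if cl g ∈ C then x (cl g) else 0) =
      fun g => ∑ c ∈ C, x c * (if cl g = c then 1 else 0) := by
    funext g
    simp only [mul_ite, mul_one, mul_zero]
    rw [Finset.sum_ite_eq]
  have h1 := dr_sum h C x hx (fun c g => if cl g = c then 1 else 0)
  rw [← e] at h1
  have h2 : ∑ c ∈ C, dr ν μ (fun g => if cl g = c then 1 else 0) ≤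
      PsC cl μ - ∑ k, PsC cl (ν k) := by
    rw [PsC_drop]
    exact Finset.sum_le_sum_of_subset_of_nonneg (Finset.subset_univ C) fun c _ _ => dr_nonneg h _
  have h3 := dr_le h (fun g => X g - if cl g ∈ C then x (cl g) else 0)
  have h4 := dr_add ν μ (fun g => X g - if cl g ∈ C then x (cl g) else 0)
    (fun g => if cl g ∈ C then x (cl g) else 0) 1
  have e2 : (fun g => (X g - if cl g ∈ C then x (cl g) else 0) +
      1 * if cl g ∈ C then x (cl g) else 0) = X := by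
    funext g
    ring
  rw [e2] at h4
  have h5 := (abs_le.1 (abs_between h (fun g => X g - if cl g ∈ C then x (cl g) else 0)
    (fun g => if cl g ∈ C then x (cl g) else 0))).2
  have h6 : (C.card : ℝ) * ∑ c ∈ C, dr ν μ (fun g => if cl g = c then 1 else 0) ≤
      C.card * (PsC cl μ - ∑ k, PsC cl (ν k)) :=
    mul_le_mul_of_nonneg_left h2 (Nat.cast_nonneg _)
  linarith

/-- Case (F): fine tests at places of total weight at least `cz`. -/
theorem caseF (ax : Fin 3 → F → U) (w : Wl → ℝ) (S : Wl → Finset F) (wa : A → ℝ)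
    (cell : A → F → F) (D : Fin 3 → (F → ℝ) → ℝ) (C0 γ Nc cz : ℝ)
    (hw : ∀ l, 0 ≤ w l) (hwa : ∀ a, 0 ≤ wa a)
    (hent : ∀ p, EntOK (ax (p + 1)) (ax (p + 2)) (D p) C0) (hC0 : 0 ≤ C0) (hγ : 0 < γ)
    (hNc : 0 < Nc) (hcz : 0 < cz) (μ : F → ℝ) (hμ : ∀ g, 0 ≤ μ g) (I : Finset A)
    (hI : ∀ a ∈ I, ∃ p, Fine ax (cell a) μ γ Nc p) (hsum : cz ≤ ∑ a ∈ I, wa a) :
    ∃ p, CYC (D p) (Psi ax w S wa cell) μ (γ * cz / (12 * Nc))
      (γ * min (1 / 256) (γ / (C0 + 1))) := by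
  choose! pp hpp using hI
  have hm : 0 ≤ ∑ g, μ g := Finset.sum_nonneg fun g _ => hμ g
  obtain ⟨p, hp⟩ : ∃ p : Fin 3, cz / 3 ≤ ∑ a ∈ I.filter (fun a => pp a = p), wa a := by
    by_contra hcon
    push Not at hcon
    have h1 := Finset.sum_fiberwise I pp wa
    rw [Fin.sum_univ_three] at h1
    have h2 := hcon 0
    have h3 := hcon 1
    have h4 := hcon 2
    linarith
  refine ⟨p, fun Om _ ν hν hs hdrop => ?_⟩
  have hdec : Dec ν μ := ⟨hν, hs⟩
  set dc : A → ℝ := fun a => PsC (cell a) μ - ∑ k, PsC (cell a) (ν k) with hdc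
  have hdc0 : ∀ a, 0 ≤ dc a := fun a => PsC_super hdec (cell a)
  have htot : ∑ a, wa a * dc a ≤ γ * cz / (12 * Nc) * ∑ g, μ g := by
    have h1 : ∑ k, Psi ax w S wa cell (ν k) =
        ∑ l, w l * ∑ k, PsW ax (S l) (ν k) + ∑ a, wa a * ∑ k, PsC (cell a) (ν k) := by
      unfold Psi
      rw [Finset.sum_add_distrib, Finset.sum_comm]
      congr 1
      · exact Finset.sum_congr rfl fun l _ => by rw [Finset.mul_sum]
      · rw [Finset.sum_comm]
        exact Finset.sum_congr rfl fun a _ => by rw [Finset.mul_sum]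
    have h2 : ∑ l, w l * ∑ k, PsW ax (S l) (ν k) ≤ ∑ l, w l * PsW ax (S l) μ :=
      Finset.sum_le_sum fun l _ => mul_le_mul_of_nonneg_left (PsW_super hdec ax (S l)) (hw l)
    have h3 : ∑ a, wa a * dc a =
        ∑ a, wa a * PsC (cell a) μ - ∑ a, wa a * ∑ k, PsC (cell a) (ν k) := by
      rw [← Finset.sum_sub_distrib]
      exact Finset.sum_congr rfl fun a _ => by simp only [hdc]; ring
    rw [h1] at hdrop
    unfold Psi at hdrop
    linarith
  obtain ⟨a, ha, hda⟩ : ∃ a ∈ I.filter (fun a => pp a = p),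
      dc a ≤ γ / (4 * Nc) * ∑ g, μ g := by
    have hne : (I.filter (fun a => pp a = p)).Nonempty := by
      by_contra h0
      rw [Finset.not_nonempty_iff_eq_empty.1 h0, Finset.sum_empty] at hp
      linarith
    obtain ⟨a, ha, hmin⟩ := Finset.exists_min_image _ dc hne
    refine ⟨a, ha, ?_⟩
    have h1 : (∑ b ∈ I.filter (fun a => pp a = p), wa b) * dc a ≤ ∑ b, wa b * dc b := by
      rw [Finset.sum_mul]
      refine le_trans (Finset.sum_le_sum fun b hb =>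
        mul_le_mul_of_nonneg_left (hmin b hb) (hwa b)) ?_
      exact Finset.sum_le_sum_of_subset_of_nonneg (Finset.subset_univ _)
        fun b _ _ => mul_nonneg (hwa b) (hdc0 b)
    have h2 : cz / 3 * dc a ≤ γ * cz / (12 * Nc) * ∑ g, μ g :=
      le_trans (mul_le_mul_of_nonneg_right hp (hdc0 a)) (h1.trans htot)
    have h3 : γ * cz / (12 * Nc) * ∑ g, μ g =
        cz / 3 * (γ / (4 * Nc) * ∑ g, μ g) := by
      field_simp
      ring
    rw [h3] at h2
    exact le_of_mul_le_mul_left h2 (by positivity)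
  obtain ⟨haI, hap⟩ := Finset.mem_filter.1 ha
  have hF := hpp a haI
  rw [hap] at hF
  obtain ⟨X, Y, C, x, y, hX, hY, hx, hy, hC, hV, hxe, hye⟩ := hF
  have hCd : (C.card : ℝ) * dc a ≤ γ / 4 * ∑ g, μ g := by
    have h1 : (C.card : ℝ) * dc a ≤ Nc * (γ / (4 * Nc) * ∑ g, μ g) :=
      mul_le_mul hC hda (hdc0 a) hNc.le
    have h2 : Nc * (γ / (4 * Nc) * ∑ g, μ g) = γ / 4 * ∑ g, μ g := by
      field_simp
    linarith
  have h1 := dr_cells hdec (cell a) (fun g => X (ax (p + 1) g)) C x hx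
  have h2 := dr_cells hdec (cell a) (fun g => Y (ax (p + 2) g)) C y hy
  have h3 := Vn_persist hdec (fun g => X (ax (p + 1) g)) (fun g => Y (ax (p + 2) g))
  have hVs : γ / 2 * ∑ g, μ g ≤
      ∑ k, Vn (ν k) (fun g => X (ax (p + 1) g)) (fun g => Y (ax (p + 2) g)) := by
    simp only [hdc] at hCd
    linarith
  set E : ℝ := min (1 / 256) (γ / (C0 + 1)) with hE
  have hE0 : 0 < E := lt_min (by norm_num) (by positivity)
  have hE1 : E ≤ 1 / 256 := min_le_left _ _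
  have hE2 : C0 * E ≤ γ := by
    have h4 : E ≤ γ / (C0 + 1) := min_le_right _ _
    rw [le_div_iff₀ (by positivity)] at h4
    nlinarith
  have he2 : Real.sqrt E ^ 2 = E := Real.sq_sqrt hE0.le
  have he4 : Real.sqrt E ^ 4 = E ^ 2 := by
    rw [show (4 : ℕ) = 2 * 2 from rfl, pow_mul, he2]
  have he16 : Real.sqrt E ≤ 1 / 16 := by
    rw [Real.sqrt_le_left (by norm_num)]
    linarith
  refine ⟨fun k => 4 * Real.sqrt E ^ 2 *
      Vn (ν k) (fun g => X (ax (p + 1) g)) (fun g => Y (ax (p + 2) g)) -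
        C0 * Real.sqrt E ^ 4 * ∑ g, ν k g,
    fun k => (hent p).l2 (ν k) X Y _ (hν k) hX hY (Real.sqrt_pos.2 hE0) he16, ?_⟩
  rw [Finset.sum_sub_distrib, ← Finset.mul_sum, ← Finset.mul_sum, mass_dec hs, he2, he4]
  have h5 : 4 * E * (γ / 2 * ∑ g, μ g) ≤
      4 * E * ∑ k, Vn (ν k) (fun g => X (ax (p + 1) g)) (fun g => Y (ax (p + 2) g)) :=
    mul_le_mul_of_nonneg_left hVs (by positivity)
  have h6 : C0 * E * (E * ∑ g, μ g) ≤ γ * (E * ∑ g, μ g) :=
    mul_le_mul_of_nonneg_right hE2 (by positivity)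
  nlinarith

end Pool.Agent.Lib.MP_abd417_co.U.Cy.CF

namespace Pool.Agent.Lib.MP_abd417_co.U.Cy

open Finset Classical

variable {F U Wl A : Type} [Fintype F] [Fintype Wl] [Fintype A]

theorem cycF (ax : Fin 3 → F → U) {w : Wl → ℝ} (S : Wl → Finset F) {wa : A → ℝ}
    (cell : A → F → F) (hw : ∀ l, 0 ≤ w l) (hwa : ∀ a, 0 ≤ wa a)
    (D : Fin 3 → (F → ℝ) → ℝ) {C0 : ℝ} (hC0 : 1 ≤ C0)
    (hD : ∀ p, EntOK (ax (p + 1)) (ax (p + 2)) (D p) C0)
    {μ : F → ℝ} (h : ∀ g, 0 ≤ μ g) {Z c γ Nc : ℝ} (hZ0 : 0 < Z) (hc : 0 < c) (hγ : 0 < γ)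
    (hγ1 : γ ≤ 1) (hN : 1 ≤ Nc) (G : Finset A)
    (hG : ∀ a ∈ G, ∃ p, Fine ax (cell a) μ γ Nc p) (hW : c * Z ≤ ∑ a ∈ G, wa a) :
    ∃ p, CYC (D p) (Psi ax w S wa cell) μ (c * γ / (12 * Nc) * Z) ((γ / 2) ^ 2 / (128 * C0)) := by
  obtain ⟨p, hp⟩ := CF.caseF ax w S wa cell D C0 γ Nc (c * Z) hw hwa hD (by linarith) hγ
    (by linarith) (by positivity) μ h G hG hW
  refine ⟨p, fun Om _ ν hν hs hdrop => ?_⟩
  have e : γ * (c * Z) / (12 * Nc) = c * γ / (12 * Nc) * Z := by ring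
  rw [e] at hp
  obtain ⟨γ', h1, h2⟩ := hp Om ν hν hs hdrop
  refine ⟨γ', h1, le_trans (mul_le_mul_of_nonneg_right ?_ (Finset.sum_nonneg fun g _ => h g)) h2⟩
  have e2 : (γ / 2) ^ 2 / (128 * C0) = γ * (γ / (512 * C0)) := by
    field_simp
    ring
  rw [e2]
  refine mul_le_mul_of_nonneg_left (le_min ?_ ?_) hγ.le
  · rw [div_le_div_iff₀ (by positivity) (by norm_num)]
    linarith
  · exact div_le_div_of_nonneg_left hγ.le (by positivity) (by linarith)

end Pool.Agent.Lib.MP_abd417_co.U.Cy
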