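import Pool.Agent.Lib.MP_abd417_co.U.CycDefs

/-! A weighted family of bounded tests gives a gain; monotonicity of the gain and cycle properties. -/

namespace Pool.Agent.Lib.MP_abd417_co.U.Cy

open Finset Classical
open Pool.Agent.Lib.MP_abd417_co.W (ind ms Sep Cross Near NoCr DT vr)

noncomputable section

variable {F U Wl A Om : Type} [Fintype F] [Fintype Wl] [Fintype A] [Fintype Om]

/-- a weighted family of bounded tests gives a gain. -/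
theorem fam {u v : F → U} {D : (F → ℝ) → ℝ} {C0 : ℝ} (hD : EntOK u v D C0) (hC0 : 1 ≤ C0)
    {T : Type} (G : Finset T) (ω : T → ℝ) (hω : ∀ t ∈ G, 0 ≤ ω t) (X Y : T → U → ℝ)
    (hX : ∀ t ∈ G, ∀ a, |X t a| ≤ 1) (hY : ∀ t ∈ G, ∀ a, |Y t a| ≤ 1)
    {ν : Om → F → ℝ} {μ : F → ℝ} (h : Dec ν μ) {β : ℝ} (hβ : 0 < β) (hβ1 : β ≤ 1)
    (hW : 0 < ∑ t ∈ G, ω t)
    (hV : β * (∑ t ∈ G, ω t) * ∑ g, μ g ≤
      ∑ t ∈ G, ω t * ∑ k, Vn (ν k) (fun g => X t (u g)) (fun g => Y t (v g))) :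
    ∃ γ : Om → ℝ, (∀ k, Gain D (ν k) (γ k)) ∧ β ^ 2 / (128 * C0) * ∑ g, μ g ≤ ∑ k, γ k := by
  have hG : G.Nonempty := by
    rcases G.eq_empty_or_nonempty with rfl | hG
    · simp at hW
    · exact hG
  have hC : 0 < C0 := by linarith
  choose t ht hmax using fun k =>
    G.exists_max_image (fun t => Vn (ν k) (fun g => X t (u g)) (fun g => Y t (v g))) hG
  obtain ⟨e, he0, he2⟩ : ∃ e : ℝ, 0 < e ∧ e ^ 2 = β / (256 * C0) :=
    ⟨Real.sqrt (β / (256 * C0)), Real.sqrt_pos.2 (by positivity), Real.sq_sqrt (by positivity)⟩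
  have he1 : e ≤ 1 / 16 := by
    have h1 : β / (256 * C0) ≤ 1 / 256 := by
      rw [div_le_div_iff₀ (by positivity) (by norm_num)]
      nlinarith
    nlinarith
  have hm : ∑ k, ∑ g, ν k g = ∑ g, μ g := by
    rw [Finset.sum_comm]
    exact Finset.sum_congr rfl fun g _ => h.2 g
  have hm0 : 0 ≤ ∑ g, μ g := by
    rw [← hm]
    exact Finset.sum_nonneg fun k _ => Finset.sum_nonneg fun g _ => h.1 k g
  have hS : β * ∑ g, μ g ≤
      ∑ k, Vn (ν k) (fun g => X (t k) (u g)) (fun g => Y (t k) (v g)) := by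
    have h1 : ∑ s ∈ G, ω s * ∑ k, Vn (ν k) (fun g => X s (u g)) (fun g => Y s (v g)) ≤
        ∑ s ∈ G, ω s * ∑ k, Vn (ν k) (fun g => X (t k) (u g)) (fun g => Y (t k) (v g)) :=
      Finset.sum_le_sum fun s hs => mul_le_mul_of_nonneg_left
        (Finset.sum_le_sum fun k _ => hmax k s hs) (hω s hs)
    rw [← Finset.sum_mul] at h1
    have h2 := hV.trans h1
    refine le_of_mul_le_mul_left ?_ hW
    linarith
  refine ⟨fun k => 4 * e ^ 2 * Vn (ν k) (fun g => X (t k) (u g)) (fun g => Y (t k) (v g))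
      - C0 * e ^ 4 * ∑ g, ν k g,
    fun k => hD.l2 (ν k) (X (t k)) (Y (t k)) e (h.1 k) (hX _ (ht k)) (hY _ (ht k)) he0 he1, ?_⟩
  rw [Finset.sum_sub_distrib, ← Finset.mul_sum, ← Finset.mul_sum, hm]
  have e4 : e ^ 4 = (β / (256 * C0)) ^ 2 := by rw [← he2]; ring
  have h3 : 4 * e ^ 2 * (β * ∑ g, μ g) ≤
      4 * e ^ 2 * ∑ k, Vn (ν k) (fun g => X (t k) (u g)) (fun g => Y (t k) (v g)) :=
    mul_le_mul_of_nonneg_left hS (by positivity)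
  have h4 : β ^ 2 / (128 * C0) ≤ 4 * e ^ 2 * β - C0 * e ^ 4 := by
    rw [e4, he2]
    have a : 4 * (β / (256 * C0)) * β - C0 * (β / (256 * C0)) ^ 2 - β ^ 2 / (128 * C0)
        = 511 / 65536 * (β ^ 2 / C0) := by
      field_simp
      ring
    have b : 0 ≤ β ^ 2 / C0 := by positivity
    linarith
  have h5 := mul_le_mul_of_nonneg_right h4 hm0
  linarith

theorem Gain.mono {D : (F → ℝ) → ℝ} {ν : F → ℝ} {γ γ' : ℝ} (h : Gain D ν γ) (hl : γ' ≤ γ) :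
    Gain D ν γ' := by
  obtain ⟨φ, h1, h2⟩ := h
  exact ⟨φ, h1, by linarith⟩

theorem CYC.mono {D Ps : (F → ℝ) → ℝ} {μ : F → ℝ} {c1 c c1' c' : ℝ} (h : CYC D Ps μ c1 c)
    (hμ : ∀ g, 0 ≤ μ g) (h1 : c1' ≤ c1) (h2 : c' ≤ c) : CYC D Ps μ c1' c' := by
  intro Om _ ν h0 hs hP
  have hm : 0 ≤ ∑ g, μ g := Finset.sum_nonneg fun g _ => hμ g
  obtain ⟨γ, g1, g2⟩ := h Om ν h0 hs
    (by linarith [mul_le_mul_of_nonneg_right h1 hm])
  exact ⟨γ, g1, (mul_le_mul_of_nonneg_right h2 hm).trans g2⟩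

/-- the `test` form of the engine. -/
theorem CYC.test {D Ps : (F → ℝ) → ℝ} {μ : F → ℝ} {c1 c : ℝ} (h : CYC D Ps μ c1 c)
    (Ω : Type) [Fintype Ω] (ν : Ω → F → ℝ) (h0 : ∀ ω g, 0 ≤ ν ω g) (h1 : ∀ g, ∑ ω, ν ω g = μ g)
    (h2 : Ps μ - c1 * ∑ g, μ g ≤ ∑ ω, Ps (ν ω)) :
    ∃ φ : Ω → F → ℝ, (∀ ω g, 0 ≤ φ ω g ∧ φ ω g ≤ 1) ∧
      ∑ ω, (D (fun g => ν ω g * φ ω g) + D (fun g => ν ω g * (1 - φ ω g))) ≤
        ∑ ω, D (ν ω) - c * ∑ g, μ g := by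
  obtain ⟨γ, g1, g2⟩ := h Ω ν h0 h1 h2
  choose φ p1 p2 using g1
  refine ⟨φ, p1, ?_⟩
  have := Finset.sum_le_sum (s := Finset.univ) fun ω _ => p2 ω
  rw [Finset.sum_add_distrib] at this
  linarith

end

end Pool.Agent.Lib.MP_abd417_co.U.Cy
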