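import Pool.Agent.Lib.MP_abd417_co.U.CycDefs

/-! The wall identity. -/

namespace Pool.Agent.Lib.MP_abd417_co.U.Cy

namespace La

open Finset Classical
open Pool.Agent.Lib.MP_abd417_co.W (ind ms Sep Cross Near NoCr DT vr ind_pos ind_neg)

variable {F U : Type} [Fintype F]

theorem zero_of_mass {μ : F → ℝ} (h : ∀ g, 0 ≤ μ g) (h0 : ∑ g, μ g = 0) (g : F) : μ g = 0 :=
  (sum_eq_zero_iff_of_nonneg fun g _ => h g).mp h0 g (mem_univ g)

theorem mean_mul {μ : F → ℝ} (h : ∀ g, 0 ≤ μ g) (f : F → ℝ) :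
    (∑ g, μ g * f g) / (∑ g, μ g) * ∑ g, μ g = ∑ g, μ g * f g := by
  by_cases h0 : ∑ g, μ g = 0
  · simp [zero_of_mass h h0]
  · exact div_mul_cancel₀ _ h0

theorem cv_center (μ : F → ℝ) (f h : F → ℝ) (c d : ℝ)
    (hc : ∑ g, μ g * f g = c * ∑ g, μ g) (hd : ∑ g, μ g * h g = d * ∑ g, μ g) :
    Cv μ f h = ∑ g, μ g * ((f g - c) * (h g - d)) := by
  have e : ∑ g, μ g * ((f g - c) * (h g - d)) = ∑ g, μ g * (f g * h g) - d * ∑ g, μ g * f g
      - c * ∑ g, μ g * h g + c * d * ∑ g, μ g := by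
    simp only [mul_sum, ← sum_sub_distrib, ← sum_add_distrib]
    exact sum_congr rfl fun g _ => by ring
  rw [e, Cv, hc, hd]
  by_cases h0 : ∑ g, μ g = 0
  · simp [h0]
  · field_simp
    ring

theorem vr_eq {μ : F → ℝ} (hμ : ∀ g, 0 ≤ μ g) (f : F → ℝ) :
    Vr μ f = ∑ g, μ g * (f g - (∑ g, μ g * f g) / ∑ g, μ g) ^ 2 := by
  rw [Vr, cv_center μ f f _ _ (mean_mul hμ f).symm (mean_mul hμ f).symm]
  exact sum_congr rfl fun g _ => by ring

omit [Fintype F] in
theorem fib_nonneg (u : F → U) {μ : F → ℝ} (hμ : ∀ g, 0 ≤ μ g) (a : U) (g : F) :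
    0 ≤ fib u μ a g := by
  unfold fib
  split_ifs
  · exact hμ g
  · exact le_rfl

theorem fib_sum (u : F → U) (μ : F → ℝ) (g : F) : ∑ a ∈ univ.image u, fib u μ a g = μ g := by
  simp [fib]

theorem sum_fib (u : F → U) (μ f : F → ℝ) :
    ∑ g, μ g * f g = ∑ a ∈ univ.image u, ∑ g, fib u μ a g * f g := by
  rw [sum_comm]
  exact sum_congr rfl fun g _ => by rw [← sum_mul, fib_sum]

theorem fib_congr (u : F → U) (μ : F → ℝ) (a : U) (f h : F → ℝ)
    (e : ∀ g, u g = a → f g = h g) : ∑ g, fib u μ a g * f g = ∑ g, fib u μ a g * h g := by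
  refine sum_congr rfl fun g _ => ?_
  unfold fib
  split_ifs with t
  · rw [e g t]
  · simp

/-- tower property -/
theorem tower (u : F → U) {μ : F → ℝ} (hμ : ∀ g, 0 ≤ μ g) (f : F → ℝ) (φ : U → ℝ) :
    ∑ g, μ g * (cE u μ f (u g) * φ (u g)) = ∑ g, μ g * (f g * φ (u g)) := by
  rw [sum_fib u, sum_fib u μ fun g => f g * φ (u g)]
  refine sum_congr rfl fun a _ => ?_
  rw [fib_congr u μ a (fun g => cE u μ f (u g) * φ (u g)) (fun _ => cE u μ f a * φ a)
      fun g hg => by rw [hg],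
    fib_congr u μ a (fun g => f g * φ (u g)) (fun g => f g * φ a) fun g hg => by rw [hg]]
  have := mean_mul (fib_nonneg u hμ a) f
  simp only [← mul_assoc, ← sum_mul]
  rw [cE, mul_comm (∑ g, fib u μ a g), this]

omit [Fintype F] in
theorem sg_abs (s : Finset F) (g : F) : |sg s g| ≤ 1 := by
  unfold sg
  split_ifs <;> simp

theorem cE_nocross (ax : Fin 3 → F → U) {μ : F → ℝ} (hμ : ∀ g, 0 ≤ μ g) (s : Finset F) (i : Fin 3)
    (g : F) (hg : μ g ≠ 0) (hc : ¬ Cross ax s i g) :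
    cE (ax i) μ (sg s) (ax i g) = sg s g := by
  have h1 : ∑ x, fib (ax i) μ (ax i g) x * sg s x = ∑ x, fib (ax i) μ (ax i g) x * sg s g := by
    refine fib_congr _ _ _ _ (fun _ => sg s g) fun x hx => ?_
    have : g ∈ s ↔ x ∈ s := by
      by_contra hn
      exact hc ⟨x, hx, hn⟩
    simp only [sg, this]
  have h2 : ∑ x, fib (ax i) μ (ax i g) x ≠ 0 := fun h0 => by
    have := zero_of_mass (fib_nonneg (ax i) hμ (ax i g)) h0 g
    simp only [fib, if_true] at this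
    exact hg this
  rw [cE, h1, ← sum_mul]
  field_simp

theorem near_bound (x y z t : ℝ) (ht : |t| ≤ 2) :
    -24 ≤ x * y + y * z + z * x - (x ^ 2 + y ^ 2 + z ^ 2) / 2 -
      2 * ((x * t - x ^ 2) + (y * t - y ^ 2) + (z * t - z ^ 2)) := by
  have h := abs_le.mp ht
  have h4 : t ^ 2 ≤ 4 := by nlinarith
  nlinarith [sq_nonneg (x + y + z), sq_nonneg (x - t), sq_nonneg (y - t), sq_nonneg (z - t)]

end La

open Finset Classical La
open Pool.Agent.Lib.MP_abd417_co.W (ind ms Sep Cross Near NoCr DT vr ind_pos ind_neg)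

variable {F U : Type} [Fintype F]

theorem wall_id {μ : F → ℝ} (h : ∀ g, 0 ≤ μ g) (ax : Fin 3 → F → U) (s : Finset F) (b : ℝ)
    (hb : 0 ≤ b) (hV : b * ∑ g, μ g ≤ Vr μ (sg s)) :
    3 / 8 * b ^ 2 * ms μ (NoCr ax s) - 24 * ms μ (Near ax s) ≤
      ∑ p : Fin 3, Vn μ (fun g => cE (ax (p + 1)) μ (sg s) (ax (p + 1) g))
        (fun g => cE (ax (p + 2)) μ (sg s) (ax (p + 2) g)) := by
  by_cases h0 : ∑ g, μ g = 0
  · have hz := zero_of_mass h h0
    simp [ms, Vn, Vr, Cv, hz]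
  have hm : 0 < ∑ g, μ g := lt_of_le_of_ne (sum_nonneg fun g _ => h g) (Ne.symm h0)
  set c := (∑ g, μ g * sg s g) / ∑ g, μ g with hc
  have hc1 : ∑ g, μ g * sg s g = c * ∑ g, μ g := (mean_mul h _).symm
  have hsq : ∀ g, sg s g = 1 ∨ sg s g = -1 := fun g => by
    unfold sg
    split_ifs <;> simp
  have hcb : b ≤ 1 - c ^ 2 := by
    have e : ∑ g, μ g * (sg s g * sg s g) = ∑ g, μ g :=
      sum_congr rfl fun g _ => by rcases hsq g with t | t <;> rw [t] <;> ring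
    have e2 : Vr μ (sg s) = (1 - c ^ 2) * ∑ g, μ g := by
      rw [Vr, Cv, e, hc1]
      field_simp
    rw [e2] at hV
    exact le_of_mul_le_mul_right hV hm
  have hc2 : |c| ≤ 1 := abs_le.mpr ⟨by nlinarith, by nlinarith⟩
  have hτ : ∀ g, b ^ 2 / 4 ≤ (sg s g - c) ^ 2 := fun g => by
    have := abs_le.mp hc2
    rcases hsq g with t | t <;> rw [t]
    · have : b / 2 ≤ 1 - c := by nlinarith
      nlinarith
    · have : b / 2 ≤ 1 + c := by nlinarith
      nlinarith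
  set X : Fin 3 → F → ℝ := fun i g => cE (ax i) μ (sg s) (ax i g) with hX
  have hmean : ∀ i, ∑ g, μ g * X i g = c * ∑ g, μ g := fun i => by
    have := tower (ax i) h (sg s) fun _ => 1
    simp only [mul_one] at this
    rw [← hc1, ← this]
  have hproj : ∀ i, ∑ g, μ g * ((X i g - c) * (sg s g - c) - (X i g - c) ^ 2) = 0 := fun i => by
    have t := tower (ax i) h (sg s) fun a => cE (ax i) μ (sg s) a - c
    rw [← sub_eq_zero.mpr t.symm, ← sum_sub_distrib]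
    exact sum_congr rfl fun g _ => by simp only [hX]; ring
  have hcv : ∀ i j, Cv μ (X i) (X j) = ∑ g, μ g * ((X i g - c) * (X j g - c)) := fun i j =>
    cv_center μ _ _ c c (hmean i) (hmean j)
  have hab : ∀ (x : ℝ), |x| ≤ 1 → |x - c| ≤ 2 := fun x hx =>
    (abs_sub x c).trans (by linarith)
  have key : ∑ g, μ g * (3 / 8 * b ^ 2 * ind (NoCr ax s g) - 24 * ind (Near ax s g)) ≤
      ∑ g, μ g * ((X 0 g - c) * (X 1 g - c) + (X 1 g - c) * (X 2 g - c) + (X 2 g - c) * (X 0 g - c)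
        - ((X 0 g - c) ^ 2 + (X 1 g - c) ^ 2 + (X 2 g - c) ^ 2) / 2 -
        2 * (((X 0 g - c) * (sg s g - c) - (X 0 g - c) ^ 2) +
          ((X 1 g - c) * (sg s g - c) - (X 1 g - c) ^ 2) +
          ((X 2 g - c) * (sg s g - c) - (X 2 g - c) ^ 2))) := by
    refine sum_le_sum fun g _ => ?_
    by_cases hg : μ g = 0
    · simp [hg]
    refine mul_le_mul_of_nonneg_left ?_ (h g)
    have hn : ∀ i, ¬ Cross ax s i g → X i g = sg s g := fun i => cE_nocross ax h s i g hg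
    by_cases hN : Near ax s g
    · have hno : ¬ NoCr ax s g := fun t => by
        obtain ⟨i, _, _, hi, _⟩ := hN
        exact t i hi
      rw [ind_pos hN, ind_neg hno]
      have := near_bound (X 0 g - c) (X 1 g - c) (X 2 g - c) _ (hab _ (sg_abs s g))
      linarith
    rw [ind_neg hN]
    by_cases hno : NoCr ax s g
    · rw [ind_pos hno, hn 0 (hno 0), hn 1 (hno 1), hn 2 (hno 2)]
      nlinarith [hτ g]
    rw [ind_neg hno]
    by_cases c0 : Cross ax s 0 g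
    · rw [hn 1 fun t => hN ⟨0, 1, by decide, c0, t⟩, hn 2 fun t => hN ⟨0, 2, by decide, c0, t⟩]
      nlinarith [sq_nonneg (X 0 g - c)]
    by_cases c1 : Cross ax s 1 g
    · rw [hn 0 c0, hn 2 fun t => hN ⟨1, 2, by decide, c1, t⟩]
      nlinarith [sq_nonneg (X 1 g - c)]
    · rw [hn 0 c0, hn 1 c1]
      nlinarith [sq_nonneg (X 2 g - c)]
  have e1 : 3 / 8 * b ^ 2 * ms μ (NoCr ax s) - 24 * ms μ (Near ax s) =
      ∑ g, μ g * (3 / 8 * b ^ 2 * ind (NoCr ax s g) - 24 * ind (Near ax s g)) := by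
    simp only [ms, mul_sum, ← sum_sub_distrib]
    exact sum_congr rfl fun g _ => by ring
  rw [e1]
  refine key.trans_eq ?_
  show _ = ∑ p : Fin 3, Vn μ (X (p + 1)) (X (p + 2))
  have e3 : ∑ p : Fin 3, Vn μ (X (p + 1)) (X (p + 2)) =
      Vn μ (X 1) (X 2) + Vn μ (X 2) (X 0) + Vn μ (X 0) (X 1) := Fin.sum_univ_three _
  rw [e3]
  simp only [Vn, Vr, hcv]
  have p0 := hproj 0
  have p1 := hproj 1
  have p2 := hproj 2
  rw [← sub_eq_zero]
  have : (0 : ℝ) = -2 * (0 + 0 + 0) := by ring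
  rw [this]
  nth_rewrite 1 [← p0]
  nth_rewrite 1 [← p1]
  nth_rewrite 1 [← p2]
  simp only [mul_sum, sum_div, add_div, ← sum_sub_distrib, ← sum_add_distrib]
  exact sum_congr rfl fun g _ => by ring

end Pool.Agent.Lib.MP_abd417_co.U.Cy
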