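import Pool.Agent.Lib.MP_abd417_co.U.CycPsi
import Pool.Agent.Lib.MP_abd417_co.U.CycFam
import Pool.Agent.Lib.MP_abd417_co.U.CycWall

/-! The cycle property from balanced walls. -/

namespace Pool.Agent.Lib.MP_abd417_co.U.Cy

open Finset Classical
open Pool.Agent.Lib.MP_abd417_co.W (ind ms Sep Cross Near NoCr DT vr)

variable {F U Wl A : Type} [Fintype F] [Fintype Wl] [Fintype A]

theorem cycL (ax : Fin 3 → F → U) {w : Wl → ℝ} (S : Wl → Finset F) {wa : A → ℝ}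
    (cell : A → F → F) (hw : ∀ l, 0 ≤ w l) (hwa : ∀ a, 0 ≤ wa a)
    (D : Fin 3 → (F → ℝ) → ℝ) {C0 : ℝ} (hC0 : 1 ≤ C0)
    (hD : ∀ p, EntOK (ax (p + 1)) (ax (p + 2)) (D p) C0)
    {μ : F → ℝ} (h : ∀ g, 0 ≤ μ g) {Z c b θ : ℝ} (hZ0 : 0 < Z) (hc : 0 < c) (hb : 0 < b)
    (hb1 : b ≤ 1) (hθ : 0 < θ) (hθ1 : θ ≤ 1) (G : Finset Wl)
    (hm : 0 < ∑ g, μ g)
    (hG : ∀ l ∈ G, b ≤ vr (nrm μ) (S l) ∧ ms (nrm μ) (Near ax (S l)) ≤ b ^ 2 * θ / 192 ∧
      θ ≤ ms (nrm μ) (NoCr ax (S l)))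
    (hW : c * Z ≤ ∑ l ∈ G, w l) :
    ∃ p, CYC (D p) (Psi ax w S wa cell) μ (c * b ^ 2 * θ / 24 * Z)
      ((b ^ 2 * θ / 24) ^ 2 / (128 * C0)) := by
  set m := ∑ g, μ g with hmdef
  set X : Fin 3 → Wl → U → ℝ := fun i l => cE (ax i) μ (sg (S l)) with hX
  set V : Fin 3 → Wl → ℝ := fun p l =>
    Vn μ (fun g => X (p + 1) l (ax (p + 1) g)) (fun g => X (p + 2) l (ax (p + 2) g)) with hV
  have h1 : ∀ l ∈ G, b ^ 2 * θ / 4 * m ≤ ∑ p, V p l := fun l hl => by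
    obtain ⟨a1, a2, a3⟩ := hG l hl
    rw [ms_nrm, div_le_iff₀ hm] at a2
    rw [ms_nrm, le_div_iff₀ hm] at a3
    have t := wall_id h ax (S l) b hb.le (by
      rw [Vr_sg hm]; exact mul_le_mul_of_nonneg_right a1 hm.le)
    have t2 := mul_le_mul_of_nonneg_left a3 (sq_nonneg b)
    refine le_trans ?_ t
    nlinarith
  have hWp : 0 < ∑ l ∈ G, w l := lt_of_lt_of_le (mul_pos hc hZ0) hW
  obtain ⟨p, -, hp⟩ : ∃ p ∈ (univ : Finset (Fin 3)),
      b ^ 2 * θ / 12 * m * ∑ l ∈ G, w l ≤ ∑ l ∈ G, w l * V p l := by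
    apply exists_le_of_sum_le univ_nonempty
    rw [sum_comm, sum_const, card_univ, Fintype.card_fin, mul_sum, smul_sum]
    refine sum_le_sum fun l hl => ?_
    rw [← mul_sum]
    have := mul_le_mul_of_nonneg_left (h1 l hl) (hw l)
    simp only [nsmul_eq_mul, Nat.cast_ofNat]
    linarith
  refine ⟨p, fun Om _ ν h0 hs hd => ?_⟩
  have hdec : Dec ν μ := ⟨h0, hs⟩
  have hb2 : b ^ 2 * θ ≤ 1 := mul_le_one₀ (pow_le_one₀ hb.le hb1) hθ.le hθ1
  refine fam (hD p) hC0 G w (fun l _ => hw l) (X (p + 1)) (X (p + 2))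
    (fun l _ => cE_abs h _ _ (La.sg_abs _)) (fun l _ => cE_abs h _ _ (La.sg_abs _)) hdec
    (by positivity) (by linarith) hWp ?_
  have h2 : ∀ l, V p l - (PsW ax (S l) μ - ∑ k, PsW ax (S l) (ν k)) ≤
      ∑ k, Vn (ν k) (fun g => X (p + 1) l (ax (p + 1) g))
        (fun g => X (p + 2) l (ax (p + 2) g)) := fun l => by
    refine le_trans ?_ (Vn_persist hdec _ _)
    have e : PsW ax (S l) μ - ∑ k, PsW ax (S l) (ν k) = dr ν μ (sg (S l)) +
        ∑ i, (CV (ax i) μ (sg (S l)) - ∑ k, CV (ax i) (ν k) (sg (S l))) := by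
      simp only [PsW, dr, sum_add_distrib, sum_sub_distrib]
      rw [sum_comm]
      ring
    have hn : ∀ i, 0 ≤ CV (ax i) μ (sg (S l)) - ∑ k, CV (ax i) (ν k) (sg (S l)) := fun i =>
      sub_nonneg.mpr (CV_super hdec _ _)
    have a1 := dr_cE hdec (ax (p + 1)) (sg (S l))
    have a2 := dr_cE hdec (ax (p + 2)) (sg (S l))
    have a3 := single_le_sum (fun i _ => hn i) (mem_univ (p + 1))
    have a4 := single_le_sum (fun i _ => hn i) (mem_univ (p + 2))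
    rw [e]
    simp only [hV, hX]
    linarith
  have h3 := drop_walls hdec ax S cell hw hwa G
  have h4 := sum_le_sum (s := G) fun l _ => mul_le_mul_of_nonneg_left (h2 l) (hw l)
  simp only [mul_sub, sum_sub_distrib] at h3 h4
  have h5 := mul_le_mul_of_nonneg_left hW (show 0 ≤ b ^ 2 * θ / 24 * m by positivity)
  nlinarith

end Pool.Agent.Lib.MP_abd417_co.U.Cy
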