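import Pool.Agent.Lib.MP_abd417_co.U.CycVar

/-! The potential is nonnegative, superadditive and bounded. -/

namespace Pool.Agent.Lib.MP_abd417_co.U.Cy

open Finset Classical
open Pool.Agent.Lib.MP_abd417_co.W (ind ms Sep Cross Near NoCr DT vr)

noncomputable section

variable {F U Wl A Om : Type} [Fintype F] [Fintype Wl] [Fintype A] [Fintype Om]

theorem Vr_super {ν : Om → F → ℝ} {μ : F → ℝ} (h : Dec ν μ) (f : F → ℝ) :
    ∑ k, Vr (ν k) f ≤ Vr μ f := sub_nonneg.1 (dr_nonneg h f)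

theorem PsW_super {ν : Om → F → ℝ} {μ : F → ℝ} (h : Dec ν μ) (ax : Fin 3 → F → U)
    (s : Finset F) : ∑ k, PsW ax s (ν k) ≤ PsW ax s μ := by
  unfold PsW
  rw [sum_add_distrib, sum_comm (s := (univ : Finset Om))]
  exact add_le_add (Vr_super h _) (sum_le_sum fun i _ => CV_super h _ _)

theorem PsC_super {ν : Om → F → ℝ} {μ : F → ℝ} (h : Dec ν μ) (cl : F → F) :
    ∑ k, PsC cl (ν k) ≤ PsC cl μ := by
  unfold PsC
  rw [sum_comm]
  exact sum_le_sum fun c _ => Vr_super h _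

theorem PsW_nonneg {μ : F → ℝ} (h : ∀ g, 0 ≤ μ g) (ax : Fin 3 → F → U) (s : Finset F) :
    0 ≤ PsW ax s μ :=
  add_nonneg (Vr_nonneg h _) (sum_nonneg fun _ _ => CV_nonneg h _ _)

theorem PsC_nonneg {μ : F → ℝ} (h : ∀ g, 0 ≤ μ g) (cl : F → F) : 0 ≤ PsC cl μ :=
  sum_nonneg fun _ _ => Vr_nonneg h _

theorem Psi_nonneg (ax : Fin 3 → F → U) {w : Wl → ℝ} (S : Wl → Finset F) {wa : A → ℝ}
    (cell : A → F → F) (hw : ∀ l, 0 ≤ w l) (hwa : ∀ a, 0 ≤ wa a) {μ : F → ℝ}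
    (h : ∀ g, 0 ≤ μ g) : 0 ≤ Psi ax w S wa cell μ :=
  add_nonneg (sum_nonneg fun l _ => mul_nonneg (hw l) (PsW_nonneg h _ _))
    (sum_nonneg fun a _ => mul_nonneg (hwa a) (PsC_nonneg h _))

/-- the drop of the potential is the weighted sum of the drops of its parts. -/
theorem Psi_drop (ν : Om → F → ℝ) (μ : F → ℝ) (ax : Fin 3 → F → U) (w : Wl → ℝ)
    (S : Wl → Finset F) (wa : A → ℝ) (cell : A → F → F) :
    Psi ax w S wa cell μ - ∑ k, Psi ax w S wa cell (ν k) =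
      ∑ l, w l * (PsW ax (S l) μ - ∑ k, PsW ax (S l) (ν k)) +
        ∑ a, wa a * (PsC (cell a) μ - ∑ k, PsC (cell a) (ν k)) := by
  have e1 : ∑ k, ∑ l, w l * PsW ax (S l) (ν k) = ∑ l, w l * ∑ k, PsW ax (S l) (ν k) := by
    rw [sum_comm]
    exact sum_congr rfl fun l _ => (mul_sum _ _ _).symm
  have e2 : ∑ k, ∑ a, wa a * PsC (cell a) (ν k) = ∑ a, wa a * ∑ k, PsC (cell a) (ν k) := by
    rw [sum_comm]
    exact sum_congr rfl fun l _ => (mul_sum _ _ _).symm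
  unfold Psi
  rw [sum_add_distrib, e1, e2]
  simp only [mul_sub, sum_sub_distrib]
  ring

theorem drop_walls {ν : Om → F → ℝ} {μ : F → ℝ} (h : Dec ν μ) (ax : Fin 3 → F → U) {w : Wl → ℝ}
    (S : Wl → Finset F) {wa : A → ℝ} (cell : A → F → F) (hw : ∀ l, 0 ≤ w l)
    (hwa : ∀ a, 0 ≤ wa a) (G : Finset Wl) :
    ∑ l ∈ G, w l * (PsW ax (S l) μ - ∑ k, PsW ax (S l) (ν k)) ≤
      Psi ax w S wa cell μ - ∑ k, Psi ax w S wa cell (ν k) := by
  rw [Psi_drop]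
  refine le_add_of_le_of_nonneg
    (sum_le_sum_of_subset_of_nonneg (subset_univ G) fun l _ _ => ?_) (sum_nonneg fun a _ => ?_)
  · exact mul_nonneg (hw l) (sub_nonneg.2 (PsW_super h _ _))
  · exact mul_nonneg (hwa a) (sub_nonneg.2 (PsC_super h _))

theorem drop_cells {ν : Om → F → ℝ} {μ : F → ℝ} (h : Dec ν μ) (ax : Fin 3 → F → U) {w : Wl → ℝ}
    (S : Wl → Finset F) {wa : A → ℝ} (cell : A → F → F) (hw : ∀ l, 0 ≤ w l)
    (hwa : ∀ a, 0 ≤ wa a) (G : Finset A) :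
    ∑ a ∈ G, wa a * (PsC (cell a) μ - ∑ k, PsC (cell a) (ν k)) ≤
      Psi ax w S wa cell μ - ∑ k, Psi ax w S wa cell (ν k) := by
  rw [Psi_drop]
  refine le_add_of_nonneg_of_le (sum_nonneg fun l _ => ?_)
    (sum_le_sum_of_subset_of_nonneg (subset_univ G) fun a _ _ => ?_)
  · exact mul_nonneg (hw l) (sub_nonneg.2 (PsW_super h _ _))
  · exact mul_nonneg (hwa a) (sub_nonneg.2 (PsC_super h _))

theorem Psi_super {ν : Om → F → ℝ} {μ : F → ℝ} (h : Dec ν μ) (ax : Fin 3 → F → U) {w : Wl → ℝ}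
    (S : Wl → Finset F) {wa : A → ℝ} (cell : A → F → F) (hw : ∀ l, 0 ≤ w l)
    (hwa : ∀ a, 0 ≤ wa a) :
    ∑ k, Psi ax w S wa cell (ν k) ≤ Psi ax w S wa cell μ := by
  have := drop_walls h ax S cell hw hwa ∅
  rw [sum_empty] at this
  exact sub_nonneg.1 this

theorem Psi_split (ax : Fin 3 → F → U) {w : Wl → ℝ} (S : Wl → Finset F) {wa : A → ℝ}
    (cell : A → F → F) (hw : ∀ l, 0 ≤ w l) (hwa : ∀ a, 0 ≤ wa a) (μ φ : F → ℝ)
    (h : ∀ g, 0 ≤ μ g) (hφ : ∀ g, 0 ≤ φ g ∧ φ g ≤ 1) :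
    Psi ax w S wa cell (fun g => μ g * φ g) + Psi ax w S wa cell (fun g => μ g * (1 - φ g)) ≤
      Psi ax w S wa cell μ := by
  have hd : Dec (Om := Fin 2) ![fun g => μ g * φ g, fun g => μ g * (1 - φ g)] μ := by
    refine ⟨Fin.forall_fin_two.2 ⟨fun g => mul_nonneg (h g) (hφ g).1,
      fun g => mul_nonneg (h g) (sub_nonneg.2 (hφ g).2)⟩, fun g => ?_⟩
    rw [Fin.sum_univ_two]
    show μ g * φ g + μ g * (1 - φ g) = μ g
    ring
  have := Psi_super hd ax S cell hw hwa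
  rw [Fin.sum_univ_two] at this
  exact this

theorem Vr_pair {μ : F → ℝ} (hm : 0 < ∑ g, μ g) (f : F → ℝ) :
    Vr μ f * (2 * ∑ g, μ g) = ∑ g, ∑ x, μ g * μ x * (f g - f x) ^ 2 := by
  have e : ∀ g x, μ g * μ x * (f g - f x) ^ 2 =
      μ g * (f g * f g) * μ x + μ g * (μ x * (f x * f x)) - 2 * (μ g * f g * (μ x * f x)) :=
    fun g x => by ring
  simp only [e, sum_sub_distrib, sum_add_distrib, ← mul_sum, ← sum_mul]
  unfold Vr Cv
  field_simp
  ring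

omit [Fintype F] in
theorem sg_sq (s : Finset F) (g x : F) : (sg s g - sg s x) ^ 2 = 4 * ind (W.Sep s g x) := by
  unfold sg ind W.Sep
  by_cases h1 : g ∈ s <;> by_cases h2 : x ∈ s <;> simp [h1, h2] <;> norm_num

theorem sum_Vr_sg_le {w : Wl → ℝ} (S : Wl → Finset F) (hw : ∀ l, 0 ≤ w l) {Z : ℝ}
    (hZ : ∀ g g', DT w S g g' ≤ Z) {μ : F → ℝ} (h : ∀ g, 0 ≤ μ g) :
    ∑ l, w l * Vr μ (sg (S l)) ≤ 2 * Z * ∑ g, μ g := by
  rcases (sum_nonneg fun g (_ : g ∈ (univ : Finset F)) => h g).eq_or_lt with hm | hm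
  · have h0 : ∀ g, μ g = 0 := fun g =>
      (sum_eq_zero_iff_of_nonneg fun g _ => h g).1 hm.symm g (mem_univ g)
    rw [← hm, mul_zero]
    refine sum_nonpos fun l _ => mul_nonpos_of_nonneg_of_nonpos (hw l) ?_
    refine (Vr_le_sq h _).trans (le_of_eq (sum_eq_zero fun g _ => ?_))
    rw [h0 g, zero_mul]
  · refine le_of_mul_le_mul_right ?_ (mul_pos two_pos hm)
    calc (∑ l, w l * Vr μ (sg (S l))) * (2 * ∑ g, μ g)
        = ∑ l, ∑ g, ∑ x, μ g * μ x * (4 * (w l * ind (W.Sep (S l) g x))) := by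
          rw [sum_mul]
          refine sum_congr rfl fun l _ => ?_
          rw [mul_assoc, Vr_pair hm, mul_sum]
          refine sum_congr rfl fun g _ => ?_
          rw [mul_sum]
          refine sum_congr rfl fun x _ => ?_
          rw [sg_sq]
          ring
      _ = ∑ g, ∑ x, μ g * μ x * (4 * DT w S g x) := by
          rw [sum_comm]
          refine sum_congr rfl fun g _ => ?_
          rw [sum_comm]
          refine sum_congr rfl fun x _ => ?_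
          rw [← mul_sum, ← mul_sum]
          rfl
      _ ≤ ∑ g, ∑ x, μ g * μ x * (4 * Z) :=
          sum_le_sum fun g _ => sum_le_sum fun x _ => mul_le_mul_of_nonneg_left
            (mul_le_mul_of_nonneg_left (hZ g x) (by norm_num)) (mul_nonneg (h g) (h x))
      _ = _ := by
          simp only [← sum_mul, ← mul_sum]
          ring

theorem PsW_le {μ : F → ℝ} (h : ∀ g, 0 ≤ μ g) (ax : Fin 3 → F → U) (s : Finset F) :
    PsW ax s μ ≤ 4 * Vr μ (sg s) := by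
  unfold PsW
  rw [Fin.sum_univ_three]
  linarith [CV_le_Vr h (ax 0) (sg s), CV_le_Vr h (ax 1) (sg s), CV_le_Vr h (ax 2) (sg s)]

theorem PsC_le {μ : F → ℝ} (h : ∀ g, 0 ≤ μ g) (cl : F → F) : PsC cl μ ≤ ∑ g, μ g := by
  refine (sum_le_sum fun c _ => Vr_le_sq h _).trans (le_of_eq ?_)
  rw [sum_comm]
  refine sum_congr rfl fun g _ => ?_
  rw [← mul_sum, sum_eq_single (cl g)]
  · simp
  · intro c _ hc
    rw [if_neg fun e => hc e.symm]
    norm_num
  · intro hc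
    exact absurd (mem_univ _) hc

theorem Psi_le (ax : Fin 3 → F → U) {w : Wl → ℝ} (S : Wl → Finset F) {wa : A → ℝ}
    (cell : A → F → F) (hw : ∀ l, 0 ≤ w l) (hwa : ∀ a, 0 ≤ wa a) {Z : ℝ}
    (hZ : ∀ g g', DT w S g g' ≤ Z) (hA : ∑ a, wa a ≤ Z)
    {μ : F → ℝ} (h : ∀ g, 0 ≤ μ g) : Psi ax w S wa cell μ ≤ 9 * Z * ∑ g, μ g := by
  have hm : 0 ≤ ∑ g, μ g := sum_nonneg fun g _ => h g
  have h1 : ∑ l, w l * PsW ax (S l) μ ≤ 4 * ∑ l, w l * Vr μ (sg (S l)) := by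
    rw [mul_sum]
    refine sum_le_sum fun l _ => ?_
    have := mul_le_mul_of_nonneg_left (PsW_le h ax (S l)) (hw l)
    linarith
  have h2 : ∑ a, wa a * PsC (cell a) μ ≤ Z * ∑ g, μ g := by
    refine (sum_le_sum fun a _ => mul_le_mul_of_nonneg_left (PsC_le h (cell a)) (hwa a)).trans ?_
    rw [← sum_mul]
    exact mul_le_mul_of_nonneg_right hA hm
  have h3 := sum_Vr_sg_le S hw hZ h
  unfold Psi
  linarith

end

end Pool.Agent.Lib.MP_abd417_co.U.Cy
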