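import Mathlib

/-! Greedy union of small sets with bounded weighted overlap. -/

namespace Pool.Agent.Lib.MP_abd417_co.U

open Finset

theorem greedy_union {Ω ι : Type*} [DecidableEq Ω] [DecidableEq ι]
    (ν : Ω → ℝ) (hν : ∀ g, 0 ≤ ν g) (I : Finset ι) (w : ι → ℝ) (hw : ∀ S ∈ I, 0 ≤ w S)
    (C : ι → Finset Ω) (d : ι → ℝ) (b K L m θ : ℝ) (hK0 : 0 ≤ K) (hL0 : 0 ≤ L)
    (hb : ∀ S ∈ I, d S ≤ b) (hCd : ∀ S ∈ I, ∑ g ∈ C S, ν g ≤ d S)
    (hK : ∀ S ∈ I, d S ≤ K * ∑ g ∈ C S, ν g)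
    (hL : ∀ g, ∑ S ∈ I with g ∈ C S, w S ≤ L)
    (hm : m ≤ ∑ S ∈ I, w S * ∑ g ∈ C S, ν g) (hm0 : 0 < m) (hθ0 : 0 < θ) (hθ : 2 * L * θ ≤ m) :
    ∃ J ⊆ I, θ ≤ ∑ S ∈ J, d S ∧ ∑ S ∈ J, d S ≤ θ + b ∧
      ∑ S ∈ J, d S ≤ 2 * K * ∑ g ∈ J.biUnion C, ν g := by
  classical
  let P : Finset (Finset ι) := I.powerset.filter
    (fun J => ∑ S ∈ J, d S < θ ∧ ∑ S ∈ J, d S ≤ 2 * K * ∑ g ∈ J.biUnion C, ν g)
  have hP : P.Nonempty := ⟨∅, by simp [P, hθ0]⟩
  obtain ⟨J, hJ, hmax⟩ := exists_max_image P card hP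
  simp only [P, mem_filter, mem_powerset] at hJ
  obtain ⟨hJI, hJθ, hJK⟩ := hJ
  set U := J.biUnion C with hU
  have hUle : ∑ g ∈ U, ν g ≤ ∑ S ∈ J, d S := by
    have h1 : ∑ g ∈ U, ν g ≤ ∑ S ∈ J, ∑ g ∈ C S, ν g := by
      have : ∀ J' : Finset ι, ∑ g ∈ J'.biUnion C, ν g ≤ ∑ S ∈ J', ∑ g ∈ C S, ν g := by
        intro J'
        induction J' using Finset.induction_on with
        | empty => simp
        | insert a s ha ih =>
          rw [biUnion_insert, sum_insert ha]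
          have h2 := sum_union_inter (s₁ := C a) (s₂ := s.biUnion C) (f := ν)
          have h3 : 0 ≤ ∑ g ∈ C a ∩ s.biUnion C, ν g := sum_nonneg fun g _ => hν g
          linarith
      exact this J
    exact h1.trans (sum_le_sum fun S hS => hCd S (hJI hS))
  have hsum : ∑ S ∈ I, w S * ∑ g ∈ C S ∩ U, ν g ≤ L * ∑ g ∈ U, ν g := by
    have h1 : ∀ S ∈ I, w S * ∑ g ∈ C S ∩ U, ν g
        = ∑ g ∈ U, if g ∈ C S then w S * ν g else 0 := by
      intro S _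
      rw [mul_sum, ← sum_filter]
      refine sum_congr ?_ fun _ _ => rfl
      ext g; simp [and_comm]
    rw [sum_congr rfl h1, sum_comm, mul_sum]
    refine sum_le_sum fun g _ => ?_
    rw [← sum_filter, ← sum_mul]
    exact mul_le_mul_of_nonneg_right (hL g) (hν g)
  have hlt : ∑ S ∈ I, w S * ∑ g ∈ C S ∩ U, ν g < m / 2 := by
    rcases hL0.eq_or_lt with h | h
    · rw [← h] at hsum; linarith
    · have : L * ∑ g ∈ U, ν g < L * θ := mul_lt_mul_of_pos_left (hUle.trans_lt hJθ) h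
      linarith
  have hex : ∃ S ∈ I, ∑ g ∈ C S ∩ U, ν g < (∑ g ∈ C S, ν g) / 2 := by
    by_contra hno
    push Not at hno
    have : ∑ S ∈ I, w S * ((∑ g ∈ C S, ν g) / 2) ≤ ∑ S ∈ I, w S * ∑ g ∈ C S ∩ U, ν g :=
      sum_le_sum fun S hS => mul_le_mul_of_nonneg_left (hno S hS) (hw S hS)
    have h2 : ∑ S ∈ I, w S * ((∑ g ∈ C S, ν g) / 2) = (∑ S ∈ I, w S * ∑ g ∈ C S, ν g) / 2 := by
      rw [sum_div]; exact sum_congr rfl fun _ _ => by ring
    linarith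
  obtain ⟨S, hSI, hS⟩ := hex
  have hC0 : 0 ≤ ∑ g ∈ C S, ν g := sum_nonneg fun g _ => hν g
  have hSJ : S ∉ J := by
    intro h
    have : C S ∩ U = C S := inter_eq_left.2 (subset_biUnion_of_mem C h)
    rw [this] at hS; linarith
  have hY : ∑ T ∈ insert S J, d T = d S + ∑ T ∈ J, d T := sum_insert hSJ
  have hU' : ∑ g ∈ U, ν g + (∑ g ∈ C S, ν g) / 2 ≤ ∑ g ∈ (insert S J).biUnion C, ν g := by
    rw [biUnion_insert]
    have h2 := sum_union_inter (s₁ := C S) (s₂ := U) (f := ν)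
    linarith
  have hK' : ∑ T ∈ insert S J, d T ≤ 2 * K * ∑ g ∈ (insert S J).biUnion C, ν g := by
    have h1 := mul_le_mul_of_nonneg_left hU' (by positivity : 0 ≤ 2 * K)
    have h2 := hK S hSI
    rw [hY]; nlinarith
  have hsub : insert S J ⊆ I := insert_subset hSI hJI
  refine ⟨insert S J, hsub, ?_, ?_, hK'⟩
  · by_contra hc
    have hmem : insert S J ∈ P := by
      simp only [P, mem_filter, mem_powerset]; exact ⟨hsub, not_le.1 hc, hK'⟩
    have := hmax _ hmem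
    rw [card_insert_of_notMem hSJ] at this
    omega
  · have := hb S hSI
    rw [hY]; linarith

end Pool.Agent.Lib.MP_abd417_co.U
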