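import Pool.Agent.Lib.MP_abd417_co.U.CycVar
import Pool.Agent.Lib.MP_abd417_co.U.CycPsi
import Pool.Agent.Lib.MP_abd417_co.U.CycFam
import Pool.Agent.Lib.MP_abd417_co.U.Greedy

/-! The cycle property from many light walls. -/

namespace Pool.Agent.Lib.MP_abd417_co.U.Cy

open Finset Classical
open Pool.Agent.Lib.MP_abd417_co.W (ind ms Sep Cross Near NoCr DT vr ind_pos ind_neg ind_nonneg
  ind_le_one ind_mono)

noncomputable section

variable {F U Wl A Om : Type} [Fintype F] [Fintype Wl] [Fintype A] [Fintype Om]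

/-- frames on the side `P` whose two axes of the pair `p` do not cross. -/
def core (ax : Fin 3 → F → U) (s : Finset F) (P : F → Prop) (p : Fin 3) (g : F) : Prop :=
  P g ∧ ¬ Cross ax s (p + 1) g ∧ ¬ Cross ax s (p + 2) g

theorem S_ms_nonneg {ν : F → ℝ} (h : ∀ g, 0 ≤ ν g) (P : F → Prop) : 0 ≤ ms ν P :=
  sum_nonneg fun g _ => mul_nonneg (h g) (ind_nonneg _)

theorem S_ms_mono {ν : F → ℝ} (h : ∀ g, 0 ≤ ν g) {P Q : F → Prop} (hPQ : ∀ g, P g → Q g) :
    ms ν P ≤ ms ν Q :=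
  sum_le_sum fun g _ => mul_le_mul_of_nonneg_left (ind_mono (hPQ g)) (h g)

theorem S_ms_le {ν : F → ℝ} (h : ∀ g, 0 ≤ ν g) (P : F → Prop) : ms ν P ≤ ∑ g, ν g :=
  sum_le_sum fun g _ => by simpa using mul_le_mul_of_nonneg_left (ind_le_one (P g)) (h g)

theorem S_ms_filter (ν : F → ℝ) (P : F → Prop) : ms ν P = ∑ g ∈ univ.filter P, ν g := by
  rw [sum_filter]
  refine sum_congr rfl fun g _ => ?_
  by_cases hg : P g
  · rw [ind_pos hg, if_pos hg, mul_one]
  · rw [ind_neg hg, if_neg hg, mul_zero]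

theorem S_ms_dec {ν : Om → F → ℝ} {μ : F → ℝ} (h : Dec ν μ) (P : F → Prop) :
    ∑ k, ms (ν k) P = ms μ P := by
  unfold ms
  rw [sum_comm]
  refine sum_congr rfl fun g _ => ?_
  rw [← sum_mul, h.2 g]

omit [Fintype Wl] in
theorem S_ms_union {ν : F → ℝ} (h : ∀ g, 0 ≤ ν g) (J : Finset Wl) (P : Wl → F → Prop)
    (Q : F → Prop) (hQ : ∀ g, Q g → ∃ l ∈ J, P l g) : ms ν Q ≤ ∑ l ∈ J, ms ν (P l) := by
  unfold ms
  rw [sum_comm]
  refine sum_le_sum fun g _ => ?_
  rw [← mul_sum]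
  refine mul_le_mul_of_nonneg_left ?_ (h g)
  by_cases hg : Q g
  · obtain ⟨l, hl, hP⟩ := hQ g hg
    rw [ind_pos hg, ← ind_pos hP]
    exact single_le_sum (f := fun l => ind (P l g)) (fun l _ => ind_nonneg _) hl
  · rw [ind_neg hg]
    exact sum_nonneg fun l _ => ind_nonneg _

theorem core_cover {ν : F → ℝ} (h : ∀ g, 0 ≤ ν g) (ax : Fin 3 → F → U) (s : Finset F)
    (P : F → Prop) :
    ms ν (fun g => P g ∧ ¬ Near ax s g) ≤ ∑ p : Fin 3, ms ν (core ax s P p) := by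
  refine S_ms_union h univ (fun p => core ax s P p) _ fun g hg => ?_
  obtain ⟨hP, hN⟩ := hg
  by_cases h0 : Cross ax s 0 g
  · exact ⟨0, mem_univ _, hP, fun h1 => hN ⟨0, 0 + 1, by decide, h0, h1⟩,
      fun h1 => hN ⟨0, 0 + 2, by decide, h0, h1⟩⟩
  by_cases h1 : Cross ax s 1 g
  · exact ⟨1, mem_univ _, hP, fun h2 => hN ⟨1, 1 + 1, by decide, h1, h2⟩, h0⟩
  · exact ⟨2, mem_univ _, hP, h0, h1⟩

omit [Fintype F] in
theorem Side.same {s : Finset F} {P : F → Prop} (h : Side s P) {g g' : F} (hg : P g) :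
    P g' ↔ ¬ Sep s g g' := by
  unfold W.Sep
  rcases h with h | h
  · rw [h g'] ; rw [h g] at hg; tauto
  · rw [h g'] ; rw [h g] at hg; tauto

theorem log48 : Real.log 48 ≤ 4 := by
  rw [Real.log_le_iff_le_exp (by norm_num)]
  have h1 : (2.7 : ℝ) ≤ Real.exp 1 := le_trans (by norm_num) Real.exp_one_gt_d9.le
  have h2 : Real.exp 4 = Real.exp 1 ^ 4 := by
    rw [← Real.exp_nat_mul]; norm_num
  rw [h2]
  exact le_trans (by norm_num) (pow_le_pow_left₀ (by norm_num) h1 4)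

/-- pointwise overlap of light sides. -/
theorem overlap {w : Wl → ℝ} (S : Wl → Finset F) (hw : ∀ l, 0 ≤ w l) {ν : F → ℝ}
    (h : ∀ g, 0 ≤ ν g) (hm : 0 < ∑ g, ν g) {Z : ℝ} (hZ : ∀ g g', DT w S g g' ≤ Z)
    (I : Finset Wl) (P : Wl → F → Prop) (g : F)
    (hI : ∀ l ∈ I, Side (S l) (P l) ∧ P l g ∧ ms ν (P l) ≤ (∑ g, ν g) / 2) :
    ∑ l ∈ I, w l ≤ 2 * Z := by
  have h1 : ∑ g', ν g' * DT w S g g' ≤ Z * ∑ g', ν g' := by
    rw [mul_sum]
    exact sum_le_sum fun g' _ => by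
      rw [mul_comm Z]; exact mul_le_mul_of_nonneg_left (hZ g g') (h g')
  have h2 : ∑ g', ν g' * DT w S g g' = ∑ l, w l * ms ν (fun g' => Sep (S l) g g') := by
    unfold DT ms
    simp only [mul_sum]
    rw [sum_comm]
    exact sum_congr rfl fun l _ => sum_congr rfl fun g' _ => by ring
  have h3 : ∀ l ∈ I, w l * ((∑ g, ν g) / 2) ≤ w l * ms ν (fun g' => Sep (S l) g g') := by
    intro l hl
    obtain ⟨hs, hP, hle⟩ := hI l hl
    refine mul_le_mul_of_nonneg_left ?_ (hw l)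
    have : ms ν (P l) + ms ν (fun g' => Sep (S l) g g') = ∑ g, ν g := by
      unfold ms
      rw [← sum_add_distrib]
      refine sum_congr rfl fun g' _ => ?_
      by_cases hx : Sep (S l) g g'
      · rw [ind_pos hx, ind_neg fun hh => (hs.same hP).1 hh hx]; ring
      · rw [ind_neg hx, ind_pos ((hs.same hP).2 hx)]; ring
    linarith
  have h4 : ∑ l ∈ I, w l * ms ν (fun g' => Sep (S l) g g') ≤
      ∑ l, w l * ms ν (fun g' => Sep (S l) g g') :=
    sum_le_sum_of_subset_of_nonneg (subset_univ _) fun l _ _ =>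
      mul_nonneg (hw l) (S_ms_nonneg h _)
  have h5 := (sum_le_sum h3).trans h4
  rw [← sum_mul] at h5
  nlinarith

/-- the gain in one part. -/
theorem branchS (ax : Fin 3 → F → U) {w : Wl → ℝ} (S : Wl → Finset F) (hw : ∀ l, 0 ≤ w l)
    (p : Fin 3) {D : (F → ℝ) → ℝ} {C0 : ℝ} (hC0 : 1 ≤ C0)
    (hD : EntOK (ax (p + 1)) (ax (p + 2)) D C0) {ν : F → ℝ} (h : ∀ g, 0 ≤ ν g) {Z b : ℝ}
    (hZ0 : 0 < Z) (hb : 0 < b) (hb1 : b ≤ Real.exp (-(3 * C0 + 15)) / 4)
    (hZ : ∀ g g', DT w S g g' ≤ Z) (I : Finset Wl) (P : Wl → F → Prop)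
    (hI : ∀ l ∈ I, Side (S l) (P l) ∧ ms ν (P l) ≤ 2 * b * ∑ g, ν g ∧
      ms ν (P l) ≤ 24 * ms ν (core ax (S l) (P l) p)) :
    Gain D ν (b * (∑ l ∈ I, w l * ms ν (core ax (S l) (P l) p)) / (48 * Z)) := by
  set B := ∑ l ∈ I, w l * ms ν (core ax (S l) (P l) p) with hB
  set m := ∑ g, ν g with hmd
  have hb4 : b ≤ 1 / 4 := by
    have : Real.exp (-(3 * C0 + 15)) ≤ 1 := Real.exp_le_one_iff.2 (by linarith)
    linarith
  have hB0 : 0 ≤ B := sum_nonneg fun l _ => mul_nonneg (hw l) (S_ms_nonneg h _)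
  rcases hB0.eq_or_lt with hB0 | hB0
  · rw [← hB0]; simpa using hD.zero ν h
  have hm0 : 0 ≤ m := sum_nonneg fun g _ => h g
  have hm : 0 < m := by
    rcases hm0.eq_or_lt with hm | hm
    · exfalso
      have : B ≤ 0 := sum_nonpos fun l _ =>
        mul_nonpos_of_nonneg_of_nonpos (hw l) ((S_ms_le h _).trans hm.symm.le)
      linarith
    · exact hm
  let C : Wl → Finset F := fun l => univ.filter (core ax (S l) (P l) p)
  have hC : ∀ l, ∑ g ∈ C l, ν g = ms ν (core ax (S l) (P l) p) := fun l => (S_ms_filter _ _).symm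
  have hL : ∀ g, ∑ l ∈ I with g ∈ C l, w l ≤ 2 * Z := by
    intro g
    refine overlap S hw h hm hZ _ P g fun l hl => ?_
    rw [mem_filter] at hl
    obtain ⟨h1, h2, _⟩ := hI l hl.1
    refine ⟨h1, (mem_filter.1 hl.2).2.1, ?_⟩
    nlinarith
  have hBm : B ≤ 2 * Z * m := by
    have : B = ∑ g, ν g * ∑ l ∈ I with g ∈ C l, w l := by
      rw [hB]
      unfold ms
      simp only [mul_sum, sum_filter]
      rw [sum_comm]
      refine sum_congr rfl fun g _ => sum_congr rfl fun l _ => ?_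
      by_cases hg : core ax (S l) (P l) p g
      · rw [ind_pos hg, if_pos (mem_filter.2 ⟨mem_univ _, hg⟩)]; ring
      · rw [ind_neg hg, if_neg fun hh => hg (mem_filter.1 hh).2]; ring
    rw [this, hmd, mul_sum]
    exact sum_le_sum fun g _ => by
      rw [mul_comm (2 * Z)]; exact mul_le_mul_of_nonneg_left (hL g) (h g)
  have hθ0 : 0 < b * B / Z := by positivity
  obtain ⟨J, hJ, hy1, hy2, hy3⟩ := greedy_union ν h I w (fun l _ => hw l) C (fun l => ms ν (P l))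
    (2 * b * m) 24 (2 * Z) B (b * B / Z) (by norm_num) (by linarith) (fun l hl => (hI l hl).2.1)
    (fun l _ => by rw [hC]; exact S_ms_mono h fun g hg => hg.1)
    (fun l hl => by rw [hC]; exact (hI l hl).2.2) hL
    (le_of_eq (sum_congr rfl fun l _ => by rw [hC])) hB0 hθ0
    (by
      have : 2 * (2 * Z) * (b * B / Z) = 4 * b * B := by field_simp; ring
      rw [this]; nlinarith)
  set y := ∑ l ∈ J, ms ν (P l) with hy
  have hθm : b * B / Z ≤ 2 * b * m := by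
    rw [div_le_iff₀ hZ0]; nlinarith
  have hy0 : 0 < y := hθ0.trans_le hy1
  have hy4 : y ≤ 4 * b * m := by linarith
  let P' : U → Prop := fun a => ∃ l ∈ J, ∀ g, ax (p + 1) g = a → P l g
  let Q' : U → Prop := fun a => ∃ l ∈ J, ∀ g, ax (p + 2) g = a → P l g
  have hβ : ∑ g ∈ J.biUnion C, ν g ≤ ms ν (fun g => P' (ax (p + 1) g) ∧ Q' (ax (p + 2) g)) := by
    rw [S_ms_filter]
    refine sum_le_sum_of_subset_of_nonneg (fun g hg => ?_) fun g _ _ => h g
    obtain ⟨l, hl, hgl⟩ := mem_biUnion.1 hg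
    obtain ⟨h1, h2, h3⟩ := (mem_filter.1 hgl).2
    have hs := (hI l (hJ hl)).1
    simp only [mem_filter, mem_univ, true_and]
    refine ⟨⟨l, hl, fun g' hg' => ?_⟩, ⟨l, hl, fun g' hg' => ?_⟩⟩
    · exact (hs.same h1).2 fun hx => h2 ⟨g', hg', hx⟩
    · exact (hs.same h1).2 fun hx => h3 ⟨g', hg', hx⟩
  set β := ms ν (fun g => P' (ax (p + 1) g) ∧ Q' (ax (p + 2) g)) with hβd
  have hβy : y ≤ 48 * β := by linarith
  have hβ0 : 0 < β := by linarith
  have hg := hD.small ν P' Q' y h hβ0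
    (S_ms_union h J P _ fun g ⟨l, hl, hP⟩ => ⟨l, hl, hP g rfl⟩)
    (S_ms_union h J P _ fun g ⟨l, hl, hP⟩ => ⟨l, hl, hP g rfl⟩) (by nlinarith)
  refine hg.mono ?_
  have l1 : Real.log (m / β) ≤ Real.log 48 + Real.log (m / y) := by
    rw [← Real.log_mul (by norm_num) (by positivity)]
    refine Real.log_le_log (by positivity) ?_
    rw [← mul_div_assoc, div_le_div_iff₀ hβ0 hy0]
    nlinarith
  have l2 : 3 * C0 + 15 ≤ Real.log (m / y) := by
    rw [Real.le_log_iff_exp_le (by positivity), le_div_iff₀ hy0]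
    have e1 : Real.exp (3 * C0 + 15) * Real.exp (-(3 * C0 + 15)) = 1 := by
      rw [← Real.exp_add]; simp
    have e2 : 0 < Real.exp (3 * C0 + 15) := Real.exp_pos _
    have e3 : Real.exp (3 * C0 + 15) * (4 * b) ≤ 1 := by nlinarith
    calc Real.exp (3 * C0 + 15) * y ≤ Real.exp (3 * C0 + 15) * (4 * b * m) :=
          mul_le_mul_of_nonneg_left hy4 e2.le
      _ = Real.exp (3 * C0 + 15) * (4 * b) * m := by ring
      _ ≤ 1 * m := mul_le_mul_of_nonneg_right e3 hm0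
      _ = m := one_mul m
  have l3 : 1 ≤ 4 / 3 * Real.log (m / y) - Real.log (m / β) - C0 := by
    have := log48
    linarith
  have l4 : b * B / (48 * Z) = b * B / Z / 48 := by field_simp
  rw [l4]
  nlinarith

theorem cycS (ax : Fin 3 → F → U) {w : Wl → ℝ} (S : Wl → Finset F) {wa : A → ℝ}
    (cell : A → F → F) (hw : ∀ l, 0 ≤ w l) (hwa : ∀ a, 0 ≤ wa a)
    (D : Fin 3 → (F → ℝ) → ℝ) {C0 : ℝ} (hC0 : 1 ≤ C0)
    (hD : ∀ p, EntOK (ax (p + 1)) (ax (p + 2)) (D p) C0)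
    {μ : F → ℝ} (h : ∀ g, 0 ≤ μ g) {Z c b : ℝ} (hZ0 : 0 < Z) (_hc : 0 < c) (hb : 0 < b)
    (hb1 : b ≤ Real.exp (-(3 * C0 + 15)) / 4)
    (hZ : ∀ g g', DT w S g g' ≤ Z)
    (hm : 0 < ∑ g, μ g) (G : Finset Wl) (P : Wl → F → Prop)
    (hG : ∀ l ∈ G, Side (S l) (P l) ∧ ms (nrm μ) (P l) ≤ b ∧
      ms (nrm μ) (P l) ≤ 2 * ms (nrm μ) (fun g => P l g ∧ ¬ Near ax (S l) g))
    (hW : c * Z ≤ ∑ l ∈ G, w l * ms (nrm μ) (P l)) :
    ∃ p, CYC (D p) (Psi ax w S wa cell) μ (b * c / 12 * Z) (b * c / 576) := by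
  set m := ∑ g, μ g with hmd
  set T := ∑ l ∈ G, w l * ms μ (P l) with hT
  have hTc : c * Z * m ≤ T := by
    have : ∑ l ∈ G, w l * ms (nrm μ) (P l) = T / m := by
      rw [hT, sum_div]
      exact sum_congr rfl fun l _ => by rw [ms_nrm, mul_div_assoc]
    rw [this, le_div_iff₀ hm] at hW
    exact hW
  have hT2 : T ≤ ∑ p : Fin 3, 2 * ∑ l ∈ G, w l * ms μ (core ax (S l) (P l) p) := by
    rw [← mul_sum, sum_comm, mul_sum]
    refine sum_le_sum fun l hl => ?_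
    have h1 := (hG l hl).2.2
    rw [ms_nrm, ms_nrm, ← mul_div_assoc, div_le_div_iff_of_pos_right hm] at h1
    have h2 := core_cover h ax (S l) (P l)
    rw [← mul_sum]
    nlinarith [hw l]
  obtain ⟨p, hp⟩ : ∃ p : Fin 3, T / 6 ≤ ∑ l ∈ G, w l * ms μ (core ax (S l) (P l) p) := by
    by_contra hno
    push Not at hno
    rw [Fin.sum_univ_three] at hT2
    have := hno 0; have := hno 1; have := hno 2
    linarith
  refine ⟨p, fun Om _ ν h0 h1 h2 => ?_⟩
  have hd : Dec ν μ := ⟨h0, h1⟩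
  let I : Om → Finset Wl := fun k => G.filter fun l =>
    ms (ν k) (P l) ≤ 2 * b * ∑ g, ν k g ∧ ms (ν k) (P l) ≤ 24 * ms (ν k) (core ax (S l) (P l) p)
  refine ⟨fun k => b * (∑ l ∈ I k, w l * ms (ν k) (core ax (S l) (P l) p)) / (48 * Z),
    fun k => branchS ax S hw p hC0 (hD p) (h0 k) hZ0 hb hb1 hZ (I k) P fun l hl =>
      ⟨(hG l (mem_filter.1 hl).1).1, (mem_filter.1 hl).2⟩, ?_⟩
  let hv : Om → Wl → ℝ := fun k l =>
    if 2 * b * ∑ g, ν k g < ms (ν k) (P l) then ms (ν k) (P l) else 0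
  have k1 : ∀ k, ∑ l ∈ G, w l * (ms (ν k) (core ax (S l) (P l) p) - hv k l - ms (ν k) (P l) / 24) ≤
      ∑ l ∈ I k, w l * ms (ν k) (core ax (S l) (P l) p) := by
    intro k
    rw [sum_filter]
    refine sum_le_sum fun l _ => ?_
    have a1 := S_ms_nonneg (h0 k) (P l)
    have a2 : ms (ν k) (core ax (S l) (P l) p) ≤ ms (ν k) (P l) :=
      S_ms_mono (h0 k) fun g hg => hg.1
    have a3 : 0 ≤ hv k l := by
      simp only [hv]; split_ifs <;> linarith
    split_ifs with hx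
    · exact mul_le_mul_of_nonneg_left (by linarith) (hw l)
    · refine mul_nonpos_of_nonneg_of_nonpos (hw l) ?_
      rcases not_and_or.1 hx with hx | hx
      · have : hv k l = ms (ν k) (P l) := if_pos (not_le.1 hx)
        linarith
      · have := not_le.1 hx
        linarith
  have k2 : ∑ l ∈ G, w l * ∑ k, hv k l ≤ c * Z * m / 24 := by
    have a1 : ∀ l ∈ G, w l * ∑ k, hv k l ≤
        w l * (PsW ax (S l) μ - ∑ k, PsW ax (S l) (ν k)) / (2 * b) := by
      intro l hl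
      rw [mul_div_assoc]
      refine mul_le_mul_of_nonneg_left ?_ (hw l)
      have b1 := (hG l hl).2.1
      rw [ms_nrm, div_le_iff₀ hm] at b1
      refine (heavy hd (S l) (P l) (hG l hl).1 b hb b1).trans ?_
      refine div_le_div_of_nonneg_right ?_ (by linarith)
      unfold PsW dr
      rw [sum_add_distrib, sum_comm]
      have := sum_le_sum fun i (_ : i ∈ (univ : Finset (Fin 3))) => CV_super hd (ax i) (sg (S l))
      linarith
    refine (sum_le_sum a1).trans ?_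
    rw [← sum_div, div_le_iff₀ (by linarith)]
    have := drop_walls hd ax S cell hw hwa G
    nlinarith
  have k3 : c * Z * m / 12 ≤ ∑ k, ∑ l ∈ I k, w l * ms (ν k) (core ax (S l) (P l) p) := by
    refine le_trans ?_ (sum_le_sum fun k _ => k1 k)
    rw [sum_comm]
    have : ∀ l ∈ G, ∑ k, w l * (ms (ν k) (core ax (S l) (P l) p) - hv k l - ms (ν k) (P l) / 24) =
        w l * ms μ (core ax (S l) (P l) p) - w l * ∑ k, hv k l - w l * ms μ (P l) / 24 := by
      intro l _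
      rw [← mul_sum, sum_sub_distrib, sum_sub_distrib, ← sum_div, S_ms_dec hd, S_ms_dec hd]
      ring
    rw [sum_congr rfl this, sum_sub_distrib, sum_sub_distrib, ← sum_div]
    linarith
  rw [← sum_div, ← mul_sum, le_div_iff₀ (by linarith)]
  nlinarith

end

end Pool.Agent.Lib.MP_abd417_co.U.Cy
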