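import Pool.Agent.Lib.MP_abd417_co.U.CycDefs
import Pool.Agent.Lib.MP_abd417_co.Up.Var

/-! Variance, conditional variance and their drops along a decomposition. -/

namespace Pool.Agent.Lib.MP_abd417_co.U.Cy

open Finset Classical
open Pool.Agent.Lib.MP_abd417_co.W (ind ms Sep Cross Near NoCr DT vr)
open Pool.Agent.Lib.MP_abd417_co.Up

noncomputable section

variable {F U Wl A Om : Type} [Fintype F] [Fintype Wl] [Fintype A] [Fintype Om]

theorem Vr_nonneg {μ : F → ℝ} (h : ∀ g, 0 ≤ μ g) (f : F → ℝ) : 0 ≤ Vr μ f := Var.Vr_nonneg h f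

theorem Vr_le {μ : F → ℝ} (h : ∀ g, 0 ≤ μ g) (f : F → ℝ) (c : ℝ) :
    Vr μ f ≤ ∑ g, μ g * (f g - c) ^ 2 := Var.Vr_le h f c

theorem Vr_eq {μ : F → ℝ} (h : ∀ g, 0 ≤ μ g) (f : F → ℝ) :
    Vr μ f = ∑ g, μ g * (f g - (∑ x, μ x * f x) / ∑ x, μ x) ^ 2 := Var.Vr_eq h f

theorem Vn_eq (μ X Y : F → ℝ) :
    Vn μ X Y = (Vr μ X + Vr μ Y) / 4 - Vr μ (fun g => X g - Y g) / 2 := Var.Vn_eq μ X Y

theorem Vr_le_sq {μ : F → ℝ} (h : ∀ g, 0 ≤ μ g) (f : F → ℝ) :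
    Vr μ f ≤ ∑ g, μ g * f g ^ 2 := by
  simpa using Vr_le h f 0

theorem dr_nonneg {ν : Om → F → ℝ} {μ : F → ℝ} (h : Dec ν μ) (f : F → ℝ) : 0 ≤ dr ν μ f :=
  Var.Dr_nonneg h.1 h.2 f

theorem dr_le_sq {ν : Om → F → ℝ} {μ : F → ℝ} (h : Dec ν μ) (f : F → ℝ) :
    dr ν μ f ≤ ∑ g, μ g * f g ^ 2 := by
  have h1 := Var.Dr_le h.1 h.2 f 0
  simp only [sub_zero] at h1
  exact h1.trans (Var.Q_le_ex_sq h.1 h.2 f)

theorem dr_sub {ν : Om → F → ℝ} {μ : F → ℝ} (h : Dec ν μ) (f f' : F → ℝ) :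
    dr ν μ f ≤ 2 * dr ν μ f' + 2 * dr ν μ (fun g => f g - f' g) := by
  have h1 := Var.Dr_le h.1 h.2 f (Var.mn μ f' + Var.mn μ fun g => f g - f' g)
  have h2 := Var.Dr_eq h.1 h.2 f'
  have h3 := Var.Dr_eq h.1 h.2 fun g => f g - f' g
  have h4 := Var.Q_sub_le h.1 (fun g => f' g - Var.mn μ f')
    fun g => -1 * (f g - f' g - Var.mn μ fun g => f g - f' g)
  have h5 : ∀ φ : F → ℝ, Var.Q ν (fun g => -1 * φ g) = Var.Q ν φ := fun φ => by
    simp only [Var.Q, Var.ex_smul]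
    exact sum_congr rfl fun k _ => by ring
  rw [h5] at h4
  have e : (fun g => f g - (Var.mn μ f' + Var.mn μ fun g => f g - f' g)) = fun g =>
      (f' g - Var.mn μ f') - -1 * (f g - f' g - Var.mn μ fun g => f g - f' g) :=
    funext fun g => by ring
  rw [e] at h1
  change Var.Dr μ ν f ≤ 2 * Var.Dr μ ν f' + 2 * Var.Dr μ ν (fun g => f g - f' g)
  linarith

theorem dr_cells {ν : Om → F → ℝ} {μ : F → ℝ} (h : Dec ν μ) (cl : F → F) (C : Finset F)
    (x : F → ℝ) (hx : ∀ c, |x c| ≤ 1) :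
    dr ν μ (fun g => if cl g ∈ C then x (cl g) else 0) ≤
      C.card * (PsC cl μ - ∑ k, PsC cl (ν k)) := by
  have e1 : PsC cl μ - ∑ k, PsC cl (ν k) =
      ∑ c, Var.Dr μ ν (fun g => if cl g = c then 1 else 0) := by
    simp only [PsC, Var.Dr, sum_sub_distrib]
    rw [sum_comm]
    rfl
  have h1 := Var.Dr_le h.1 h.2 (fun g => if cl g ∈ C then x (cl g) else 0)
    (∑ c ∈ C, x c * Var.mn μ (fun g => if cl g = c then 1 else 0))
  refine h1.trans ?_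
  rw [e1]
  refine le_trans ?_ (mul_le_mul_of_nonneg_left (sum_le_sum_of_subset_of_nonneg (subset_univ C)
    fun c _ _ => Var.Dr_nonneg h.1 h.2 _) (Nat.cast_nonneg _))
  simp only [Var.Dr_eq h.1 h.2, Var.Q]
  rw [sum_comm, mul_sum]
  refine sum_le_sum fun k _ => ?_
  rw [← sum_div, ← mul_div_assoc]
  refine div_le_div_of_nonneg_right ?_ (sum_nonneg fun g _ => h.1 k g)
  have e2 : Var.ex (ν k) (fun g => (if cl g ∈ C then x (cl g) else 0) -
      ∑ c ∈ C, x c * Var.mn μ (fun g => if cl g = c then 1 else 0)) =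
      ∑ c ∈ C, x c * Var.ex (ν k) (fun g => (if cl g = c then 1 else 0) -
        Var.mn μ (fun g => if cl g = c then 1 else 0)) := by
    simp only [Var.ex, mul_sum]
    rw [sum_comm]
    refine sum_congr rfl fun g _ => ?_
    have e3 : (if cl g ∈ C then x (cl g) else 0) =
        ∑ c ∈ C, x c * (if cl g = c then 1 else 0) := by simp
    rw [e3, ← sum_sub_distrib, mul_sum]
    exact sum_congr rfl fun c _ => by ring
  rw [e2]
  refine (sum_mul_sq_le_sq_mul_sq C _ _).trans (mul_le_mul_of_nonneg_right ?_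
    (sum_nonneg fun c _ => sq_nonneg _))
  calc ∑ c ∈ C, x c ^ 2 ≤ ∑ c ∈ C, (1 : ℝ) :=
        sum_le_sum fun c _ => (sq_le_one_iff_abs_le_one _).mpr (hx c)
    _ = C.card := by simp

theorem Vn_persist {ν : Om → F → ℝ} {μ : F → ℝ} (h : Dec ν μ) (f f' : F → ℝ) :
    Vn μ f f' - (dr ν μ f + dr ν μ f') / 4 ≤ ∑ k, Vn (ν k) f f' := Var.Vn_persist h.1 h.2 f f'

omit [Fintype F] in
theorem fib_nonneg {μ : F → ℝ} (h : ∀ g, 0 ≤ μ g) (u : F → U) (a : U) (g : F) :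
    0 ≤ fib u μ a g := by
  unfold fib
  split_ifs
  · exact h g
  · exact le_rfl

theorem sum_fib (u : F → U) (μ : F → ℝ) (Φ : U → F → ℝ) :
    ∑ a ∈ univ.image u, ∑ g, fib u μ a g * Φ a g = ∑ g, μ g * Φ (u g) g := by
  simp only [fib]
  rw [sum_comm]
  exact sum_congr rfl fun g _ => by simp

theorem CV_nonneg {μ : F → ℝ} (h : ∀ g, 0 ≤ μ g) (u : F → U) (f : F → ℝ) : 0 ≤ CV u μ f :=
  sum_nonneg fun a _ => Vr_nonneg (fib_nonneg h u a) f

theorem CV_le {μ : F → ℝ} (h : ∀ g, 0 ≤ μ g) (u : F → U) (f : F → ℝ) (Y : U → ℝ) :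
    CV u μ f ≤ ∑ g, μ g * (f g - Y (u g)) ^ 2 := by
  rw [← sum_fib u μ fun a g => (f g - Y a) ^ 2]
  exact sum_le_sum fun a _ => Vr_le (fib_nonneg h u a) f (Y a)

theorem CV_eq {μ : F → ℝ} (h : ∀ g, 0 ≤ μ g) (u : F → U) (f : F → ℝ) :
    CV u μ f = ∑ g, μ g * (f g - cE u μ f (u g)) ^ 2 := by
  rw [← sum_fib u μ fun a g => (f g - cE u μ f a) ^ 2]
  exact sum_congr rfl fun a _ => Vr_eq (fib_nonneg h u a) f

theorem CV_le_Vr_sub {μ : F → ℝ} (h : ∀ g, 0 ≤ μ g) (u : F → U) (f : F → ℝ) (Y : U → ℝ) :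
    CV u μ f ≤ Vr μ (fun g => f g - Y (u g)) := by
  rw [Vr_eq h]
  refine (CV_le h u f fun a => Y a + (∑ x, μ x * (f x - Y (u x))) / ∑ x, μ x).trans (le_of_eq ?_)
  exact sum_congr rfl fun g _ => by ring

theorem CV_le_Vr {μ : F → ℝ} (h : ∀ g, 0 ≤ μ g) (u : F → U) (f : F → ℝ) :
    CV u μ f ≤ Vr μ f := by
  simpa using CV_le_Vr_sub h u f fun _ => 0

theorem Q_res_le {ν : Om → F → ℝ} {μ : F → ℝ} (h : Dec ν μ) (u : F → U) (f : F → ℝ) :
    Var.Q ν (fun g => f g - cE u μ f (u g)) ≤ CV u μ f - ∑ k, CV u (ν k) f := by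
  have h1 := Var.sum_Vr h.1 h.2 (fun g => f g - cE u μ f (u g)) 0
  simp only [sub_zero] at h1
  have h2 : ∑ k, CV u (ν k) f ≤ ∑ k, Var.Vr (ν k) fun g => f g - cE u μ f (u g) :=
    sum_le_sum fun k _ => CV_le_Vr_sub (h.1 k) u f _
  rw [CV_eq (Var.nonneg_of_fam h.1 h.2)]
  unfold Var.ex at h1
  linarith

theorem CV_super {ν : Om → F → ℝ} {μ : F → ℝ} (h : Dec ν μ) (u : F → U) (f : F → ℝ) :
    ∑ k, CV u (ν k) f ≤ CV u μ f :=
  sub_nonneg.mp ((Var.Q_nonneg h.1 _).trans (Q_res_le h u f))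

theorem dr_cE {ν : Om → F → ℝ} {μ : F → ℝ} (h : Dec ν μ) (u : F → U) (f : F → ℝ) :
    dr ν μ (fun g => cE u μ f (u g)) ≤
      2 * dr ν μ f + 2 * (CV u μ f - ∑ k, CV u (ν k) f) := by
  have h1 := Var.Dr_le_approx h.1 h.2 (fun g => cE u μ f (u g)) f
  have h2 := Q_res_le h u f
  change Var.Dr μ ν (fun g => cE u μ f (u g)) ≤ 2 * Var.Dr μ ν f + _
  linarith

theorem cE_abs {μ : F → ℝ} (h : ∀ g, 0 ≤ μ g) (u : F → U) (f : F → ℝ) (hf : ∀ g, |f g| ≤ 1)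
    (a : U) : |cE u μ f a| ≤ 1 := by
  have h0 := fib_nonneg h u a
  rcases (sum_nonneg fun g _ => h0 g : 0 ≤ ∑ g, fib u μ a g).lt_or_eq with h3 | h3
  · have h1 := Var.ex_mono h0 (f := f) (h := fun _ => 1) fun g _ => (abs_le.mp (hf g)).2
    have h2 := Var.ex_mono h0 (f := fun _ => -1) (h := f) fun g _ => (abs_le.mp (hf g)).1
    rw [Var.ex_const] at h1 h2
    rw [cE, abs_le, le_div_iff₀ h3, div_le_iff₀ h3]
    exact ⟨h2, h1⟩
  · rw [cE, ← h3, div_zero, abs_zero]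
    exact zero_le_one

/-- the residual is orthogonal to the functions of the axis. -/
theorem res_orth {μ : F → ℝ} (h : ∀ g, 0 ≤ μ g) (u : F → U) (f : F → ℝ) (Y : U → ℝ) :
    ∑ g, μ g * (Y (u g) * (f g - cE u μ f (u g))) = 0 := by
  rw [← sum_fib u μ fun a g => Y a * (f g - cE u μ f a)]
  refine sum_eq_zero fun a _ => ?_
  have e := Var.mn_mul (fib_nonneg h u a) f
  change Var.ex (fib u μ a) (fun g => Y a * (f g - Var.mn (fib u μ a) f)) = 0
  rw [Var.ex_smul, Var.ex_sub, Var.ex_const, e, sub_self, mul_zero]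

theorem cE_of_const {μ f : F → ℝ} (h : ∀ g, 0 ≤ μ g) (u : F → U) {g : F} (hg : μ g ≠ 0)
    (hc : ∀ g', u g' = u g → f g' = f g) : cE u μ f (u g) = f g := by
  have h0 := fib_nonneg h u (u g)
  have h1 : ∑ g', fib u μ (u g) g' ≠ 0 := fun h2 =>
    hg (by simpa [fib] using Var.zero_of_mass h0 h2 g)
  rw [cE, div_eq_iff h1, mul_sum]
  refine sum_congr rfl fun g' _ => ?_
  unfold fib
  split_ifs with h2
  · rw [hc g' h2, mul_comm]
  · simp

/-- parts in which a light side becomes heavy. -/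
theorem heavy {ν : Om → F → ℝ} {μ : F → ℝ} (h : Dec ν μ) (s : Finset F) (P : F → Prop)
    (hP : Side s P) (b : ℝ)
    (hb : 0 < b) (hl : ms μ P ≤ b * ∑ g, μ g) :
    ∑ k, (if 2 * b * ∑ g, ν k g < ms (ν k) P
      then ms (ν k) P else 0) ≤ dr ν μ (sg s) / (2 * b) := by
  have h1 := Var.heavy h.1 h.2 (f := fun g => ind (P g)) hb hl
  rw [sum_filter] at h1
  have h2 : ∀ ρ : F → ℝ, (∀ g, 0 ≤ ρ g) → Vr ρ (sg s) = 4 * Var.Vr ρ (fun g => ind (P g)) := by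
    intro ρ hρ
    rcases hP with hP | hP
    · have e : sg s = fun g => 2 * ind (P g) + -1 := funext fun g => by
        by_cases hg : g ∈ s
        · rw [W.ind_pos ((hP g).mpr hg), sg, if_pos hg]; norm_num
        · rw [W.ind_neg (mt (hP g).mp hg), sg, if_neg hg]; norm_num
      rw [e]
      exact (Var.Vr_smul_add hρ _ 2 (-1)).trans (by norm_num)
    · have e : sg s = fun g => -2 * ind (P g) + 1 := funext fun g => by
        by_cases hg : g ∈ s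
        · rw [W.ind_neg (fun a => (hP g).mp a hg), sg, if_pos hg]; norm_num
        · rw [W.ind_pos ((hP g).mpr hg), sg, if_neg hg]; norm_num
      rw [e]
      exact (Var.Vr_smul_add hρ _ (-2) 1).trans (by norm_num)
  have h3 : dr ν μ (sg s) = 4 * Var.Dr μ ν (fun g => ind (P g)) := by
    rw [dr, Var.Dr, h2 μ (Var.nonneg_of_fam h.1 h.2), mul_sub, mul_sum]
    congr 1
    exact sum_congr rfl fun k _ => h2 _ (h.1 k)
  rw [h3]
  refine le_trans (le_of_eq ?_) (h1.trans (le_of_eq (by field_simp; ring)))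
  refine sum_congr rfl fun k _ => ?_
  congr 1

theorem ms_nrm (μ : F → ℝ) (P : F → Prop) : ms (nrm μ) P = ms μ P / ∑ g, μ g := by
  simp only [ms, nrm]
  rw [sum_div]
  exact sum_congr rfl fun g _ => by ring

theorem Vr_sg {μ : F → ℝ} (hm : 0 < ∑ g, μ g) (s : Finset F) :
    Vr μ (sg s) = vr (nrm μ) s * ∑ g, μ g := by
  have e1 : ∑ g, μ g * (sg s g * sg s g) = ∑ g, μ g :=
    sum_congr rfl fun g _ => by unfold sg; split_ifs <;> ring
  have e2 : ∑ g, μ g * sg s g = 2 * ms μ (· ∈ s) - ∑ g, μ g := by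
    rw [ms, mul_sum, ← sum_sub_distrib]
    refine sum_congr rfl fun g _ => ?_
    by_cases hg : g ∈ s
    · rw [W.ind_pos hg, sg, if_pos hg]; ring
    · rw [W.ind_neg hg, sg, if_neg hg]; ring
  rw [Vr, Cv, e1, e2, vr, ms_nrm]
  field_simp
  ring

end

end Pool.Agent.Lib.MP_abd417_co.U.Cy
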