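import Pool.Agent.Lib.MP_abd417_co.U.EndA
import Pool.Agent.Lib.MP_abd417_co.Up.Ent
import Pool.Agent.Lib.MP_abd417_co.Up.Gibbs
import Pool.Agent.Lib.MP_abd417_co.Up.Conf
import Pool.Agent.Lib.MP_abd417_co.Up.STb

/-! End of the density increment: the cycle property at every heavy part is contradictory. -/

namespace Pool.Agent.Lib.MP_abd417_co.U.End

open Finset Matrix Pool.Agent.Lib.MP_abd417_co.Up

/-- Entropy of a law is at most the logarithm of the number of points. -/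
theorem H_le {U : Type} [Fintype U] (p : U → ℝ) (hp : ∀ a, 0 ≤ p a) (h1 : ∑ a, p a = 1)
    (n : ℝ) (hn : 0 < n) (hU : (Fintype.card U : ℝ) ≤ n) : Ent.H p ≤ Real.log n := by
  have key : ∀ a, Real.negMulLog (p a) ≤ p a * Real.log n + 1 / n - p a := fun a => by
    rcases (hp a).eq_or_lt with h | h
    · rw [← h]
      simp [hn.le]
    · have a1 := Real.log_le_sub_one_of_pos (x := 1 / (p a * n)) (by positivity)
      rw [one_div, Real.log_inv, Real.log_mul h.ne' hn.ne'] at a1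
      have a2 := mul_le_mul_of_nonneg_left a1 h.le
      have a3 : p a * ((p a * n)⁻¹ - 1) = 1 / n - p a := by field_simp
      rw [a3] at a2
      unfold Real.negMulLog
      linarith
  have h2 := sum_le_sum fun a (_ : a ∈ (univ : Finset U)) => key a
  rw [sum_sub_distrib, sum_add_distrib, ← sum_mul, h1, sum_const, card_univ, nsmul_eq_mul] at h2
  have h3 : (Fintype.card U : ℝ) * (1 / n) ≤ 1 := by
    rw [mul_one_div]
    exact (div_le_one hn).mpr hU
  unfold Ent.H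
  rw [h1, Real.negMulLog_one]
  linarith

/-- Entropy of the uniform law. -/
theorem H_unif {F : Type} [Fintype F] (h : (0 : ℝ) < Fintype.card F) :
    Ent.H (fun _ : F => (1 / Fintype.card F : ℝ)) = Real.log (Fintype.card F) := by
  have hm1 : ∑ _g : F, (1 / Fintype.card F : ℝ) = 1 := by
    rw [sum_const, card_univ, nsmul_eq_mul]
    field_simp
  unfold Ent.H
  rw [hm1, Real.negMulLog_one, sum_const, card_univ, nsmul_eq_mul, Real.negMulLog, one_div,
    Real.log_inv]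
  field_simp
  ring

/-- The engine for the entropy deficiencies of a family with the incidence bound. -/
theorem endB (C c c1 : ℝ) (hC : 1 ≤ C) (hc : 0 < c) (hc1 : 0 < c1) :
    ∃ M : ℝ, 1 ≤ M ∧ ∀ e0 : ℝ, 0 < e0 → ∃ n0 : ℝ, ∀ n : ℝ, n0 ≤ n →
      ∀ (F U : Type) [Fintype F] [Fintype U] [DecidableEq U] (ax : Fin 3 → F → U)
        (Ps : (F → ℝ) → ℝ) (γ B : ℝ),
        (Fintype.card U : ℝ) ≤ n →
        (∀ i j, i ≠ j → ∀ S T : Finset U, (#{g | ax i g ∈ S ∧ ax j g ∈ T} : ℝ) ≤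
          C * (((#S : ℝ) * #T) ^ (2 / 3 : ℝ) + #S + #T)) →
        (∀ i a, (#{g | ax i g = a} : ℝ) ^ 2 ≤ n) →
        e0 ≤ γ → γ ≤ 1 / (8 * M) → n ^ (4 / 3 - γ) ≤ Fintype.card F → 0 < B →
        (∀ μ : F → ℝ, (∀ g, 0 ≤ μ g) → 0 ≤ Ps μ ∧ Ps μ ≤ B * ∑ g, μ g) →
        (∀ μ : F → ℝ, (∀ g, 0 ≤ μ g) → (∀ g, μ g ≤ 1 / Fintype.card F) →
          n ^ (-(M * γ / 2)) ≤ ∑ g, μ g →
          ∃ k, Cy.CYC (Ent.D (ax (k + 1)) (ax (k + 2))) Ps μ (c1 * B) c) → False := by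
  obtain ⟨M, hM, h⟩ := endA C c c1 hC hc hc1
  refine ⟨M, hM, fun e0 he => ?_⟩
  obtain ⟨n0, hn0, h⟩ := h e0 he
  refine ⟨n0, fun n hn F U _ _ _ ax Ps γ B hU hST hcap h0 h1 hF hB hPs hcyc => ?_⟩
  have hn1 : 1 ≤ n := hn0.trans hn
  have hnp : 0 < n := by linarith
  have hFp : (0 : ℝ) < Fintype.card F := lt_of_lt_of_le (Real.rpow_pos_of_pos hnp _) hF
  have hm1 : ∑ _g : F, (1 / Fintype.card F : ℝ) = 1 := by
    rw [sum_const, card_univ, nsmul_eq_mul]
    field_simp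
  have hne : ∀ k : Fin 3, k + 1 ≠ k + 2 := by decide
  refine h n hn F (fun k => Ent.D (ax (k + 1)) (ax (k + 2))) Ps γ B h0 h1 hF ?_ hB
    (fun k x y hx hy => Ent.D_split_mass _ _ hx hy) (fun K hK k μ hμ hμ1 => ?_) (fun k => ?_)
    hPs hcyc
  · have a1 := hST 0 1 (by decide) univ univ
    simp only [mem_univ, and_self, filter_true, card_univ] at a1
    have a0 : (0 : ℝ) ≤ Fintype.card U := Nat.cast_nonneg _
    have a2 : ((Fintype.card U : ℝ) * Fintype.card U) ^ (2 / 3 : ℝ) ≤ n ^ 2 := by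
      calc ((Fintype.card U : ℝ) * Fintype.card U) ^ (2 / 3 : ℝ) ≤ (n ^ 2) ^ (2 / 3 : ℝ) :=
            Real.rpow_le_rpow (by positivity) (by nlinarith) (by norm_num)
        _ ≤ (n ^ 2) ^ (1 : ℝ) :=
            Real.rpow_le_rpow_of_exponent_le (one_le_pow₀ hn1) (by norm_num)
        _ = n ^ 2 := Real.rpow_one _
    have a3 : n ≤ n ^ 2 := by nlinarith
    have a4 : C * (((Fintype.card U : ℝ) * Fintype.card U) ^ (2 / 3 : ℝ) + Fintype.card U +
        Fintype.card U) ≤ C * (3 * n ^ 2) :=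
      mul_le_mul_of_nonneg_left (by linarith) (by linarith)
    linarith
  · have hρ : ∀ i a, Ent.push (ax i) μ a ≤ √n / Fintype.card F := fun i a => by
      have b1 : Ent.push (ax i) μ a ≤ #{g | ax i g = a} * (1 / Fintype.card F : ℝ) := by
        unfold Ent.push
        rw [← sum_filter, ← nsmul_eq_mul, ← sum_const]
        exact sum_le_sum fun g _ => hμ1 g
      have b2 : (#{g | ax i g = a} : ℝ) ≤ √n := Real.le_sqrt_of_sq_le (hcap i a)
      rw [div_eq_mul_one_div]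
      exact b1.trans (mul_le_mul_of_nonneg_right b2 (by positivity))
    have hm : ∑ g, μ g ≤ 1 := hm1 ▸ sum_le_sum fun g _ => hμ1 g
    have := Gibbs.gibbs (ax (k + 1)) (ax (k + 2)) C n (√n / Fintype.card F) K (by linarith)
      (by positivity) (hST _ _ (hne k)) hU hU hK μ hμ hm (Ent.push (ax (k + 1)) μ)
      (Ent.push (ax (k + 2)) μ) (fun _ => rfl) (fun _ => rfl) (hρ _) (hρ _)
    unfold Ent.D Ent.H
    linarith
  · have b : ∀ i, Ent.H (Ent.push (ax i) fun _ : F => (1 / Fintype.card F : ℝ)) ≤ Real.log n :=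
      fun i => H_le _ (Ent.push_nonneg _ fun _ => by positivity) (by rw [Ent.sum_push, hm1]) n
        hnp hU
    have b2 := Real.log_le_log (Real.rpow_pos_of_pos hnp _) hF
    rw [Real.log_rpow hnp] at b2
    unfold Ent.D
    rw [H_unif hFp]
    linarith [b (k + 1), b (k + 2)]

/-- The incidence bound for two axes of a configuration. -/
theorem conf_st (c : Conf) (i j : Fin 3) (hij : i ≠ j) (S T : Finset c.io) :
    (#{g | c.ax i g ∈ S ∧ c.ax j g ∈ T} : ℝ) ≤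
      444000 * (((#S : ℝ) * #T) ^ (2 / 3 : ℝ) + #S + #T) := by
  classical
  refine le_trans ?_ (ST.st_unit S T c.y c.y (fun a _ => c.unit a) (fun a _ => c.unit a)
    (fun a _ b _ h => c.sep a b h) (fun a _ b _ h => c.sep a b h))
  refine Nat.cast_le.mpr (card_le_card_of_injOn (fun g => (c.ax i g, c.ax j g)) ?_ ?_)
  · intro g hg
    simp only [coe_filter, mem_univ, true_and, Set.mem_ofPred_eq, mem_product] at hg ⊢
    exact ⟨hg, c.orth g i j hij⟩
  · intro g _ h _ e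
    simp only [Prod.mk.injEq] at e
    exact c.lin g h i j hij e.1 e.2

/-- A good configuration can not have the cycle property at all its heavy parts. -/
theorem endConf (c0 c1 : ℝ) (hc0 : 0 < c0) (hc1 : 0 < c1) :
    ∃ M : ℝ, 1 ≤ M ∧ ∀ k0 : ℝ, 0 < k0 → ∃ n0 : ℕ, ∀ n : ℕ, n0 ≤ n →
      ∀ (c : Conf) (R ka : ℝ), k0 ≤ ka → c.Good n M R ka →
        ∀ (Ps : (c.Fr → ℝ) → ℝ) (B : ℝ), 0 < B →
        (∀ μ : c.Fr → ℝ, (∀ g, 0 ≤ μ g) → 0 ≤ Ps μ ∧ Ps μ ≤ B * ∑ g, μ g) →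
        (∀ μ : c.Fr → ℝ, (∀ g, 0 ≤ μ g) → (∀ g, μ g ≤ 1 / Fintype.card c.Fr) →
          (n : ℝ) ^ (-(ka / 2)) ≤ ∑ g, μ g →
          ∃ k, Cy.CYC (Ent.D (c.ax (k + 1)) (c.ax (k + 2))) Ps μ (c1 * B) c0) → False := by
  obtain ⟨M, hM, h⟩ := endB 444000 c0 c1 (by norm_num) hc0 hc1
  have hM0 : 0 < M := by linarith
  refine ⟨M, hM, fun k0 hk => ?_⟩
  obtain ⟨n0, h⟩ := h (k0 / M) (by positivity)
  refine ⟨⌈n0⌉₊, fun n hn c R ka hka hG Ps B hB hPs hcyc => ?_⟩
  refine h n ((Nat.le_ceil n0).trans (Nat.cast_le.mpr hn)) c.Fr c.io c.ax Ps (ka / M) B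
    (Nat.cast_le.mpr hG.card_io) (conf_st c) (fun i a => by exact_mod_cast hG.cap i a)
    (div_le_div_of_nonneg_right hka hM0.le) ?_ hG.many hB hPs fun μ h0 h1 h2 => hcyc μ h0 h1 ?_
  · rw [div_le_div_iff₀ hM0 (by positivity)]
    nlinarith [hG.ka_le]
  · rwa [show M * (ka / M) / 2 = ka / 2 by field_simp] at h2

end Pool.Agent.Lib.MP_abd417_co.U.End
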