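import Pool.Agent.Lib.MP_abd417_co.U.Engine
import Pool.Agent.Lib.MP_abd417_co.U.CycDefs

/-! End of the density increment: the engine with all numbers in `n`. -/

namespace Pool.Agent.Lib.MP_abd417_co.U.End

open Finset

/-- A logarithm of a square of a logarithm is small against the logarithm. -/
theorem loglog (C e0 : ℝ) (hC : 1 ≤ C) (he : 0 < e0) : ∃ L0 : ℝ, ∀ L : ℝ, L0 ≤ L →
    ∀ K : ℝ, 1 ≤ K → K ≤ 2 * L + 3 * C + 1 → Real.log (16 * C * K ^ 2 + 2) ≤ e0 * L := by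
  refine ⟨2 * (18 * C + e0 / 4 * (3 * C + 1) + 2 * (8 / e0)) / e0, fun L hL K hK1 hK => ?_⟩
  have h1 : 16 * C * K ^ 2 + 2 ≤ 18 * C * K ^ 2 := by nlinarith [one_le_pow₀ (n := 2) hK1]
  have h2 : Real.log (16 * C * K ^ 2 + 2) ≤ Real.log (18 * C) + 2 * Real.log K := by
    have := Real.log_le_log (by positivity) h1
    rw [Real.log_mul (by positivity) (by positivity), Real.log_pow] at this
    simpa using this
  have h3 : Real.log (18 * C) ≤ 18 * C := (Real.log_le_sub_one_of_pos (by positivity)).trans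
    (by linarith)
  have h4 : Real.log K ≤ e0 / 8 * K + 8 / e0 := by
    have a1 : Real.log (e0 / 8 * K) ≤ e0 / 8 * K :=
      (Real.log_le_sub_one_of_pos (by positivity)).trans (by linarith)
    have a2 : Real.log (8 / e0) ≤ 8 / e0 :=
      (Real.log_le_sub_one_of_pos (by positivity)).trans (by linarith)
    have a3 : Real.log K = Real.log (e0 / 8 * K) + Real.log (8 / e0) := by
      rw [← Real.log_mul (by positivity) (by positivity)]
      congr 1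
      field_simp
    linarith
  have h5 : 2 * (18 * C + e0 / 4 * (3 * C + 1) + 2 * (8 / e0)) ≤ L * e0 :=
    (div_le_iff₀ he).mp hL
  have h6 : e0 / 8 * K ≤ e0 / 8 * (2 * L + 3 * C + 1) :=
    mul_le_mul_of_nonneg_left hK (by positivity)
  nlinarith

/-- A power of four just above a number. -/
theorem exists_pow (C n x : ℝ) (hC : 1 ≤ C) (hn : 1 ≤ n) (hx : x ≤ 3 * C * n ^ 2) :
    ∃ K : ℕ, x ≤ 4 ^ K ∧ (1 : ℝ) ≤ K ∧ (K : ℝ) ≤ 2 * Real.log n + 3 * C + 1 := by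
  have hl : 0 ≤ Real.log n := Real.log_nonneg hn
  refine ⟨⌈2 * Real.log n + 3 * C⌉₊, ?_, ?_, ?_⟩
  · have h1 : 2 * Real.log n + 3 * C ≤ (⌈2 * Real.log n + 3 * C⌉₊ : ℝ) := Nat.le_ceil _
    have h2 : Real.exp (⌈2 * Real.log n + 3 * C⌉₊ : ℕ) ≤ 4 ^ ⌈2 * Real.log n + 3 * C⌉₊ := by
      rw [← Real.exp_one_pow]
      exact pow_le_pow_left₀ (Real.exp_pos _).le
        (by linarith [Real.exp_one_lt_d9]) _
    have h3 : Real.exp (2 * Real.log n + 3 * C) = n ^ 2 * Real.exp (3 * C) := by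
      rw [Real.exp_add, show 2 * Real.log n = Real.log n + Real.log n by ring, Real.exp_add,
        Real.exp_log (by linarith)]
      ring
    have h4 : 3 * C ≤ Real.exp (3 * C) := by linarith [Real.add_one_le_exp (3 * C)]
    have h5 := Real.exp_le_exp.mpr h1
    have h6 : 3 * C * n ^ 2 ≤ n ^ 2 * Real.exp (3 * C) := by nlinarith [sq_nonneg n]
    linarith
  · have h1 : 2 * Real.log n + 3 * C ≤ (⌈2 * Real.log n + 3 * C⌉₊ : ℝ) := Nat.le_ceil _
    linarith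
  · have := Nat.ceil_lt_add_one (a := 2 * Real.log n + 3 * C) (by linarith)
    linarith

/-- The error term of the entropy bound is below the mass threshold. -/
theorem err_le (n N γ t : ℝ) (hn : 1 ≤ n) (hL : 14 ≤ Real.log n) (hγ : γ ≤ 1 / 8)
    (ht : t ≤ 1 / 16) (hN : n ^ (4 / 3 - γ) ≤ N) :
    2 * n ^ (1 / 3 : ℝ) * (√n / N) ^ (2 / 3 : ℝ) ≤ n ^ (-t) := by
  have hn0 : 0 < n := by linarith
  have hp : 0 < n ^ (4 / 3 - γ) := Real.rpow_pos_of_pos hn0 _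
  have h1 : √n / N ≤ n ^ (1 / 2 - (4 / 3 - γ)) := by
    rw [Real.rpow_sub hn0, Real.sqrt_eq_rpow]
    exact div_le_div_of_nonneg_left (by positivity) hp hN
  have h0 : 0 ≤ √n / N := div_nonneg (Real.sqrt_nonneg _) (by linarith)
  have h2 : (√n / N) ^ (2 / 3 : ℝ) ≤ n ^ ((1 / 2 - (4 / 3 - γ)) * (2 / 3)) := by
    rw [Real.rpow_mul hn0.le]
    exact Real.rpow_le_rpow h0 h1 (by norm_num)
  have h3 : (2 : ℝ) ≤ n ^ (11 / 144 : ℝ) := by
    rw [Real.rpow_def_of_pos hn0]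
    have := Real.add_one_le_exp (Real.log n * (11 / 144))
    linarith
  calc 2 * n ^ (1 / 3 : ℝ) * (√n / N) ^ (2 / 3 : ℝ)
      ≤ n ^ (11 / 144 : ℝ) * n ^ (1 / 3 : ℝ) * n ^ ((1 / 2 - (4 / 3 - γ)) * (2 / 3)) := by
        gcongr
    _ = n ^ (11 / 144 + 1 / 3 + (1 / 2 - (4 / 3 - γ)) * (2 / 3)) := by
        rw [Real.rpow_add hn0, Real.rpow_add hn0]
    _ ≤ n ^ (-t) := Real.rpow_le_rpow_of_exponent_le hn (by linarith)

/-- The engine for abstract deficiencies. -/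
theorem endA (C c c1 : ℝ) (hC : 1 ≤ C) (hc : 0 < c) (hc1 : 0 < c1) :
    ∃ M : ℝ, 1 ≤ M ∧ ∀ e0 : ℝ, 0 < e0 → ∃ n0 : ℝ, 1 ≤ n0 ∧ ∀ n : ℝ, n0 ≤ n →
      ∀ (F : Type) [Fintype F] (D : Fin 3 → (F → ℝ) → ℝ) (Ps : (F → ℝ) → ℝ) (γ B : ℝ),
        e0 ≤ γ → γ ≤ 1 / (8 * M) → n ^ (4 / 3 - γ) ≤ Fintype.card F →
        (Fintype.card F : ℝ) ≤ 3 * C * n ^ 2 → 0 < B →
        (∀ k (x y : F → ℝ), (∀ g, 0 ≤ x g) → (∀ g, 0 ≤ y g) →
          D k x + D k y ≤ D k (x + y) + ∑ g, (x + y) g) →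
        (∀ K : ℕ, (Fintype.card F : ℝ) ≤ 4 ^ K → ∀ k (μ : F → ℝ), (∀ g, 0 ≤ μ g) →
          (∀ g, μ g ≤ 1 / Fintype.card F) →
          -((∑ g, μ g) * Real.log (16 * C * K ^ 2 + 2)) -
            2 * n ^ (1 / 3 : ℝ) * (√n / Fintype.card F) ^ (2 / 3 : ℝ) ≤ D k μ) →
        (∀ k, D k (fun _ => 1 / Fintype.card F) ≤ γ * Real.log n) →
        (∀ μ : F → ℝ, (∀ g, 0 ≤ μ g) → 0 ≤ Ps μ ∧ Ps μ ≤ B * ∑ g, μ g) →
        (∀ μ : F → ℝ, (∀ g, 0 ≤ μ g) → (∀ g, μ g ≤ 1 / Fintype.card F) →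
          n ^ (-(M * γ / 2)) ≤ ∑ g, μ g → ∃ k, Cy.CYC (D k) Ps μ (c1 * B) c) → False := by
  obtain ⟨K0, hK0, eng⟩ := Pool.Agent.MP_abd417_co.U.Eng.engine hc hc1
  refine ⟨6 * K0 + 2, by linarith, fun e0 he => ?_⟩
  obtain ⟨L0, hL0⟩ := loglog C e0 hC he
  refine ⟨Real.exp (max (max L0 14) (1 / e0)), Real.one_le_exp (le_trans (by norm_num)
    ((le_max_right L0 14).trans (le_max_left _ _))), fun n hn => ?_⟩
  intro F _ D Ps γ B hγ0 hγ1 hF hF2 hB hadd hgib hstart hPs hcyc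
  have hn0 : 0 < n := lt_of_lt_of_le (Real.exp_pos _) hn
  have hlog : max (max L0 14) (1 / e0) ≤ Real.log n := (Real.le_log_iff_exp_le hn0).mpr hn
  have hl1 : L0 ≤ Real.log n := ((le_max_left _ _).trans (le_max_left _ _)).trans hlog
  have hl2 : 14 ≤ Real.log n := ((le_max_right _ _).trans (le_max_left _ _)).trans hlog
  have hl3 : 1 / e0 ≤ Real.log n := (le_max_right _ _).trans hlog
  have hn1 : 1 ≤ n := by
    by_contra h
    have := Real.log_nonpos hn0.le (le_of_lt (not_le.mp h))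
    linarith
  have hM : (0 : ℝ) < 8 * (6 * K0 + 2) := by linarith
  have hγ2 : γ * (8 * (6 * K0 + 2)) ≤ 1 := (le_div_iff₀ hM).mp hγ1
  have hγp : 0 < γ := lt_of_lt_of_le he hγ0
  have hγ3 : γ ≤ 1 / 8 := by nlinarith
  have hone : 1 ≤ γ * Real.log n := by
    have := (div_le_iff₀ he).mp hl3
    nlinarith
  have hFp : (0 : ℝ) < Fintype.card F := lt_of_lt_of_le (Real.rpow_pos_of_pos hn0 _) hF
  obtain ⟨K, hK1, hK2, hK3⟩ := exists_pow C n _ hC hn1 hF2
  have hl := hL0 _ hl1 K hK2 hK3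
  have hlγ : Real.log (16 * C * K ^ 2 + 2) ≤ γ * Real.log n :=
    hl.trans (mul_le_mul_of_nonneg_right hγ0 (by linarith))
  have hl0 : 0 ≤ Real.log (16 * C * K ^ 2 + 2) :=
    Real.log_nonneg (by nlinarith [sq_nonneg (K : ℝ)])
  have herr := err_le n (Fintype.card F) γ ((6 * K0 + 2) * γ / 2) hn1 hl2 hγ3 (by linarith) hF
  have hτ : 0 < n ^ (-((6 * K0 + 2) * γ / 2)) := Real.rpow_pos_of_pos hn0 _
  have hm1 : ∑ _g : F, (1 / Fintype.card F : ℝ) = 1 := by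
    rw [sum_const, card_univ, nsmul_eq_mul]
    field_simp
  have H : Pool.Agent.MP_abd417_co.U.Eng.Hyp
      (fun μ : F → ℝ => (∀ g, 0 ≤ μ g) ∧ ∀ g, μ g ≤ 1 / Fintype.card F) (fun μ => ∑ g, μ g) D Ps
      c c1 B (Real.log (16 * C * K ^ 2 + 2)) 1 (n ^ (-((6 * K0 + 2) * γ / 2))) := by
    refine ⟨fun x y => by simp [sum_add_distrib], by simp,
      fun x hx => sum_nonneg fun g _ => hx.1 g, fun k x y hx hy _ => hadd k x y hx.1 hy.1,
      fun x hx => (hPs x hx.1).1, fun x hx => (hPs x hx.1).2, fun k x hx => ?_,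
      fun μ hμ hm => ?_⟩
    · have := hgib K hK1 k x hx.1 hx.2
      linarith
    · obtain ⟨k, hk⟩ := hcyc μ hμ.1 hμ.2 hm
      refine ⟨k, fun N ν hs hν hd => ?_⟩
      obtain ⟨gn, hg, hsum⟩ := hk (Fin N) ν (fun a g => (hν a).1 g)
        (fun g => by rw [← hs]; simp) hd
      choose φ hφ hgain using hg
      refine ⟨fun a g => ν a g * φ a g, fun a g => ν a g * (1 - φ a g), fun a => ⟨⟨fun g => ?_,
        fun g => ?_⟩, ⟨fun g => ?_, fun g => ?_⟩, ?_⟩, ?_⟩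
      · exact mul_nonneg ((hν a).1 g) (hφ a g).1
      · nlinarith [(hν a).1 g, (hν a).2 g, (hφ a g).1, (hφ a g).2]
      · exact mul_nonneg ((hν a).1 g) (by linarith [(hφ a g).2])
      · nlinarith [(hν a).1 g, (hν a).2 g, (hφ a g).1, (hφ a g).2]
      · funext g
        simp only [Pi.add_apply]
        ring
      · have := sum_le_sum fun a (_ : a ∈ (univ : Finset (Fin N))) => hgain a
        rw [sum_add_distrib] at this
        linarith
  have key := eng (F → ℝ) _ _ D Ps B _ 1 _ H hB hl0 zero_le_one hτ.le (γ * Real.log n)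
    (fun _ => 1 / Fintype.card F) (by linarith) ⟨fun _ => by positivity, fun _ => le_rfl⟩
    (by rw [hm1]; exact one_pos) (fun k => by rw [hm1, mul_one]; exact hstart k)
  rw [hm1, Real.rpow_def_of_pos hn0, mul_right_comm, ← Real.exp_add] at key
  have h5 : Real.log n * -((6 * K0 + 2) * γ / 2) +
      K0 * (γ * Real.log n + Real.log (16 * C * K ^ 2 + 2) + 1) ≤ -1 := by
    have a1 : K0 * (γ * Real.log n + Real.log (16 * C * K ^ 2 + 2) + 1) ≤
        K0 * (3 * (γ * Real.log n)) := mul_le_mul_of_nonneg_left (by linarith) hK0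
    have a2 : Real.log n * -((6 * K0 + 2) * γ / 2) =
        -(K0 * (3 * (γ * Real.log n))) - γ * Real.log n := by ring
    rw [a2]
    linarith
  have h6 := Real.exp_le_exp.mpr h5
  have h7 : Real.exp (-1) * 2 ≤ 1 := by
    have a1 := Real.add_one_le_exp (1 : ℝ)
    have a2 : Real.exp (-1) * Real.exp 1 = 1 := by rw [← Real.exp_add]; simp
    nlinarith [Real.exp_pos (-1 : ℝ)]
  linarith

end Pool.Agent.Lib.MP_abd417_co.U.End
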