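import Mathlib

/-! Abstract density increment engine with three deficiencies and a bounded potential. -/

namespace Pool.Agent.MP_abd417_co.U.Eng

/-- Hypotheses of the engine. `P x`: x is a part of the start measure, `m` mass, `D k` the three
deficiencies, `Psi` the potential. -/
structure Hyp {A : Type} [AddCommMonoid A] (P : A → Prop) (m : A → ℝ) (D : Fin 3 → A → ℝ)
    (Psi : A → ℝ) (c c1 B l L tau : ℝ) : Prop where
  m_add : ∀ x y, m (x + y) = m x + m y
  m_zero : m 0 = 0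
  m_nn : ∀ x, P x → 0 ≤ m x
  D_add : ∀ k x y, P x → P y → P (x + y) → D k x + D k y ≤ D k (x + y) + m (x + y)
  Psi_nn : ∀ x, P x → 0 ≤ Psi x
  Psi_le : ∀ x, P x → Psi x ≤ B * m x
  low' : ∀ k x, P x → -(l * m x) - L * tau ≤ D k x
  persist : ∀ mu, P mu → tau ≤ m mu → ∃ k, ∀ (n : ℕ) (nu : Fin n → A), ∑ a, nu a = mu →
    (∀ a, P (nu a)) → Psi mu - c1 * B * m mu ≤ ∑ a, Psi (nu a) →
    ∃ f g : Fin n → A, (∀ a, P (f a) ∧ P (g a) ∧ f a + g a = nu a) ∧
      ∑ a, (D k (f a) + D k (g a)) ≤ ∑ a, D k (nu a) - c * m mu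

section
variable {A : Type} [AddCommMonoid A] {P : A → Prop} {m : A → ℝ} {D : Fin 3 → A → ℝ}
  {Psi : A → ℝ} {c c1 B l L tau : ℝ}

lemma Hyp.m_sum (h : Hyp P m D Psi c c1 B l L tau) (s : List A) :
    (s.map m).sum = m s.sum := by
  induction s with
  | nil => simp [h.m_zero]
  | cons x s ih => simp [h.m_add, ih]

omit [AddCommMonoid A] in
lemma sum_get (s : List A) (f : A → ℝ) :
    ∑ a : Fin s.length, f (s.get a) = (s.map f).sum := by
  conv_rhs => rw [← List.ofFn_get s, List.map_ofFn, List.sum_ofFn]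
  rfl

lemma Hyp.split_all (h : Hyp P m D Psi c c1 B l L tau) (k : Fin 3) (s : List A)
    (f g : Fin s.length → A) (hfg : ∀ a, P (f a) ∧ P (g a) ∧ f a + g a = s.get a)
    (hs : ∀ x ∈ s, P x) : ∃ s' : List A, s'.sum = s.sum ∧ (∀ x ∈ s', P x) ∧
      s'.length = 2 * s.length ∧
      (∀ j, (s'.map (D j)).sum ≤ (s.map (D j)).sum + (s.map m).sum) ∧
      (s'.map (D k)).sum = ∑ a, (D k (f a) + D k (g a)) := by
  have key : ∀ j, ((List.ofFn f ++ List.ofFn g).map (D j)).sum =
      ∑ a, (D j (f a) + D j (g a)) := by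
    intro j
    rw [List.map_append, List.sum_append, List.map_ofFn, List.map_ofFn, List.sum_ofFn,
      List.sum_ofFn, Finset.sum_add_distrib]
    rfl
  refine ⟨List.ofFn f ++ List.ofFn g, ?_, ?_, ?_, ?_, key k⟩
  · rw [List.sum_append, List.sum_ofFn, List.sum_ofFn, ← Finset.sum_add_distrib]
    conv_rhs => rw [← List.ofFn_get s, List.sum_ofFn]
    exact Finset.sum_congr rfl (fun a _ => (hfg a).2.2)
  · intro x hx
    rcases List.mem_append.mp hx with hx | hx
    · obtain ⟨a, rfl⟩ := List.mem_ofFn.mp hx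
      exact (hfg a).1
    · obtain ⟨a, rfl⟩ := List.mem_ofFn.mp hx
      exact (hfg a).2.1
  · simp only [List.length_append, List.length_ofFn]; ring
  · intro j
    rw [key j, ← sum_get, ← sum_get, ← Finset.sum_add_distrib]
    refine Finset.sum_le_sum (fun a _ => ?_)
    have := h.D_add j (f a) (g a) (hfg a).1 (hfg a).2.1
      (by rw [(hfg a).2.2]; exact hs _ (List.get_mem s a))
    rwa [(hfg a).2.2] at this

lemma Hyp.run (h : Hyp P m D Psi c c1 B l L tau) (mu : A) (hmu : P mu) (k : Fin 3)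
    (hk : ∀ (n : ℕ) (nu : Fin n → A), ∑ a, nu a = mu →
      (∀ a, P (nu a)) → Psi mu - c1 * B * m mu ≤ ∑ a, Psi (nu a) →
      ∃ f g : Fin n → A, (∀ a, P (f a) ∧ P (g a) ∧ f a + g a = nu a) ∧
        ∑ a, (D k (f a) + D k (g a)) ≤ ∑ a, D k (nu a) - c * m mu) (t : ℕ) :
    ∃ s : List A, s.sum = mu ∧ (∀ x ∈ s, P x) ∧ s.length ≤ 2 ^ t ∧
      (∀ j, (s.map (D j)).sum ≤ D j mu + t * m mu) ∧
      ((s.map Psi).sum ≤ Psi mu - c1 * B * m mu ∨
        (s.map (D k)).sum ≤ D k mu - c * t * m mu) := by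
  have hm := h.m_nn mu hmu
  induction t with
  | zero => exact ⟨[mu], by simp, by simpa using hmu, by simp, by simp, Or.inr (by simp)⟩
  | succ t ih =>
    obtain ⟨s, h1, h2, h3, h4, h5⟩ := ih
    by_cases hc : (s.map Psi).sum ≤ Psi mu - c1 * B * m mu
    · refine ⟨s, h1, h2, h3.trans (Nat.pow_le_pow_right (by norm_num) (Nat.le_succ t)), ?_,
        Or.inl hc⟩
      intro j
      have := h4 j
      push_cast
      nlinarith
    · have h5' := h5.resolve_left hc
      obtain ⟨f, g, hfg, hg⟩ := hk s.length s.get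
        (by rw [← h1]; conv_rhs => rw [← List.ofFn_get s, List.sum_ofFn])
        (fun a => h2 _ (List.get_mem s a)) (by rw [sum_get]; exact le_of_lt (not_le.mp hc))
      rw [sum_get] at hg
      obtain ⟨s', g1, g2, g3, g4, g5⟩ := h.split_all k s f g hfg h2
      refine ⟨s', g1.trans h1, g2, ?_, ?_, Or.inr ?_⟩
      · rw [g3, pow_succ]; omega
      · intro j
        have a1 := g4 j
        have a2 := h4 j
        rw [h.m_sum, h1] at a1
        push_cast
        nlinarith
      · push_cast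
        nlinarith

lemma Hyp.low (h : Hyp P m D Psi c c1 B l L tau)
    (k : Fin 3) (x : A) (hx : P x) : 0 ≤ D k x + l * m x + L * tau := by
  have := h.low' k x hx
  linarith

/-- The field `low'` from a bound for heavy parts and a crude bound for all parts. -/
lemma low_of {mx d : ℝ} (hl : 0 ≤ l) (hL : 0 ≤ L) (ht : 0 ≤ tau) (hm : 0 ≤ mx)
    (st : tau ≤ mx → -(l * mx) ≤ d) (crude : -(L * mx) ≤ d) : -(l * mx) - L * tau ≤ d := by
  by_cases hc : tau ≤ mx
  · have := st hc
    have := mul_nonneg hL ht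
    linarith
  · have h2 : L * mx ≤ L * tau := mul_le_mul_of_nonneg_left (le_of_lt (not_le.mp hc)) hL
    have := mul_nonneg hl hm
    linarith

omit [AddCommMonoid A] in
lemma sum_ge (s : List A) (f : A → ℝ) (hf : ∀ x ∈ s, 0 ≤ f x) : 0 ≤ (s.map f).sum := by
  induction s with
  | nil => simp
  | cons x s ih =>
    have h1 := hf x (List.mem_cons_self ..)
    have h2 := ih (fun y hy => hf y (List.mem_cons_of_mem _ hy))
    simp only [List.map_cons, List.sum_cons]
    linarith

omit [AddCommMonoid A] in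
lemma sum_lin (s : List A) (f0 f1 f2 f3 f4 : A → ℝ) (a0 a1 a2 r : ℝ) :
    (s.map (fun x => a0 * f0 x + a1 * f1 x + a2 * (f2 x + f3 x + f4 x) + r)).sum =
      a0 * (s.map f0).sum + a1 * (s.map f1).sum +
        a2 * ((s.map f2).sum + (s.map f3).sum + (s.map f4).sum) + s.length * r := by
  induction s with
  | nil => simp
  | cons x s ih =>
    simp only [List.map_cons, List.sum_cons, List.length_cons, ih]
    push_cast
    ring

end

/-- Level statement: potential at least `j (c1/2) B` times the mass. -/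
def Lev (c c1 : ℝ) (j : ℕ) (K : ℝ) : Prop :=
  ∀ (A : Type) [AddCommMonoid A] (P : A → Prop) (m : A → ℝ) (D : Fin 3 → A → ℝ)
    (Psi : A → ℝ) (B l L tau : ℝ), Hyp P m D Psi c c1 B l L tau → 0 ≤ B → 0 ≤ l → 0 ≤ L →
    0 ≤ tau → ∀ (d : ℝ) (mu : A), l + 1 ≤ d → P mu → tau * (L + 1) * Real.exp (K * d) ≤ m mu →
    (∀ k, D k mu ≤ d * m mu) → j * (c1 / 2) * B * m mu ≤ Psi mu

lemma fin_arith {j w e q M u X Y Z p : ℝ} (hj : 0 ≤ j) (hw : w = 2 * (j + 1)) (he : 0 < e)
    (hq : 0 ≤ q) (hu : 0 ≤ u) (hqu : q * M = j * u)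
    (h2 : q * (e * M) ≤ e * Z + q * X + q * (e * Y)) (hX : w * X ≤ e * M) (hY : w * Y ≤ M)
    (h5 : Z ≤ p - 2 * u) : (j + 1) * u ≤ p := by
  have hw0 : 0 < w := by linarith
  have h3 : e * (w * (q * M)) ≤ e * (w * Z + 2 * (q * M)) := by
    have v1 := mul_le_mul_of_nonneg_left h2 hw0.le
    have v2 := mul_le_mul_of_nonneg_left hX hq
    have v3 := mul_le_mul_of_nonneg_left hY (mul_nonneg hq he.le)
    linarith
  have h4 : w * (q * M) ≤ w * Z + 2 * (q * M) := le_of_mul_le_mul_left h3 he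
  rw [hqu] at h4
  have h7 : w * ((j + 1) * u) ≤ w * p := by
    have v1 := mul_le_mul_of_nonneg_left h5 hw0.le
    have v2 : 2 * (j * u) ≤ w * u := by rw [hw]; linarith
    linarith
  exact le_of_mul_le_mul_left h7 hw0

lemma lev_step {c c1 : ℝ} (hc : 0 < c) (hc1 : 0 < c1) (j : ℕ) (K : ℝ) (hK : 0 ≤ K)
    (h : Lev c c1 j K) : ∃ K', 0 ≤ K' ∧ Lev c c1 (j + 1) K' := by
  obtain ⟨a, ha⟩ : ∃ a : ℝ, a = 2 / c + 2 := ⟨_, rfl⟩
  obtain ⟨w, hw⟩ : ∃ w : ℝ, w = 2 * (j + 1) := ⟨_, rfl⟩
  obtain ⟨b, hb⟩ : ∃ b : ℝ, b = 3 * (2 + a) * w := ⟨_, rfl⟩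
  have hj : (0 : ℝ) ≤ j := Nat.cast_nonneg j
  have ha2 : 2 ≤ a := by
    have : 0 < 2 / c := by positivity
    linarith
  have hw2 : 2 ≤ w := by linarith
  have hb1 : 1 ≤ b := by nlinarith
  refine ⟨a + K * b + w, by positivity, ?_⟩
  intro A _ P m D Psi B l L tau H hB hl hL ht d mu hd hmu hheavy hD
  have hm := H.m_nn mu hmu
  have hd1 : 1 ≤ d := by linarith
  have hT : 0 ≤ tau * (L + 1) := by positivity
  have hea : 1 ≤ Real.exp (a * d) := Real.one_le_exp (by positivity)
  have heb : 1 ≤ Real.exp (K * (b * d)) := Real.one_le_exp (by positivity)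
  have hew : w ≤ Real.exp (w * d) := by
    have := Real.add_one_le_exp (w * d)
    nlinarith
  have hsplit : Real.exp ((a + K * b + w) * d) =
      Real.exp (a * d) * Real.exp (K * (b * d)) * Real.exp (w * d) := by
    rw [← Real.exp_add, ← Real.exp_add]; congr 1; ring
  rw [hsplit] at hheavy
  obtain ⟨E, hE⟩ : ∃ E, E = Real.exp (a * d) := ⟨_, rfl⟩
  obtain ⟨r, hr⟩ : ∃ r, r = tau * (L + 1) * Real.exp (K * (b * d)) := ⟨_, rfl⟩
  have hrT : tau * (L + 1) ≤ r := by rw [hr]; nlinarith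
  have hr0 : 0 ≤ r := hT.trans hrT
  rw [← hE] at hea hheavy
  have hEr : w * (E * r) ≤ m mu := by
    have h1 : tau * (L + 1) * (E * Real.exp (K * (b * d)) * Real.exp (w * d)) =
        (E * r) * Real.exp (w * d) := by rw [hr]; ring
    rw [h1] at hheavy
    have h2 : 0 ≤ E * r := by positivity
    nlinarith
  have hEr1 : E * r ≤ m mu := by
    have h2 : 0 ≤ E * r := by positivity
    nlinarith
  have htau : tau ≤ m mu := by nlinarith [mul_nonneg ht hL]
  obtain ⟨k, hk⟩ := H.persist mu hmu htau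
  obtain ⟨N, hN⟩ : ∃ N : ℕ, N = ⌈2 * d / c⌉₊ + 1 := ⟨_, rfl⟩
  have hN1 : 2 * d / c + 1 ≤ N := by
    rw [hN]; push_cast
    have := Nat.le_ceil (2 * d / c)
    linarith
  have hN2 : (N : ℝ) ≤ a * d := by
    rw [hN, ha]; push_cast
    have h1 := Nat.ceil_lt_add_one (show 0 ≤ 2 * d / c by positivity)
    have h2 : (2 / c + 2) * d = 2 * d / c + 2 * d := by ring
    linarith
  have hcN : 2 * d + c ≤ c * N := by
    have h1 : c * (2 * d / c + 1) = 2 * d + c := by field_simp
    nlinarith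
  obtain ⟨s, s1, s2, s3, s4, s5⟩ := H.run mu hmu k hk N
  have hlen : (s.length : ℝ) ≤ E := by
    have h1 : (s.length : ℝ) ≤ 2 ^ N := by exact_mod_cast s3
    have h2 : (2 : ℝ) ^ N ≤ Real.exp 1 ^ N :=
      pow_le_pow_left₀ (by norm_num) (by have := Real.add_one_le_exp 1; linarith) N
    have h3 : Real.exp 1 ^ N = Real.exp N := by rw [← Real.exp_nat_mul]; simp
    have h4 : Real.exp N ≤ E := by rw [hE]; exact Real.exp_le_exp.mpr hN2
    linarith
  have hlen0 : (0 : ℝ) ≤ s.length := Nat.cast_nonneg _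
  have hlr : w * (s.length * r) ≤ m mu := by
    have : s.length * r ≤ E * r := mul_le_mul_of_nonneg_right hlen hr0
    nlinarith
  have hlt : s.length * (L * tau) ≤ m mu := by
    have h1 : L * tau ≤ r := by nlinarith
    have h2 : s.length * (L * tau) ≤ s.length * r := mul_le_mul_of_nonneg_left h1 hlen0
    have h3 : s.length * r ≤ E * r := mul_le_mul_of_nonneg_right hlen hr0
    linarith
  have hms : (s.map m).sum = m mu := by rw [H.m_sum, s1]
  rcases eq_or_lt_of_le hm with hm0 | hm0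
  · rw [← hm0]; simpa using H.Psi_nn mu hmu
  rcases s5 with s5 | s5
  swap
  · exfalso
    have h1 := sum_ge s (fun x => 1 * D k x + l * m x + 0 * (m x + m x + m x) + L * tau)
      (fun x hx => by have := H.low k x (s2 x hx); linarith)
    rw [sum_lin, hms] at h1
    have h2 := hD k
    have h3 : (2 * d + c) * m mu ≤ c * N * m mu := mul_le_mul_of_nonneg_right hcN hm
    have h4 : (l + 1) * m mu ≤ d * m mu := mul_le_mul_of_nonneg_right hd hm
    have h5 : 0 < c * m mu := mul_pos hc hm0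
    nlinarith
  obtain ⟨q, hq⟩ : ∃ q : ℝ, q = j * (c1 / 2) * B := ⟨_, rfl⟩
  have hq0 : 0 ≤ q := by rw [hq]; positivity
  obtain ⟨e, he⟩ : ∃ e : ℝ, e = b * d := ⟨_, rfl⟩
  have hed : d ≤ e := by rw [he]; nlinarith
  have he0 : 0 < e := by linarith
  have h1 := sum_ge s (fun x => e * Psi x + (3 * q * l - q * e) * m x +
      q * (D 0 x + D 1 x + D 2 x) + (q * e * r + 3 * q * (L * tau))) (fun x hx => by
    have hx' := s2 x hx
    have l0 := H.low 0 x hx'
    have l1 := H.low 1 x hx'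
    have l2 := H.low 2 x hx'
    have p0 := H.Psi_nn x hx'
    have m0 := H.m_nn x hx'
    have key : q * (e * m x) ≤ e * Psi x + q * (e * r) +
        q * ((D 0 x + l * m x + L * tau) + (D 1 x + l * m x + L * tau) +
          (D 2 x + l * m x + L * tau)) := by
      have t1 : 0 ≤ e * Psi x := by positivity
      have t2 : 0 ≤ q * (e * r) := by positivity
      have t3 : 0 ≤ q * ((D 0 x + l * m x + L * tau) + (D 1 x + l * m x + L * tau) +
          (D 2 x + l * m x + L * tau)) := by positivity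
      by_cases c1 : r ≤ m x
      · by_cases c2 : ∀ k, D k x ≤ e * m x
        · have := h A P m D Psi B l L tau H hB hl hL ht e x (by linarith) hx'
            (by rw [he, ← hr]; exact c1) c2
          rw [← hq] at this
          have t4 : e * (q * m x) ≤ e * Psi x := mul_le_mul_of_nonneg_left this he0.le
          linarith
        · push Not at c2
          obtain ⟨k', hk'⟩ := c2
          have u0 := mul_nonneg hl m0
          have u1 := mul_nonneg hL ht
          have t4 : e * m x ≤ (D 0 x + l * m x + L * tau) + (D 1 x + l * m x + L * tau) +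
              (D 2 x + l * m x + L * tau) := by
            fin_cases k' <;> simp at hk' <;> linarith
          have := mul_le_mul_of_nonneg_left t4 hq0
          linarith
      · have t4 : e * m x ≤ e * r := mul_le_mul_of_nonneg_left (le_of_lt (not_le.mp c1)) he0.le
        have := mul_le_mul_of_nonneg_left t4 hq0
        linarith
    linarith)
  rw [sum_lin, hms] at h1
  have b0 : ∀ k, (s.map (D k)).sum + l * m mu + s.length * (L * tau) ≤ (2 + a) * d * m mu := by
    intro k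
    have u1 := s4 k
    have u2 := hD k
    have u3 : N * m mu ≤ a * d * m mu := mul_le_mul_of_nonneg_right hN2 hm
    have u4 : (l + 1) * m mu ≤ d * m mu := mul_le_mul_of_nonneg_right hd hm
    linarith
  have b3 : w * (3 * ((2 + a) * d * m mu)) = e * m mu := by rw [he, hb]; ring
  obtain ⟨X, hX⟩ : ∃ X, X = (s.map (D 0)).sum + (s.map (D 1)).sum + (s.map (D 2)).sum +
      3 * (l * m mu) + 3 * (s.length * (L * tau)) := ⟨_, rfl⟩
  have hXle : w * X ≤ e * m mu := by
    have : X ≤ 3 * ((2 + a) * d * m mu) := by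
      have := b0 0; have := b0 1; have := b0 2
      linarith
    have := mul_le_mul_of_nonneg_left this (show 0 ≤ w by linarith)
    linarith
  obtain ⟨Y, hY⟩ : ∃ Y, Y = s.length * r := ⟨_, rfl⟩
  obtain ⟨Z, hZ⟩ : ∃ Z, Z = (s.map Psi).sum := ⟨_, rfl⟩
  rw [← hY] at hlr
  rw [← hZ] at h1 s5
  have h2 : q * (e * m mu) ≤ e * Z + q * X + q * (e * Y) := by
    rw [hX, hY]; linarith
  have h6 : ((j + 1 : ℕ) : ℝ) * (c1 / 2) * B * m mu = (j + 1) * (c1 / 2 * B * m mu) := by
    push_cast; ring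
  rw [h6]
  exact fin_arith (u := c1 / 2 * B * m mu) hj hw he0 hq0 (by positivity) (by rw [hq]; ring)
    h2 hXle hlr (by linarith)

lemma lev_all {c c1 : ℝ} (hc : 0 < c) (hc1 : 0 < c1) (j : ℕ) : ∃ K, 0 ≤ K ∧ Lev c c1 j K := by
  induction j with
  | zero =>
    refine ⟨0, le_rfl, ?_⟩
    intro A _ P m D Psi B l L tau H _ _ _ _ d mu _ hmu _ _
    simpa using H.Psi_nn mu hmu
  | succ j ih =>
    obtain ⟨K, hK, h⟩ := ih
    exact lev_step hc hc1 j K hK h

/-- The engine: a start measure of positive mass with small deficiencies cannot be heavy. -/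
theorem engine {c c1 : ℝ} (hc : 0 < c) (hc1 : 0 < c1) : ∃ K : ℝ, 0 ≤ K ∧
    ∀ (A : Type) [AddCommMonoid A] (P : A → Prop) (m : A → ℝ) (D : Fin 3 → A → ℝ)
      (Psi : A → ℝ) (B l L tau : ℝ), Hyp P m D Psi c c1 B l L tau → 0 < B → 0 ≤ l → 0 ≤ L →
      0 ≤ tau → ∀ (D0 : ℝ) (mu : A), 0 ≤ D0 → P mu → 0 < m mu → (∀ k, D k mu ≤ D0 * m mu) →
      m mu < tau * (L + 1) * Real.exp (K * (D0 + l + 1)) := by
  obtain ⟨J, hJ⟩ := exists_nat_gt (2 / c1)
  obtain ⟨K, hK, h⟩ := lev_all hc hc1 J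
  refine ⟨K, hK, ?_⟩
  intro A _ P m D Psi B l L tau H hB hl hL ht D0 mu hD0 hmu hm hD
  by_contra hcon
  have h1 := h A P m D Psi B l L tau H hB.le hl hL ht (D0 + l + 1) mu (by linarith) hmu
    (not_lt.mp hcon) (fun k => by
      have := hD k
      have : 0 ≤ (l + 1) * m mu := by positivity
      linarith)
  have h2 := H.Psi_le mu hmu
  have h3 : 1 < J * (c1 / 2) := by
    rw [div_lt_iff₀ hc1] at hJ
    linarith
  have h4 : 0 < B * m mu := mul_pos hB hm
  nlinarith

end Pool.Agent.MP_abd417_co.U.Eng
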