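import Mathlib

/-! The fine test at a complex place: definitions and statement. -/

namespace Pool.Agent.Lib.MP_abd417_co.U.Fine

open Matrix

abbrev V3 := Fin 3 → ℂ
abbrev M3 := Matrix (Fin 3) (Fin 3) ℂ

/-- Mean of `X` under the weights `ν`. -/
noncomputable def ex {Ω : Type} [Fintype Ω] (ν X : Ω → ℝ) : ℝ := ∑ g, ν g * X g

/-- `Cov (X, Y) - (Var X + Var Y) / 4` for weights of total mass one. -/
noncomputable def vv {Ω : Type} [Fintype Ω] (ν X Y : Ω → ℝ) : ℝ :=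
  ex ν (fun g => X g * Y g) - ex ν X * ex ν Y -
    ((ex ν (fun g => X g ^ 2) - ex ν X ^ 2) + (ex ν (fun g => Y g ^ 2) - ex ν Y ^ 2)) / 4

/-- `x (1 - x)` with `x` the square of the product of the rows `i + 1`. -/
noncomputable def theta (i : Fin 3) (A B : M3) : ℂ :=
  (A (i + 1) ⬝ᵥ B (i + 1)) ^ 2 * (1 - (A (i + 1) ⬝ᵥ B (i + 1)) ^ 2)

/-- A bounded test function of a unit vector, Lipschitz on bounded sets. -/
def Test (L : ℝ) (f : V3 → ℝ) : Prop :=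
  (∀ u : V3, u ⬝ᵥ u = 1 → |f u| ≤ 2) ∧
    ∀ (u u' : V3) (M : ℝ), u ⬝ᵥ u = 1 → u' ⬝ᵥ u' = 1 → ‖u‖ ≤ M → ‖u'‖ ≤ M →
      |f u - f u'| ≤ L * M * ‖u - u'‖

/-- Step 8: a concentrated law has negative mean `log |Θ|` or carries a fine test. -/
def FineSt : Prop :=
  ∀ C R : ℝ, ∃ γ L : ℝ, 0 < γ ∧ 0 ≤ L ∧
    ∀ (Ω : Type) [Fintype Ω] (ν d : Ω → ℝ) (G : Ω → M3) (π : Fin 3 → Ω → Ω → ℝ),
      (∀ g, 0 ≤ ν g) → ∑ g, ν g = 1 → (∀ g, G g * (G g)ᵀ = 1) →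
      (∀ g, 0 ≤ d g) → (∀ g a b, ‖G g a b‖ ≤ Real.exp (d g)) →
      ex ν d ≤ C → ex ν (fun g => if R < d g then d g else 0) ≤ 1 / 10000 →
      (∀ i g g', 0 ≤ π i g g') → (∀ i g, ∑ g', π i g g' ≤ ν g) →
      (∀ i g', ∑ g, π i g g' ≤ ν g') → (∀ i, 1 - γ ≤ ∑ g, ∑ g', π i g g') →
      (∀ i g g', π i g g' ≠ 0 → G g i = G g' i ∧ theta i (G g) (G g') ≠ 0) →
      (∑ i, ∑ g, ∑ g', π i g g' * Real.log ‖theta i (G g) (G g')‖ ≤ -1) ∨
        ∃ (i j : Fin 3) (f h : V3 → ℝ), i ≠ j ∧ Test L f ∧ Test L h ∧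
          γ ≤ vv ν (fun g => f (G g i)) (fun g => h (G g j))

/-- Hermitian norm square. -/
noncomputable def nn (u : V3) : ℝ := ∑ a, Complex.normSq (u a)

/-- `2 (p × q) / N` for `u = p + i q`. -/
noncomputable def av (u : V3) (c : Fin 3) : ℝ :=
  2 * ((u (c + 1)).re * (u (c + 2)).im - (u (c + 2)).re * (u (c + 1)).im) / nn u

/-- Real part of the projector on `u`. -/
noncomputable def sp (u : V3) (a b : Fin 3) : ℝ :=
  ((u a).re * (u b).re + (u a).im * (u b).im) / nn u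

/-- `a (u) · v`. -/
noncomputable def al (u v : V3) : ℂ := ∑ c, (av u c : ℂ) * v c

/-- The second order quantity of the axis `i`. -/
noncomputable def gg (A : M3) (i : Fin 3) : ℝ :=
  ∑ c, av (A i) c ^ 2 - Complex.normSq (al (A i) (A (i + 1))) / nn (A (i + 1)) -
    Complex.normSq (al (A i) (A (i + 2))) / nn (A (i + 2))

/-- Sum of the logarithms of the norms of the rows. -/
noncomputable def ph (A : M3) : ℝ := ∑ i, Real.log (nn (A i))

end Pool.Agent.Lib.MP_abd417_co.U.Fine
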