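import Pool.Agent.Lib.MP_abd417_co.Up.Cells
import Pool.Agent.Lib.MP_abd417_co.W.Defs
import Pool.Agent.Lib.MP_abd417_co.U.CycDefs
import Pool.Agent.Lib.MP_abd417_co.U.FineDefs

/-! From the fine test and the cells to the test of the cycle. -/

namespace Pool.Agent.Lib.MP_abd417_co.U.FBr

open Finset Matrix

/-- The property of the cells. -/
def CellP {F : Type} (G : F → Fine.M3) (c : F → F) (d : ℝ) : Prop :=
  ∀ k : Fine.M3, k * kᵀ = 1 → ∀ K : ℝ, 0 < K →
    ∃ Z : Finset F, Z.card ≤ Up.Cells.NN K d ∧ ∀ x, (∀ i j, ‖(G x * kᵀ) i j‖ ≤ K) →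
      c x ∈ Z ∧ ∀ i j, ‖(G x * kᵀ) i j - (G (c x) * kᵀ) i j‖ ≤ 18 * K * d

theorem exists_cellP {F : Type} [Fintype F] (G : F → Fine.M3) (hG : ∀ x, G x * (G x)ᵀ = 1)
    {d : ℝ} (hd : 0 < d) (hd1 : d ≤ 1) : ∃ c : F → F, CellP G c d :=
  Up.Cells.exists_cells G hG hd hd1

theorem dot_eq (A B : Fine.M3) (a b : Fin 3) : A a ⬝ᵥ B b = (A * Bᵀ) a b := by
  simp [Matrix.mul_apply, dotProduct]

theorem mul_mul (A B k : Fine.M3) (hk : k * kᵀ = 1) : (A * kᵀ) * (B * kᵀ)ᵀ = A * Bᵀ := by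
  have hk' : kᵀ * k = 1 := mul_eq_one_comm.1 hk
  rw [transpose_mul, transpose_transpose, Matrix.mul_assoc, ← Matrix.mul_assoc kᵀ, hk',
    Matrix.one_mul]

theorem theta_mul (i : Fin 3) (A B k : Fine.M3) (hk : k * kᵀ = 1) :
    Fine.theta i (A * kᵀ) (B * kᵀ) = Fine.theta i A B := by
  unfold Fine.theta
  rw [dot_eq, dot_eq A, mul_mul A B k hk]

variable {F U : Type} [Fintype F]

theorem pr_nonneg {nu : F → ℝ} (h : ∀ g, 0 ≤ nu g) (u : Fin 3 → F → U) (i : Fin 3) (g k : F) :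
    0 ≤ W.pr nu u i g k :=
  mul_nonneg (W.ind_nonneg _) (div_nonneg (mul_nonneg (h g) (h k))
    (sum_nonneg fun x _ => mul_nonneg (h x) (W.ind_nonneg _)))

theorem pr_symm (nu : F → ℝ) (u : Fin 3 → F → U) (i : Fin 3) (g k : F) :
    W.pr nu u i g k = W.pr nu u i k g := by
  unfold W.pr
  by_cases h : u i k = u i g
  · rw [W.ind_pos h, W.ind_pos h.symm, h, mul_comm (nu g)]
  · rw [W.ind_neg h, W.ind_neg (Ne.symm h), zero_mul, zero_mul]

theorem pr_row {nu : F → ℝ} (h : ∀ g, 0 ≤ nu g) (u : Fin 3 → F → U) (i : Fin 3) (g : F) :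
    ∑ k, W.pr nu u i g k = nu g := by
  have h1 : ∑ k, W.pr nu u i g k
      = nu g / W.ms nu (fun x => u i x = u i g) * W.ms nu (fun x => u i x = u i g) := by
    conv_rhs => rw [W.ms, mul_sum]
    refine sum_congr rfl fun k _ => ?_
    unfold W.pr W.ms
    ring
  rw [h1]
  by_cases h0 : W.ms nu (fun x => u i x = u i g) = 0
  · have h2 := (sum_eq_zero_iff_of_nonneg (fun x _ => mul_nonneg (h x)
      (W.ind_nonneg (u i x = u i g)))).1 h0 g (mem_univ g)
    rw [W.ind_pos rfl, mul_one] at h2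
    rw [h0, mul_zero, h2]
  · exact div_mul_cancel₀ _ h0

theorem vn_eq (μ f h : F → ℝ) (hm : 0 < ∑ g, μ g) :
    Cy.Vn μ (fun g => f g / 2) (fun g => h g / 2)
      = (∑ g, μ g) * Fine.vv (fun g => μ g / ∑ g, μ g) f h / 4 := by
  have e1 : ∀ X : F → ℝ, Fine.ex (fun g => μ g / ∑ g, μ g) X = (∑ g, μ g * X g) / ∑ g, μ g := by
    intro X
    unfold Fine.ex
    rw [sum_div]
    exact sum_congr rfl fun g _ => by ring
  have e2 : ∀ X : F → ℝ, ∑ g, μ g * (X g / 2) = (∑ g, μ g * X g) / 2 := by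
    intro X
    rw [sum_div]
    exact sum_congr rfl fun g _ => by ring
  have e3 : ∀ X Y : F → ℝ, ∑ g, μ g * (X g / 2 * (Y g / 2)) = (∑ g, μ g * (X g * Y g)) / 4 := by
    intro X Y
    rw [sum_div]
    exact sum_congr rfl fun g _ => by ring
  unfold Cy.Vn Cy.Vr Cy.Cv Fine.vv
  simp only [e1, e2, e3, pow_two]
  generalize ∑ g, μ g * (f g * h g) = a1
  generalize ∑ g, μ g * (f g * f g) = a2
  generalize ∑ g, μ g * (h g * h g) = a3
  generalize ∑ g, μ g * f g = a4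
  generalize ∑ g, μ g * h g = a5
  generalize ∑ g, μ g = m at hm
  field_simp
  ring

theorem vn_symm (μ f h : F → ℝ) : Cy.Vn μ f h = Cy.Vn μ h f := by
  unfold Cy.Vn Cy.Vr Cy.Cv
  have : ∑ g, μ g * (f g * h g) = ∑ g, μ g * (h g * f g) :=
    sum_congr rfl fun g _ => by ring
  rw [this]; ring

open Classical in
/-- Half of a test function, extended by zero off the unit vectors. -/
noncomputable def half (f : Fine.V3 → ℝ) (u : Fine.V3) : ℝ := if u ⬝ᵥ u = 1 then f u / 2 else 0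

theorem half_eq (f : Fine.V3 → ℝ) {u : Fine.V3} (h : u ⬝ᵥ u = 1) : half f u = f u / 2 := by
  unfold half; rw [if_pos h]

theorem half_le {L : ℝ} {f : Fine.V3 → ℝ} (hf : Fine.Test L f) (u : Fine.V3) : |half f u| ≤ 1 := by
  by_cases h : u ⬝ᵥ u = 1
  · rw [half_eq f h, abs_div, abs_two]
    have := hf.1 u h
    linarith
  · unfold half; rw [if_neg h]; simp

theorem row_unit {A : Fine.M3} (hA : A * Aᵀ = 1) (i : Fin 3) : A i ⬝ᵥ A i = 1 := by
  rw [dot_eq, hA, Matrix.one_apply_eq]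

open Classical in
theorem approx {L K δ e D C γ : ℝ} {f : Fine.V3 → ℝ} (hf : Fine.Test L f) (hL : 0 ≤ L)
    (A : F → Fine.M3) (hA : ∀ g, A g * (A g)ᵀ = 1) (cl : F → F) (Z : Finset F) (μ d : F → ℝ)
    (hμ : ∀ g, 0 ≤ μ g) (hd : ∀ g, 0 ≤ d g) (hAd : ∀ g a b, ‖A g a b‖ ≤ Real.exp (d g))
    (hK : K = Real.exp D) (hD : 0 < D) (hδ : 0 < δ) (hδ1 : δ ≤ 1)
    (hZ : ∀ x, (∀ i j, ‖A x i j‖ ≤ K) → cl x ∈ Z ∧ ∀ i j, ‖A x i j - A (cl x) i j‖ ≤ 18 * K * δ)
    (he : 171 * L * K ^ 2 * δ ≤ e) (he2 : e ^ 2 ≤ γ / 8) (hC : 4 * C ≤ γ / 8 * D)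
    (hE : ∑ g, μ g * d g ≤ C * ∑ g, μ g) (i : Fin 3) :
    ∑ g, μ g * (half f (A g i) - if cl g ∈ Z then half f (A (cl g) i) else 0) ^ 2
      ≤ γ / 4 * ∑ g, μ g := by
  have hK0 : 0 < K := hK ▸ Real.exp_pos D
  have h1 := Up.Cells.l2_cells cl Z (fun g => d g ≤ D) (fun g => half f (A g i)) 1 e
    (fun g => half_le hf _) (fun g hg => by
      have hb : ∀ a b, ‖A g a b‖ ≤ K := fun a b =>
        (hAd g a b).trans (hK ▸ Real.exp_le_exp.2 hg)
      obtain ⟨h2, h3⟩ := hZ g hb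
      refine ⟨h2, ?_⟩
      have n1 : ‖A g i‖ ≤ 19 * K :=
        (pi_norm_le_iff_of_nonneg (by positivity)).2 fun b => (hb i b).trans (by linarith)
      have n2 : ‖A (cl g) i‖ ≤ 19 * K :=
        (pi_norm_le_iff_of_nonneg (by positivity)).2 fun b => by
          have h4 : ‖A (cl g) i b‖ ≤ ‖A g i b‖ + ‖A g i b - A (cl g) i b‖ := by
            have := norm_sub_le (A g i b) (A g i b - A (cl g) i b)
            simpa using this
          have h5 := hb i b
          have h6 := h3 i b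
          nlinarith
      have n3 : ‖A g i - A (cl g) i‖ ≤ 18 * K * δ :=
        (pi_norm_le_iff_of_nonneg (by positivity)).2 fun b => h3 i b
      have h7 := hf.2 _ _ _ (row_unit (hA g) i) (row_unit (hA (cl g)) i) n1 n2
      have h8 : L * (19 * K) * ‖A g i - A (cl g) i‖ ≤ L * (19 * K) * (18 * K * δ) :=
        mul_le_mul_of_nonneg_left n3 (by positivity)
      rw [half_eq f (row_unit (hA g) i), half_eq f (row_unit (hA (cl g)) i), ← sub_div, abs_div,
        abs_two]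
      nlinarith) hμ
  have hm : 0 ≤ ∑ g, μ g := sum_nonneg fun g _ => hμ g
  have h2 : D * ∑ g, (if d g ≤ D then 0 else μ g) ≤ ∑ g, μ g * d g := by
    rw [mul_sum]
    refine sum_le_sum fun g _ => ?_
    split_ifs with h
    · rw [mul_zero]; exact mul_nonneg (hμ g) (hd g)
    · have := hμ g
      nlinarith [not_le.1 h]
  have h3 : 4 * ∑ g, (if d g ≤ D then 0 else μ g) ≤ γ / 8 * ∑ g, μ g := by
    refine le_of_mul_le_mul_left ?_ hD
    nlinarith [mul_le_mul_of_nonneg_right hC hm]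
  have h4 := mul_le_mul_of_nonneg_right he2 hm
  have h5 : ∑ g, μ g * (half f (A g i) - if cl g ∈ Z then half f (A (cl g) i) else 0) ^ 2
      ≤ e ^ 2 * ∑ x, μ x + 4 * 1 ^ 2 * ∑ g, (if d g ≤ D then 0 else μ g) := by
    convert h1
  linarith

/-- The bridge. -/
theorem bridge (hF : Fine.FineSt) (C R : ℝ) :
    ∃ γ Nc δ : ℝ, 0 < γ ∧ 0 ≤ Nc ∧ 0 < δ ∧ δ ≤ 1 ∧
      ∀ (F U : Type) [Fintype F] (ax : Fin 3 → F → U) (x : U → Fin 3 → ℂ) (G : F → Fine.M3)
        (cl : F → F) (μ d : F → ℝ) (k : Fine.M3),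
        (∀ g i, G g i = x (ax i g)) → (∀ g, G g * (G g)ᵀ = 1) → CellP G cl δ →
        (∀ g, 0 ≤ μ g) → 0 < ∑ g, μ g → k * kᵀ = 1 → (∀ g, 0 ≤ d g) →
        (∀ g a b, ‖(G g * kᵀ) a b‖ ≤ Real.exp (d g)) →
        ∑ g, μ g / (∑ g, μ g) * d g ≤ C →
        ∑ g, μ g / (∑ g, μ g) * (if R < d g then d g else 0) ≤ 1 / 10000 →
        (∀ i, ∑ g, W.pr (fun g => μ g / ∑ g, μ g) ax i g g ≤ γ) →
        (∀ i g h, ax i h = ax i g → g ≠ h → Fine.theta i (G g) (G h) ≠ 0) →
        W.EL (fun g => μ g / ∑ g, μ g) ax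
            (fun i g h => Real.log ‖Fine.theta i (G g) (G h)‖) ≤ -1 ∨
          ∃ p, Cy.Fine ax cl μ γ Nc p := by
  classical
  obtain ⟨γ0, L, hγ0, hL, H⟩ := hF C R
  set γ := γ0 / 4 with hγ
  have hγp : 0 < γ := by positivity
  set D := 32 * (|C| + 1) / γ with hD
  have hDp : 0 < D := by positivity
  set K := Real.exp D with hK
  have hK0 : 0 < K := Real.exp_pos D
  set e := min 1 (γ / 8) with he
  have hep : 0 < e := lt_min one_pos (by positivity)
  set δ := min 1 (e / (171 * (L + 1) * K ^ 2)) with hδ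
  have hδp : 0 < δ := lt_min one_pos (by positivity)
  have hδe : 171 * L * K ^ 2 * δ ≤ e := by
    have h1 : δ ≤ e / (171 * (L + 1) * K ^ 2) := min_le_right _ _
    rw [le_div_iff₀ (by positivity)] at h1
    nlinarith [mul_pos (pow_pos hK0 2) hδp]
  have he2 : e ^ 2 ≤ γ / 8 := by
    have h1 : e ≤ 1 := min_le_left _ _
    have h2 : e ≤ γ / 8 := min_le_right _ _
    nlinarith
  have hCD : 4 * C ≤ γ / 8 * D := by
    have h1 : γ / 8 * D = 4 * (|C| + 1) := by rw [hD]; field_simp; ring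
    have := le_abs_self C
    linarith
  refine ⟨γ, Up.Cells.NN K δ, δ, hγp, Nat.cast_nonneg _, hδp, min_le_left _ _, ?_⟩
  intro F U _ ax x G cl μ d k hx hG hcl hμ hm hk hd hGd hE hT hdiag hth
  set ν : F → ℝ := fun g => μ g / ∑ g, μ g with hν
  have hν0 : ∀ g, 0 ≤ ν g := fun g => div_nonneg (hμ g) hm.le
  have hν1 : ∑ g, ν g = 1 := by
    simp only [hν]; rw [← sum_div, div_self hm.ne']
  have hA : ∀ g, G g * kᵀ * (G g * kᵀ)ᵀ = 1 := fun g => by rw [mul_mul _ _ _ hk, hG]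
  have hrow : ∀ g i, (G g * kᵀ) i = x (ax i g) ᵥ* kᵀ := fun g i => by
    rw [← hx]; rfl
  have hle : ∀ i g h, W.pr ν ax i g h * W.ind (g ≠ h) ≤ W.pr ν ax i g h := fun i g h =>
    mul_le_of_le_one_right (pr_nonneg hν0 ax i g h) (W.ind_le_one _)
  have H1 := H F ν d (fun g => G g * kᵀ) (fun i g h => W.pr ν ax i g h * W.ind (g ≠ h)) hν0 hν1
    hA hd hGd hE hT (fun i g h => mul_nonneg (pr_nonneg hν0 ax i g h) (W.ind_nonneg _))
    (fun i g => (sum_le_sum fun h _ => hle i g h).trans (pr_row hν0 ax i g).le)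
    (fun i h => (sum_le_sum fun g _ => (hle i g h).trans (pr_symm ν ax i g h).le).trans
      (pr_row hν0 ax i h).le)
    (fun i => by
      have h1 : ∀ g, ∑ h, W.pr ν ax i g h * W.ind (g ≠ h) = ν g - W.pr ν ax i g g := by
        intro g
        rw [← pr_row hν0 ax i g, ← add_sum_erase univ _ (mem_univ g),
          ← add_sum_erase univ (fun h => W.pr ν ax i g h) (mem_univ g),
          W.ind_neg (fun h => h rfl), mul_zero, zero_add, add_sub_cancel_left]
        exact sum_congr rfl fun h hh => by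
          rw [W.ind_pos (mem_erase.1 hh).1.symm, mul_one]
      simp only [h1]
      rw [sum_sub_distrib, hν1]
      have := hdiag i
      linarith)
    (fun i g h hne => by
      have h1 : g ≠ h := fun hh => hne (by rw [W.ind_neg (fun h' => h' hh), mul_zero])
      have h2 : ax i h = ax i g := by
        by_contra hh
        exact hne (by unfold W.pr; rw [W.ind_neg hh, zero_mul, zero_mul])
      exact ⟨by rw [hrow, hrow, h2], by rw [theta_mul _ _ _ _ hk]; exact hth i g h h2 h1⟩)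
  rcases H1 with H1 | ⟨i, j, f, h, hij, hf, hh, hV⟩
  · left
    unfold W.EL
    refine le_trans (le_of_eq ?_) H1
    refine sum_congr rfl fun i _ => sum_congr rfl fun g _ => sum_congr rfl fun h _ => ?_
    rw [theta_mul _ _ _ _ hk, mul_assoc]
  · right
    obtain ⟨Z, hZc, hZ⟩ := hcl k hk K hK0
    have hE' : ∑ g, μ g * d g ≤ C * ∑ g, μ g := by
      rw [← div_le_iff₀ hm, sum_div]
      exact le_trans (le_of_eq (sum_congr rfl fun g _ => by ring)) hE
    have key : ∀ (i j p : Fin 3) (f h : Fine.V3 → ℝ), i = p + 1 → j = p + 2 → Fine.Test L f →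
        Fine.Test L h → γ * ∑ g, μ g ≤ Cy.Vn μ (fun g => f ((G g * kᵀ) i) / 2)
          (fun g => h ((G g * kᵀ) j) / 2) → Cy.Fine ax cl μ γ (Up.Cells.NN K δ) p := by
      intro i j p f h hi hj hf hh hV
      subst hi hj
      refine ⟨fun a => half f (x a ᵥ* kᵀ), fun a => half h (x a ᵥ* kᵀ), Z,
        fun c => half f ((G c * kᵀ) (p + 1)), fun c => half h ((G c * kᵀ) (p + 2)),
        fun a => half_le hf _, fun a => half_le hh _, fun c => half_le hf _,
        fun c => half_le hh _, by exact_mod_cast hZc, ?_, ?_, ?_⟩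
      · simp only [← hrow, half_eq _ (row_unit (hA _) _)]
        exact hV
      · have := approx hf hL (fun g => G g * kᵀ) hA cl Z μ d hμ hd hGd hK hDp hδp
          (min_le_left _ _) hZ hδe he2 hCD hE' (p + 1)
        simp only [← hrow]
        convert this
      · have := approx hh hL (fun g => G g * kᵀ) hA cl Z μ d hμ hd hGd hK hDp hδp
          (min_le_left _ _) hZ hδe he2 hCD hE' (p + 2)
        simp only [← hrow]
        convert this
    have hV' : γ * ∑ g, μ g ≤ Cy.Vn μ (fun g => f ((G g * kᵀ) i) / 2)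
        (fun g => h ((G g * kᵀ) j) / 2) := by
      rw [vn_eq μ _ _ hm]
      have := mul_le_mul_of_nonneg_left hV hm.le
      rw [hγ]
      linarith
    have hp : ∀ i j : Fin 3, i ≠ j → (∃ p, i = p + 1 ∧ j = p + 2) ∨ ∃ p, j = p + 1 ∧ i = p + 2 := by
      decide
    rcases hp i j hij with ⟨p, h1, h2⟩ | ⟨p, h1, h2⟩
    · exact ⟨p, key i j p f h h1 h2 hf hh hV'⟩
    · exact ⟨p, key j i p h f h1 h2 hh hf (by rw [vn_symm]; exact hV')⟩

end Pool.Agent.Lib.MP_abd417_co.U.FBr
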