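import Pool.Agent.Lib.MP_abd417_co.U.FineSt

/-! The fine test: bounds and Lipschitz constants of the test functions. -/

namespace Pool.Agent.Lib.MP_abd417_co.U.Fine

open Matrix Finset

theorem lip_one_le {u : V3} (h : u ⬝ᵥ u = 1) : 1 ≤ nn u := by
  have h1 : ‖u ⬝ᵥ u‖ ≤ ∑ j, ‖u j * u j‖ := norm_sum_le _ _
  rw [h, norm_one] at h1
  refine h1.trans (le_of_eq (sum_congr rfl fun j _ => ?_))
  rw [norm_mul, Complex.normSq_eq_norm_sq, sq]

theorem lip_norm_le (w : V3) (a : Fin 3) : ‖w a‖ ≤ Real.sqrt (nn w) := by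
  refine Real.le_sqrt_of_sq_le ?_
  rw [← Complex.normSq_eq_norm_sq]
  exact single_le_sum (f := fun a => Complex.normSq (w a)) (fun a _ => Complex.normSq_nonneg _)
    (mem_univ a)

/-- normalised coordinate -/
noncomputable def lipX (w : V3) (a : Fin 3) : ℂ := w a / (Real.sqrt (nn w) : ℂ)

theorem lipX_le {w : V3} (h : 1 ≤ nn w) (a : Fin 3) : ‖lipX w a‖ ≤ 1 := by
  have hr : 0 < Real.sqrt (nn w) := Real.sqrt_pos.2 (by linarith)
  unfold lipX
  rw [norm_div, Complex.norm_real, Real.norm_eq_abs, abs_of_pos hr, div_le_one hr]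
  exact lip_norm_le w a

theorem lip_sqrt {w w' : V3} (h : 1 ≤ nn w) (h' : 1 ≤ nn w') {s : ℝ}
    (hs : ∀ a, ‖w a - w' a‖ ≤ s) : |Real.sqrt (nn w) - Real.sqrt (nn w')| ≤ 3 * s := by
  have hs0 : 0 ≤ s := (norm_nonneg _).trans (hs 0)
  obtain ⟨r, hr⟩ : ∃ r, r = Real.sqrt (nn w) := ⟨_, rfl⟩
  obtain ⟨r', hr'⟩ : ∃ r, r = Real.sqrt (nn w') := ⟨_, rfl⟩
  have h1 : 0 < r := hr ▸ Real.sqrt_pos.2 (by linarith)
  have h1' : 0 < r' := hr' ▸ Real.sqrt_pos.2 (by linarith)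
  have h2 : r * r = nn w := hr ▸ Real.mul_self_sqrt (by linarith)
  have h2' : r' * r' = nn w' := hr' ▸ Real.mul_self_sqrt (by linarith)
  have h3 : ∀ a, |Complex.normSq (w a) - Complex.normSq (w' a)| ≤ s * (r + r') := fun a => by
    have e : Complex.normSq (w a) - Complex.normSq (w' a)
        = (‖w a‖ - ‖w' a‖) * (‖w a‖ + ‖w' a‖) := by
      rw [Complex.normSq_eq_norm_sq, Complex.normSq_eq_norm_sq]; ring
    have h4 : ‖w a‖ ≤ r := hr ▸ lip_norm_le w a
    have h5 : ‖w' a‖ ≤ r' := hr' ▸ lip_norm_le w' a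
    have h6 : 0 ≤ ‖w a‖ + ‖w' a‖ := add_nonneg (norm_nonneg _) (norm_nonneg _)
    rw [e, abs_mul, abs_of_nonneg h6]
    exact mul_le_mul ((abs_norm_sub_norm_le _ _).trans (hs a)) (by linarith) h6 hs0
  have h7 : |nn w - nn w'| ≤ 3 * (s * (r + r')) := by
    have e : nn w - nn w' = (Complex.normSq (w 0) - Complex.normSq (w' 0))
        + (Complex.normSq (w 1) - Complex.normSq (w' 1))
        + (Complex.normSq (w 2) - Complex.normSq (w' 2)) := by
      unfold nn; rw [Fin.sum_univ_three, Fin.sum_univ_three]; ring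
    have a0 := abs_le.1 (h3 0)
    have a1 := abs_le.1 (h3 1)
    have a2 := abs_le.1 (h3 2)
    rw [e, abs_le]; constructor <;> linarith [a0.1, a0.2, a1.1, a1.2, a2.1, a2.2]
  have e : nn w - nn w' = (r - r') * (r + r') := by rw [← h2, ← h2']; ring
  have h8 : 0 < r + r' := by linarith
  rw [e, abs_mul, abs_of_pos h8] at h7
  rw [← hr, ← hr']
  refine le_of_mul_le_mul_right ?_ h8
  linarith

theorem lipX_sub {w w' : V3} (h : 1 ≤ nn w) (h' : 1 ≤ nn w') {s : ℝ}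
    (hs : ∀ a, ‖w a - w' a‖ ≤ s) (a : Fin 3) : ‖lipX w a - lipX w' a‖ ≤ 4 * s := by
  have hs0 : 0 ≤ s := (norm_nonneg _).trans (hs 0)
  have h0 := lip_sqrt h h' hs
  have hx := lipX_le h' a
  have h1 : 1 ≤ Real.sqrt (nn w) := Real.le_sqrt_of_sq_le (by simpa using h)
  have h1' : 1 ≤ Real.sqrt (nn w') := Real.le_sqrt_of_sq_le (by simpa using h')
  have hc : (Real.sqrt (nn w) : ℂ) ≠ 0 := by
    exact_mod_cast (by linarith : Real.sqrt (nn w) ≠ 0)
  have hc' : (Real.sqrt (nn w') : ℂ) ≠ 0 := by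
    exact_mod_cast (by linarith : Real.sqrt (nn w') ≠ 0)
  have e : lipX w a - lipX w' a = ((w a - w' a)
      - lipX w' a * ((Real.sqrt (nn w) - Real.sqrt (nn w') : ℝ) : ℂ)) / (Real.sqrt (nn w) : ℂ) := by
    unfold lipX
    push_cast
    field_simp
    ring
  have h2 : ‖(w a - w' a) - lipX w' a * ((Real.sqrt (nn w) - Real.sqrt (nn w') : ℝ) : ℂ)‖
      ≤ 4 * s := by
    refine (norm_sub_le _ _).trans ?_
    rw [norm_mul, Complex.norm_real, Real.norm_eq_abs]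
    have := mul_le_mul hx h0 (abs_nonneg _) zero_le_one
    linarith [hs a]
  rw [e, norm_div, Complex.norm_real, Real.norm_eq_abs, abs_of_pos (by linarith),
    div_le_iff₀ (by linarith)]
  nlinarith

/-- entry of the projector -/
noncomputable def lipP (w : V3) (a b : Fin 3) : ℂ := lipX w a * (starRingEnd ℂ) (lipX w b)

theorem lipP_eq {w : V3} (h : 1 ≤ nn w) (a b : Fin 3) :
    lipP w a b = w a * (starRingEnd ℂ) (w b) / (nn w : ℂ) := by
  have h2 : ((Real.sqrt (nn w) : ℂ)) * (Real.sqrt (nn w) : ℂ) = (nn w : ℂ) := by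
    exact_mod_cast Real.mul_self_sqrt (by linarith : 0 ≤ nn w)
  unfold lipP lipX
  rw [map_div₀, Complex.conj_ofReal, div_mul_div_comm, h2]

theorem lip_sp_eq {w : V3} (h : 1 ≤ nn w) (a b : Fin 3) : sp w a b = (lipP w a b).re := by
  rw [lipP_eq h, Complex.div_ofReal_re]
  unfold sp
  simp

theorem lip_av_eq {w : V3} (h : 1 ≤ nn w) (c : Fin 3) :
    av w c = 2 * (lipP w (c + 2) (c + 1)).im := by
  rw [lipP_eq h, Complex.div_ofReal_im]
  unfold av
  simp only [Complex.mul_im, Complex.conj_re, Complex.conj_im]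
  ring

theorem lipP_le {w : V3} (h : 1 ≤ nn w) (a b : Fin 3) : ‖lipP w a b‖ ≤ 1 := by
  unfold lipP
  rw [norm_mul, Complex.norm_conj]
  exact mul_le_one₀ (lipX_le h a) (norm_nonneg _) (lipX_le h b)

theorem lipP_sub {w w' : V3} (h : 1 ≤ nn w) (h' : 1 ≤ nn w') {s : ℝ}
    (hs : ∀ a, ‖w a - w' a‖ ≤ s) (a b : Fin 3) : ‖lipP w a b - lipP w' a b‖ ≤ 8 * s := by
  have e : lipP w a b - lipP w' a b = (lipX w a - lipX w' a) * (starRingEnd ℂ) (lipX w b)
      + lipX w' a * (starRingEnd ℂ) (lipX w b - lipX w' b) := by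
    unfold lipP; rw [map_sub]; ring
  rw [e]
  refine (norm_add_le _ _).trans ?_
  rw [norm_mul, norm_mul, Complex.norm_conj, Complex.norm_conj]
  have h1 := lipX_sub h h' hs a
  have h2 := lipX_sub h h' hs b
  have h3 := mul_le_mul h1 (lipX_le h b) (norm_nonneg _) ((norm_nonneg _).trans h1)
  have h4 := mul_le_mul (lipX_le h' a) h2 (norm_nonneg _) zero_le_one
  linarith

theorem lip_sp_le {w : V3} (h : 1 ≤ nn w) (a b : Fin 3) : |sp w a b| ≤ 1 := by
  rw [lip_sp_eq h]; exact (Complex.abs_re_le_norm _).trans (lipP_le h a b)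

theorem lip_av_le {w : V3} (h : 1 ≤ nn w) (c : Fin 3) : |av w c| ≤ 1 := by
  have h0 : 0 < nn w := by linarith
  have h1 : Complex.normSq (w (c + 1)) + Complex.normSq (w (c + 2)) ≤ nn w := by
    unfold nn
    rw [Fin.sum_univ_three]
    have a0 := Complex.normSq_nonneg (w 0)
    have a1 := Complex.normSq_nonneg (w 1)
    have a2 := Complex.normSq_nonneg (w 2)
    fin_cases c <;> simp <;> linarith
  rw [Complex.normSq_apply, Complex.normSq_apply] at h1
  unfold av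
  rw [abs_div, abs_of_pos h0, div_le_one h0, abs_le]
  constructor
  · nlinarith [sq_nonneg ((w (c + 1)).re + (w (c + 2)).im), sq_nonneg ((w (c + 2)).re - (w (c + 1)).im)]
  · nlinarith [sq_nonneg ((w (c + 1)).re - (w (c + 2)).im), sq_nonneg ((w (c + 2)).re + (w (c + 1)).im)]

theorem lip_sp_sub {w w' : V3} (h : 1 ≤ nn w) (h' : 1 ≤ nn w') {s : ℝ}
    (hs : ∀ a, ‖w a - w' a‖ ≤ s) (a b : Fin 3) : |sp w a b - sp w' a b| ≤ 8 * s := by
  rw [lip_sp_eq h, lip_sp_eq h', ← Complex.sub_re]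
  exact (Complex.abs_re_le_norm _).trans (lipP_sub h h' hs a b)

theorem lip_av_sub {w w' : V3} (h : 1 ≤ nn w) (h' : 1 ≤ nn w') {s : ℝ}
    (hs : ∀ a, ‖w a - w' a‖ ≤ s) (c : Fin 3) : |av w c - av w' c| ≤ 16 * s := by
  rw [lip_av_eq h, lip_av_eq h', ← mul_sub, ← Complex.sub_im, abs_mul, abs_two]
  have := (Complex.abs_im_le_norm _).trans (lipP_sub h h' hs (c + 2) (c + 1))
  linarith

theorem lip_unit {k : M3} (hk : k * kᵀ = 1) {u : V3} (hu : u ⬝ᵥ u = 1) : 1 ≤ nn (k *ᵥ u) := by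
  have hk' : kᵀ * k = 1 := mul_eq_one_comm.1 hk
  refine lip_one_le ?_
  rw [dotProduct_mulVec, vecMul_mulVec, hk', vecMul_one, hu]

theorem lip_half {u : V3} (hu : u ⬝ᵥ u = 1) {M : ℝ} (hM : ‖u‖ ≤ M) : 1 ≤ 2 * M := by
  have h1 := lip_one_le hu
  have h2 : ∀ a, Complex.normSq (u a) ≤ M ^ 2 := fun a => by
    rw [Complex.normSq_eq_norm_sq]
    exact pow_le_pow_left₀ (norm_nonneg _) ((norm_le_pi_norm u a).trans hM) 2
  have h3 : 0 ≤ M := (norm_nonneg _).trans hM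
  unfold nn at h1
  rw [Fin.sum_univ_three] at h1
  have a0 := h2 0
  have a1 := h2 1
  have a2 := h2 2
  nlinarith

theorem lip_mv {k : M3} {D : ℝ} (hD : ∀ a b, ‖k a b‖ ≤ D) (u u' : V3) (a : Fin 3) :
    ‖(k *ᵥ u) a - (k *ᵥ u') a‖ ≤ 3 * |D| * ‖u - u'‖ := by
  have e : (k *ᵥ u) a - (k *ᵥ u') a = ∑ b, k a b * (u - u') b := by
    rw [← Pi.sub_apply, ← mulVec_sub]; rfl
  have h1 : ∀ b, ‖k a b * (u - u') b‖ ≤ |D| * ‖u - u'‖ := fun b => by
    rw [norm_mul]
    exact mul_le_mul ((hD a b).trans (le_abs_self D)) (norm_le_pi_norm _ b) (norm_nonneg _)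
      (abs_nonneg _)
  rw [e]
  refine (norm_sum_le _ _).trans ?_
  rw [Fin.sum_univ_three]
  linarith [h1 0, h1 1, h1 2]

theorem lip_ok : LipSt := by
  intro D
  refine ⟨240 * |D|, by positivity, fun k t hk hD ht0 ht1 a b => ?_⟩
  have fin : ∀ (u u' : V3) (M x : ℝ), u ⬝ᵥ u = 1 → ‖u‖ ≤ M →
      x ≤ 40 * (3 * |D| * ‖u - u'‖) → x ≤ 240 * |D| * M * ‖u - u'‖ := fun u u' M x hu hM hx => by
    have h1 := lip_half hu hM
    have h2 : 0 ≤ |D| * ‖u - u'‖ := mul_nonneg (abs_nonneg _) (norm_nonneg _)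
    nlinarith [mul_le_mul_of_nonneg_left h1 h2]
  have pos : ∀ u u' : V3, 0 ≤ 3 * |D| * ‖u - u'‖ := fun u u' => by positivity
  refine ⟨⟨fun u hu => ?_, fun u u' M hu hu' hM _ => fin u u' M _ hu hM ?_⟩,
    ⟨fun u hu => ?_, fun u u' M hu hu' hM _ => fin u u' M _ hu hM ?_⟩,
    ⟨fun u hu => ?_, fun u u' M hu hu' hM _ => fin u u' M _ hu hM ?_⟩⟩
  · have h := lip_unit hk hu
    have h1 := lip_sp_le h a b
    have h2 : |t * (av (k *ᵥ u) a * av (k *ᵥ u) b)| ≤ 1 := by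
      rw [abs_mul, abs_mul, abs_of_nonneg ht0]
      exact mul_le_one₀ ht1 (mul_nonneg (abs_nonneg _) (abs_nonneg _))
        (mul_le_one₀ (lip_av_le h a) (abs_nonneg _) (lip_av_le h b))
    unfold fS
    exact (abs_add_le _ _).trans (by linarith)
  · have h := lip_unit hk hu
    have h' := lip_unit hk hu'
    have hs := lip_mv hD u u'
    have h1 := lip_sp_sub h h' hs a b
    have h2 := lip_av_sub h h' hs a
    have h3 := lip_av_sub h h' hs b
    have e : fS t a b (k *ᵥ u) - fS t a b (k *ᵥ u') = (sp (k *ᵥ u) a b - sp (k *ᵥ u') a b)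
        + t * ((av (k *ᵥ u) a - av (k *ᵥ u') a) * av (k *ᵥ u) b
          + av (k *ᵥ u') a * (av (k *ᵥ u) b - av (k *ᵥ u') b)) := by unfold fS; ring
    have h4 : |(av (k *ᵥ u) a - av (k *ᵥ u') a) * av (k *ᵥ u) b
          + av (k *ᵥ u') a * (av (k *ᵥ u) b - av (k *ᵥ u') b)| ≤ 32 * (3 * |D| * ‖u - u'‖) := by
      refine (abs_add_le _ _).trans ?_
      rw [abs_mul, abs_mul]
      have h5 := mul_le_mul h2 (lip_av_le h b) (abs_nonneg _) ((abs_nonneg _).trans h2)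
      have h6 := mul_le_mul (lip_av_le h' a) h3 (abs_nonneg _) zero_le_one
      linarith
    show |fS t a b (k *ᵥ u) - fS t a b (k *ᵥ u')| ≤ _
    rw [e]
    refine (abs_add_le _ _).trans ?_
    rw [abs_mul t, abs_of_nonneg ht0]
    have h7 := mul_le_mul ht1 h4 (abs_nonneg _) zero_le_one
    linarith
  · have h1 := lip_sp_le (lip_unit hk hu) a b
    show |hS a b (k *ᵥ u)| ≤ 2
    unfold hS
    rw [abs_neg]; linarith
  · have h1 := lip_sp_sub (lip_unit hk hu) (lip_unit hk hu') (lip_mv hD u u') a b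
    show |hS a b (k *ᵥ u) - hS a b (k *ᵥ u')| ≤ _
    unfold hS
    rw [neg_sub_neg, abs_sub_comm]
    linarith [pos u u']
  · have h1 := lip_av_le (lip_unit hk hu) a
    show |av (k *ᵥ u) a| ≤ 2
    linarith
  · have h1 := lip_av_sub (lip_unit hk hu) (lip_unit hk hu') (lip_mv hD u u') a
    show |av (k *ᵥ u) a - av (k *ᵥ u') a| ≤ _
    linarith [pos u u']

end Pool.Agent.Lib.MP_abd417_co.U.Fine
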