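import Pool.Agent.Lib.MP_abd417_co.U.FineDefs

/-! The fine test: statements of the parts. -/

namespace Pool.Agent.Lib.MP_abd417_co.U.Fine

open Matrix

/-- First test function of the symmetric kind. -/
noncomputable def fS (t : ℝ) (a b : Fin 3) (u : V3) : ℝ := sp u a b + t * (av u a * av u b)

/-- Second test function of the symmetric kind. -/
noncomputable def hS (a b : Fin 3) (u : V3) : ℝ := -sp u a b

/-- The six pair sum. -/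
def SumSt : Prop :=
  ∀ (Ω : Type) [Fintype Ω] (ν : Ω → ℝ) (G : Ω → M3) (t γ : ℝ),
    (∀ g, 0 ≤ ν g) → ∑ g, ν g = 1 → (∀ g, G g * (G g)ᵀ = 1) → 0 ≤ t → t ≤ 1 →
    (∀ c, ex ν (fun g => ∑ i, av (G g i) c) = 0) →
    (∀ i j a b, i ≠ j → vv ν (fun g => fS t a b (G g i)) (fun g => hS a b (G g j)) ≤ γ) →
    (∀ i j c, i ≠ j → vv ν (fun g => av (G g i) c) (fun g => av (G g j) c) ≤ γ) →
    t * ∑ i, ex ν (fun g => gg (G g) i) ≤ 63 * γ + 22 * t ^ 2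

/-- The test functions seen from a bounded base. -/
def LipSt : Prop :=
  ∀ D : ℝ, ∃ L : ℝ, 0 ≤ L ∧ ∀ (k : M3) (t : ℝ), k * kᵀ = 1 → (∀ a b, ‖k a b‖ ≤ D) →
    0 ≤ t → t ≤ 1 → ∀ a b : Fin 3, Test L (fun u => fS t a b (k *ᵥ u)) ∧
      Test L (fun u => hS a b (k *ᵥ u)) ∧ Test L (fun u => av (k *ᵥ u) a)

/-- Closed form of the second order quantity. -/
def GSt : Prop :=
  ∀ (A : M3) (i : Fin 3), A * Aᵀ = 1 →
    gg A i * (nn (A (i + 1)) * nn (A (i + 2))) =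
      nn (A i) ^ 2 * Complex.normSq (al (A i) (A (i + 1)) * al (A i) (A (i + 2)))

/-- Two aligned mates on a non real axis. -/
def AlSt : Prop :=
  ∀ (A B : M3) (i : Fin 3) (e : ℝ), A * Aᵀ = 1 → B * Bᵀ = 1 → A i = B i →
    1 + 1 / 10000 ≤ nn (A i) → e ≤ 1 →
    Complex.normSq (al (A i) (A (i + 1)) * al (A i) (A (i + 2))) ≤ e →
    Complex.normSq (al (B i) (B (i + 1)) * al (B i) (B (i + 2))) ≤ e →
    ‖theta i A B‖ ≤ 20 * 10 ^ 16 * e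

/-- Two almost real unit vectors. -/
def ReSt : Prop :=
  ∀ v w : V3, v ⬝ᵥ v = 1 → w ⬝ᵥ w = 1 → nn v ≤ 1 + 1 / 10000 → nn w ≤ 1 + 1 / 10000 →
    ‖(v ⬝ᵥ w) ^ 2 * (1 - (v ⬝ᵥ w) ^ 2)‖ ≤ 1 / 2

end Pool.Agent.Lib.MP_abd417_co.U.Fine
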