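import Pool.Agent.Lib.MP_abd417_co.U.Six
import Pool.Agent.Lib.MP_abd417_co.U.FineSt

/-! The six pair sum in the words of the fine test. -/

namespace Pool.Agent.Lib.MP_abd417_co.U.Fine

open Matrix Pool.Agent.Lib.MP_abd417_co.U

lemma sp_eq (u : V3) (a b : Fin 3) : sp u a b = Six.Rr u a b := by
  simp only [sp, Six.Rr, Complex.mul_re, Complex.conj_re, Complex.conj_im]
  change _ / Base.Nn u = _
  ring

lemma J_eq (u : V3) : (Six.Jj u 0 0 = 0 * av u 0 ∧ Six.Jj u 1 1 = 0 * av u 0 ∧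
    Six.Jj u 2 2 = 0 * av u 0) ∧
    (Six.Jj u 0 1 = -1 / 2 * av u 2 ∧ Six.Jj u 1 0 = 1 / 2 * av u 2) ∧
    (Six.Jj u 1 2 = -1 / 2 * av u 0 ∧ Six.Jj u 2 1 = 1 / 2 * av u 0) ∧
    (Six.Jj u 2 0 = -1 / 2 * av u 1 ∧ Six.Jj u 0 2 = 1 / 2 * av u 1) := by
  have hn : nn u = Base.Nn u := rfl
  have e1 : (0 : Fin 3) + 1 = 1 := rfl
  have e2 : (0 : Fin 3) + 2 = 2 := rfl
  have e3 : (1 : Fin 3) + 1 = 2 := rfl
  have e4 : (1 : Fin 3) + 2 = 0 := rfl
  have e5 : (2 : Fin 3) + 1 = 0 := rfl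
  have e6 : (2 : Fin 3) + 2 = 1 := rfl
  simp only [Six.Jj, av, hn, e1, e2, e3, e4, e5, e6, Complex.mul_im, Complex.conj_re,
    Complex.conj_im]
  refine ⟨⟨?_, ?_, ?_⟩, ⟨?_, ?_⟩, ⟨?_, ?_⟩, ?_, ?_⟩ <;> ring

lemma av_eq (u : V3) (c : Fin 3) : Six.av u c = av u c := by
  obtain ⟨-, ⟨h01, -⟩, ⟨h12, -⟩, h20, -⟩ := J_eq u
  fin_cases c
  · change -2 * Six.Jj u 1 2 = av u 0
    rw [h12]; ring
  · change -2 * Six.Jj u 2 0 = av u 1
    rw [h20]; ring
  · change -2 * Six.Jj u 0 1 = av u 2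
    rw [h01]; ring

lemma QR_eq (u v : V3) : ∑ a, ∑ b, Six.Qx u a b * Six.Rr v a b
    = Complex.normSq (al u v) / nn v := by
  simp only [Six.Qx, av_eq, ← sp_eq, sp, al, Fin.sum_univ_three, Complex.normSq_apply,
    Complex.add_re, Complex.add_im, Complex.re_ofReal_mul, Complex.im_ofReal_mul]
  ring

lemma gg_eq (A : M3) (i : Fin 3) : Six.Gd A i = gg A i := by
  have h : ∑ a, Six.Qx (A i) a a = ∑ c, av (A i) c ^ 2 := by
    simp only [Six.Qx, av_eq, sq]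
  unfold Six.Gd gg
  rw [h, sub_sub]
  congr 1
  simp only [QR_eq]
  rw [Fin.sum_univ_three]
  fin_cases i <;> simp [add_comm]

lemma Vv_smul {Ω : Type} [Fintype Ω] (ν f h : Ω → ℝ) (c : ℝ) :
    Six.Vv Finset.univ ν (fun x => c * f x) (fun x => c * h x) = c ^ 2 * vv ν f h := by
  have e : ∀ (k : ℝ) (φ ψ : Ω → ℝ), (∀ x, φ x = k * ψ x) →
      Six.Ex Finset.univ ν φ = k * ex ν ψ := by
    intro k φ ψ hh
    unfold Six.Ex ex
    rw [Finset.mul_sum]
    exact Finset.sum_congr rfl fun x _ => by rw [hh x]; ring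
  unfold Six.Vv vv
  rw [e (c ^ 2) _ (fun x => f x * h x) (fun x => by ring), e c _ f (fun x => rfl),
    e c _ h (fun x => rfl), e (c ^ 2) (fun x => (c * f x) ^ 2) (fun x => f x ^ 2) (fun x => by ring),
    e (c ^ 2) (fun x => (c * h x) ^ 2) (fun x => h x ^ 2) (fun x => by ring)]
  ring

theorem sum_ok : SumSt := by
  intro Ω _ ν G t γ hν h1 hG _ _ hbal hS hA
  have hb : ∀ (k : ℝ) (c a b : Fin 3), (∀ u, Six.Jj u a b = k * av u c) →
      ∑ x, ν x * ∑ i, Six.Jj (G x i) a b = 0 := by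
    intro k c a b h
    have := hbal c
    unfold ex at this
    simp only [h, ← Finset.mul_sum, mul_left_comm (ν _) k, this, mul_zero]
  have h := Six.six_sum Finset.univ ν (fun x _ => hν x) h1 G (fun x _ => hG x) (by
    intro a b
    fin_cases a <;> fin_cases b
    exacts [hb _ _ _ _ fun u => (J_eq u).1.1, hb _ _ _ _ fun u => (J_eq u).2.1.1,
      hb _ _ _ _ fun u => (J_eq u).2.2.2.2, hb _ _ _ _ fun u => (J_eq u).2.1.2,
      hb _ _ _ _ fun u => (J_eq u).1.2.1, hb _ _ _ _ fun u => (J_eq u).2.2.1.1,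
      hb _ _ _ _ fun u => (J_eq u).2.2.2.1, hb _ _ _ _ fun u => (J_eq u).2.2.1.2,
      hb _ _ _ _ fun u => (J_eq u).1.2.2]) t
  have hpair : ∀ i j : Fin 3, (if i = j then 0 else ∑ s, ∑ a, ∑ b, Six.Vv Finset.univ ν
      (fun x => Six.Xt t s a b (G x i)) (fun x => Six.Yt s a b (G x j)))
      ≤ if i = j then 0 else 21 / 2 * γ := by
    intro i j
    by_cases hij : i = j
    · simp [hij]
    simp only [hij, if_false, Fintype.sum_bool]
    have a1 : ∀ a b, Six.Vv Finset.univ ν (fun x => Six.Xt t false a b (G x i))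
        (fun x => Six.Yt false a b (G x j)) ≤ γ := by
      intro a b
      have := hS i j a b hij
      simp only [fS, Fine.hS, sp_eq, ← av_eq] at this
      exact this
    have a2 : ∀ (k : ℝ) (c a b : Fin 3), (∀ u, Six.Jj u a b = k * av u c) →
        Six.Vv Finset.univ ν (fun x => Six.Xt t true a b (G x i))
          (fun x => Six.Yt true a b (G x j)) ≤ k ^ 2 * γ := by
      intro k c a b hh
      simp only [Six.Xt, Six.Yt, if_true, hh]
      rw [Vv_smul]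
      exact mul_le_mul_of_nonneg_left (hA i j c hij) (sq_nonneg k)
    have b00 := a2 _ _ _ _ fun u => (J_eq u).1.1
    have b01 := a2 _ _ _ _ fun u => (J_eq u).2.1.1
    have b02 := a2 _ _ _ _ fun u => (J_eq u).2.2.2.2
    have b10 := a2 _ _ _ _ fun u => (J_eq u).2.1.2
    have b11 := a2 _ _ _ _ fun u => (J_eq u).1.2.1
    have b12 := a2 _ _ _ _ fun u => (J_eq u).2.2.1.1
    have b20 := a2 _ _ _ _ fun u => (J_eq u).2.2.2.1
    have b21 := a2 _ _ _ _ fun u => (J_eq u).2.2.1.2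
    have b22 := a2 _ _ _ _ fun u => (J_eq u).1.2.2
    simp only [Fin.sum_univ_three]
    linarith [a1 0 0, a1 0 1, a1 0 2, a1 1 0, a1 1 1, a1 1 2, a1 2 0, a1 2 1, a1 2 2]
  have h2 := Finset.sum_le_sum fun i (_ : i ∈ Finset.univ) =>
    Finset.sum_le_sum fun j (_ : j ∈ Finset.univ) => hpair i j
  have h3 : (∑ i : Fin 3, ∑ j : Fin 3, if i = j then (0 : ℝ) else 21 / 2 * γ) = 63 * γ := by
    simp only [Fin.sum_univ_three, if_true,
      show ¬ ((0 : Fin 3) = 1) by decide, show ¬ ((0 : Fin 3) = 2) by decide,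
      show ¬ ((1 : Fin 3) = 0) by decide, show ¬ ((1 : Fin 3) = 2) by decide,
      show ¬ ((2 : Fin 3) = 0) by decide, show ¬ ((2 : Fin 3) = 1) by decide, if_false]
    ring
  have h4 : Six.Ex Finset.univ ν (fun x => ∑ i, Six.Gd (G x) i)
      = ∑ i, ex ν (fun g => gg (G g) i) := by
    rw [Six.Ex_sum]
    simp only [gg_eq]
    rfl
  rw [h4] at h
  nlinarith [sq_nonneg t]

end Pool.Agent.Lib.MP_abd417_co.U.Fine
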