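import Pool.Agent.Lib.MP_abd417_co.U.FineMain
import Pool.Agent.Lib.MP_abd417_co.U.FineSum
import Pool.Agent.Lib.MP_abd417_co.U.FineLip

/-! The fine test. -/

namespace Pool.Agent.Lib.MP_abd417_co.U.Fine

theorem fine : FineSt := fine_of sum_ok lip_ok

end Pool.Agent.Lib.MP_abd417_co.U.Fine
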