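import Pool.Agent.Lib.MP_abd417_co.U.FineSt

/-! The fine test: pointwise algebra on one axis. -/

namespace Pool.Agent.Lib.MP_abd417_co.U.Fine

open Matrix

lemma one_le_nn {u : V3} (h : u ⬝ᵥ u = 1) : 1 ≤ nn u := by
  have h1 : ‖u ⬝ᵥ u‖ ≤ ∑ j, ‖u j * u j‖ := norm_sum_le _ _
  rw [h, norm_one] at h1
  refine h1.trans (le_of_eq ?_)
  unfold nn
  refine Finset.sum_congr rfl fun j _ => ?_
  rw [norm_mul, Complex.normSq_eq_norm_sq, sq]

lemma row_dot {m : M3} (hm : m * mᵀ = 1) (i j : Fin 3) :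
    m i ⬝ᵥ m j = if i = j then 1 else 0 := by
  have := congrFun (congrFun hm i) j
  rw [Matrix.one_apply] at this
  rw [← this]; rfl

lemma row_self {m : M3} (hm : m * mᵀ = 1) (i : Fin 3) : m i ⬝ᵥ m i = 1 := by
  rw [row_dot hm]; simp

lemma row_one {m : M3} (hm : m * mᵀ = 1) (i : Fin 3) : m i ⬝ᵥ m (i + 1) = 0 := by
  rw [row_dot hm, if_neg]; revert i; decide

lemma row_two {m : M3} (hm : m * mᵀ = 1) (i : Fin 3) : m i ⬝ᵥ m (i + 2) = 0 := by
  rw [row_dot hm, if_neg]; revert i; decide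

/-- Square of the length of `a (u)`. -/
noncomputable def rr (u : V3) : ℝ := ∑ c, av u c ^ 2

/-- `u × a (u)`. -/
noncomputable def bv (u : V3) (c : Fin 3) : ℂ :=
  u (c + 1) * (av u (c + 2) : ℂ) - u (c + 2) * (av u (c + 1) : ℂ)

/-- `v · (u × a (u))`. -/
noncomputable def la (u v : V3) : ℂ := ∑ c, v c * bv u c

lemma av0 (u : V3) : av u 0 = 2 * ((u 1).re * (u 2).im - (u 2).re * (u 1).im) / nn u := rfl
lemma av1 (u : V3) : av u 1 = 2 * ((u 2).re * (u 0).im - (u 0).re * (u 2).im) / nn u := rfl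
lemma av2 (u : V3) : av u 2 = 2 * ((u 0).re * (u 1).im - (u 1).re * (u 0).im) / nn u := rfl
lemma bv0 (u : V3) : bv u 0 = u 1 * (av u 2 : ℂ) - u 2 * (av u 1 : ℂ) := rfl
lemma bv1 (u : V3) : bv u 1 = u 2 * (av u 0 : ℂ) - u 0 * (av u 2 : ℂ) := rfl
lemma bv2 (u : V3) : bv u 2 = u 0 * (av u 1 : ℂ) - u 1 * (av u 0 : ℂ) := rfl

lemma nn_eq (u : V3) : nn u = (u 0).re ^ 2 + (u 0).im ^ 2 + ((u 1).re ^ 2 + (u 1).im ^ 2) +
    ((u 2).re ^ 2 + (u 2).im ^ 2) := by
  simp only [nn, Fin.sum_univ_three, Complex.normSq_apply]; ring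

lemma dot3 (u v : V3) : u ⬝ᵥ v = u 0 * v 0 + u 1 * v 1 + u 2 * v 2 := by
  simp only [dotProduct, Fin.sum_univ_three]

lemma av_re (u : V3) : av u 0 * (u 0).re + av u 1 * (u 1).re + av u 2 * (u 2).re = 0 := by
  rw [av0, av1, av2]; ring

lemma av_im (u : V3) : av u 0 * (u 0).im + av u 1 * (u 1).im + av u 2 * (u 2).im = 0 := by
  rw [av0, av1, av2]; ring

lemma al3 (u v : V3) : al u v = av u 0 * v 0 + av u 1 * v 1 + av u 2 * v 2 := by
  simp only [al, Fin.sum_univ_three]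

lemma la3 (u v : V3) : la u v = v 0 * bv u 0 + v 1 * bv u 1 + v 2 * bv u 2 := by
  simp only [la, Fin.sum_univ_three]

lemma rr3 (u : V3) : rr u = av u 0 ^ 2 + av u 1 ^ 2 + av u 2 ^ 2 := by
  simp only [rr, Fin.sum_univ_three]

lemma al_self (u : V3) : al u u = 0 := by
  rw [al3]
  apply Complex.ext
  · simpa using av_re u
  · simpa using av_im u

lemma rr_nonneg (u : V3) : 0 ≤ rr u := by rw [rr3]; positivity

lemma rr_eq {u : V3} (h : u ⬝ᵥ u = 1) : rr u * nn u ^ 2 = nn u ^ 2 - 1 := by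
  have hn : nn u ≠ 0 := by have := one_le_nn h; positivity
  rw [dot3] at h
  have h1 := congrArg Complex.re h
  have h2 := congrArg Complex.im h
  simp only [Complex.add_re, Complex.mul_re, Complex.one_re, Complex.add_im, Complex.mul_im,
    Complex.one_im] at h1 h2
  have e : rr u * nn u ^ 2 = 4 * (((u 1).re * (u 2).im - (u 2).re * (u 1).im) ^ 2 +
      ((u 2).re * (u 0).im - (u 0).re * (u 2).im) ^ 2 +
      ((u 0).re * (u 1).im - (u 1).re * (u 0).im) ^ 2) := by
    rw [rr3, av0, av1, av2]; field_simp; ring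
  rw [e, nn_eq]
  linear_combination (-((u 0).re * (u 0).re - (u 0).im * (u 0).im +
    ((u 1).re * (u 1).re - (u 1).im * (u 1).im) + ((u 2).re * (u 2).re - (u 2).im * (u 2).im)) -
    1) * h1 - ((u 0).re * (u 0).im + (u 0).im * (u 0).re + ((u 1).re * (u 1).im +
    (u 1).im * (u 1).re) + ((u 2).re * (u 2).im + (u 2).im * (u 2).re)) * h2

lemma rr_le {u : V3} (h : u ⬝ᵥ u = 1) : rr u ≤ 1 := by
  have hn := one_le_nn h
  have := rr_eq h
  by_contra hc
  push Not at hc
  nlinarith [sq_nonneg (nn u)]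

lemma decomp_aux (a0 a1 a2 u0 u1 u2 v0 v1 v2 : ℂ) (h : u0 * u0 + u1 * u1 + u2 * u2 = 1)
    (hv : u0 * v0 + u1 * v1 + u2 * v2 = 0) (ha : a0 * u0 + a1 * u1 + a2 * u2 = 0) :
    (a0 ^ 2 + a1 ^ 2 + a2 ^ 2) * v0 = (a0 * v0 + a1 * v1 + a2 * v2) * a0 +
      (v0 * (u1 * a2 - u2 * a1) + v1 * (u2 * a0 - u0 * a2) + v2 * (u0 * a1 - u1 * a0)) *
        (u1 * a2 - u2 * a1) := by
  linear_combination (-(a1 * (u0 * v1 - u1 * v0) - a2 * (u2 * v0 - u0 * v2))) * ha +
    (a1 * (u0 * a1 - u1 * a0) - a2 * (u2 * a0 - u0 * a2)) * hv +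
    (a1 * (a0 * v1 - a1 * v0) - a2 * (a2 * v0 - a0 * v2)) * h

lemma rr_cast (u : V3) :
    (rr u : ℂ) = (av u 0 : ℂ) ^ 2 + (av u 1 : ℂ) ^ 2 + (av u 2 : ℂ) ^ 2 := by
  rw [rr3]; push_cast; ring

/-- Decomposition of a vector orthogonal to `u`. -/
lemma decomp {u v : V3} (h : u ⬝ᵥ u = 1) (hv : u ⬝ᵥ v = 0) :
    ((rr u : ℂ) * v 0 = al u v * av u 0 + la u v * bv u 0) ∧
    ((rr u : ℂ) * v 1 = al u v * av u 1 + la u v * bv u 1) ∧
    ((rr u : ℂ) * v 2 = al u v * av u 2 + la u v * bv u 2) := by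
  have ha := al_self u
  rw [dot3] at h hv
  rw [al3] at ha
  rw [rr_cast, al3, la3, bv0, bv1, bv2]
  refine ⟨?_, ?_, ?_⟩
  · exact decomp_aux _ _ _ _ _ _ _ _ _ h hv ha
  · have := decomp_aux (av u 1) (av u 2) (av u 0) (u 1) (u 2) (u 0) (v 1) (v 2) (v 0)
      (by linear_combination h) (by linear_combination hv) (by linear_combination ha)
    linear_combination this
  · have := decomp_aux (av u 2) (av u 0) (av u 1) (u 2) (u 0) (u 1) (v 2) (v 0) (v 1)
      (by linear_combination h) (by linear_combination hv) (by linear_combination ha)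
    linear_combination this

lemma dot_decomp {u v : V3} (w : V3) (h : u ⬝ᵥ u = 1) (hv : u ⬝ᵥ v = 0) :
    (rr u : ℂ) * (v ⬝ᵥ w) = al u v * al u w + la u v * la u w := by
  obtain ⟨h0, h1, h2⟩ := decomp h hv
  rw [dot3, al3 u w, la3 u w]
  linear_combination w 0 * h0 + w 1 * h1 + w 2 * h2

lemma sq_decomp {u v : V3} (h : u ⬝ᵥ u = 1) (hv : u ⬝ᵥ v = 0) (hvv : v ⬝ᵥ v = 1) :
    al u v ^ 2 + la u v ^ 2 = rr u := by
  have := dot_decomp v h hv
  rw [hvv] at this
  linear_combination -this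

lemma nn_bv (u : V3) : nn (bv u) = nn u * rr u := by
  have h1 := av_re u
  have h2 := av_im u
  rw [nn_eq (bv u), nn_eq u, rr3, bv0, bv1, bv2]
  simp only [Complex.sub_re, Complex.sub_im, Complex.mul_re, Complex.mul_im, Complex.ofReal_re,
    Complex.ofReal_im, mul_zero, sub_zero, zero_add]
  linear_combination (-(av u 0 * (u 0).re + av u 1 * (u 1).re + av u 2 * (u 2).re)) * h1 -
    (av u 0 * (u 0).im + av u 1 * (u 1).im + av u 2 * (u 2).im) * h2

lemma normSq_comb (α l b : ℂ) (a : ℝ) : Complex.normSq (α * a + l * b) =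
    Complex.normSq α * a ^ 2 + Complex.normSq l * Complex.normSq b +
      2 * ((α.re * l.re + α.im * l.im) * (a * b.re) +
        (α.im * l.re - α.re * l.im) * (a * b.im)) := by
  simp only [Complex.normSq_apply, Complex.add_re, Complex.add_im, Complex.mul_re, Complex.mul_im,
    Complex.ofReal_re, Complex.ofReal_im]
  ring

lemma nn_decomp {u v : V3} (h : u ⬝ᵥ u = 1) (hv : u ⬝ᵥ v = 0) :
    rr u ^ 2 * nn v = rr u *
      (Complex.normSq (al u v) + nn u * Complex.normSq (la u v)) := by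
  obtain ⟨h0, h1, h2⟩ := decomp h hv
  have e : ∀ z : ℂ, Complex.normSq ((rr u : ℂ) * z) = rr u ^ 2 * Complex.normSq z := by
    intro z; rw [map_mul, Complex.normSq_ofReal]; ring
  have k0 := congrArg Complex.normSq h0
  have k1 := congrArg Complex.normSq h1
  have k2 := congrArg Complex.normSq h2
  rw [e, normSq_comb] at k0 k1 k2
  have hb := nn_bv u
  have r1 : av u 0 * (bv u 0).re + av u 1 * (bv u 1).re + av u 2 * (bv u 2).re = 0 := by
    rw [bv0, bv1, bv2]
    simp only [Complex.sub_re, Complex.mul_re, Complex.ofReal_re, Complex.ofReal_im]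
    ring
  have r2 : av u 0 * (bv u 0).im + av u 1 * (bv u 1).im + av u 2 * (bv u 2).im = 0 := by
    rw [bv0, bv1, bv2]
    simp only [Complex.sub_im, Complex.mul_im, Complex.ofReal_re, Complex.ofReal_im]
    ring
  have hr := rr3 u
  simp only [nn, Fin.sum_univ_three] at hb ⊢
  linear_combination k0 + k1 + k2 + Complex.normSq (la u v) * hb -
    Complex.normSq (al u v) * hr +
    2 * ((al u v).re * (la u v).re + (al u v).im * (la u v).im) * r1 +
    2 * ((al u v).im * (la u v).re - (al u v).re * (la u v).im) * r2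

lemma sum_cyc {M : Type*} [AddCommMonoid M] (f : Fin 3 → M) (i : Fin 3) :
    f i + f (i + 1) + f (i + 2) = ∑ j, f j := by
  rw [Fin.sum_univ_three]
  fin_cases i
  · rfl
  · show f 1 + f 2 + f 0 = _
    abel
  · show f 2 + f 0 + f 1 = _
    abel

lemma al_sq {A : M3} (hA : A * Aᵀ = 1) (i : Fin 3) :
    al (A i) (A (i + 1)) ^ 2 + al (A i) (A (i + 2)) ^ 2 = rr (A i) := by
  have hT : Aᵀ * Aᵀᵀ = 1 := by rw [transpose_transpose]; exact mul_eq_one_comm.mp hA
  have hs := sum_cyc (fun j => al (A i) (A j) ^ 2) i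
  simp only [al_self] at hs
  have c00 := row_dot hT 0 0
  have c11 := row_dot hT 1 1
  have c22 := row_dot hT 2 2
  have c01 := row_dot hT 0 1
  have c02 := row_dot hT 0 2
  have c12 := row_dot hT 1 2
  simp only [dot3, transpose_apply] at c00 c11 c22 c01 c02 c12
  simp only [if_true, Fin.reduceEq, if_false] at c00 c11 c22 c01 c02 c12
  rw [Fin.sum_univ_three, al3 (A i) (A 0), al3 (A i) (A 1), al3 (A i) (A 2)] at hs
  rw [rr_cast]
  linear_combination hs + (av (A i) 0 : ℂ) ^ 2 * c00 + (av (A i) 1 : ℂ) ^ 2 * c11 +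
    (av (A i) 2 : ℂ) ^ 2 * c22 + 2 * (av (A i) 0 : ℂ) * av (A i) 1 * c01 +
    2 * (av (A i) 0 : ℂ) * av (A i) 2 * c02 + 2 * (av (A i) 1 : ℂ) * av (A i) 2 * c12

lemma la_one {A : M3} (hA : A * Aᵀ = 1) (i : Fin 3) :
    la (A i) (A (i + 1)) ^ 2 = al (A i) (A (i + 2)) ^ 2 := by
  have h1 := sq_decomp (row_self hA i) (row_one hA i) (row_self hA (i + 1))
  linear_combination h1 - al_sq hA i

lemma la_two {A : M3} (hA : A * Aᵀ = 1) (i : Fin 3) :
    la (A i) (A (i + 2)) ^ 2 = al (A i) (A (i + 1)) ^ 2 := by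
  have h1 := sq_decomp (row_self hA i) (row_two hA i) (row_self hA (i + 2))
  linear_combination h1 - al_sq hA i

lemma normSq_of_sq {x y : ℂ} (h : x ^ 2 = y ^ 2) : Complex.normSq x = Complex.normSq y := by
  rcases sq_eq_sq_iff_eq_or_eq_neg.mp h with h | h <;> simp [h]

theorem g_ok : GSt := by
  intro A i hA
  have hu := row_self hA i
  have d1 := nn_decomp hu (row_one hA i)
  have d2 := nn_decomp hu (row_two hA i)
  rw [normSq_of_sq (la_one hA i)] at d1
  rw [normSq_of_sq (la_two hA i)] at d2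
  have hr := rr_eq hu
  have n1 : nn (A (i + 1)) ≠ 0 := by have := one_le_nn (row_self hA (i + 1)); positivity
  have n2 : nn (A (i + 2)) ≠ 0 := by have := one_le_nn (row_self hA (i + 2)); positivity
  have hg : gg A i * (nn (A (i + 1)) * nn (A (i + 2))) =
      rr (A i) * (nn (A (i + 1)) * nn (A (i + 2))) -
        Complex.normSq (al (A i) (A (i + 1))) * nn (A (i + 2)) -
        Complex.normSq (al (A i) (A (i + 2))) * nn (A (i + 1)) := by
    unfold gg rr; field_simp
  rw [hg, map_mul]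
  by_cases h0 : rr (A i) = 0
  · have h3 := rr3 (A i)
    rw [h0] at h3
    have a0 : av (A i) 0 = 0 := by nlinarith [sq_nonneg (av (A i) 1), sq_nonneg (av (A i) 2)]
    have a1 : av (A i) 1 = 0 := by nlinarith [sq_nonneg (av (A i) 0), sq_nonneg (av (A i) 2)]
    have a2 : av (A i) 2 = 0 := by nlinarith [sq_nonneg (av (A i) 0), sq_nonneg (av (A i) 1)]
    simp [h0, al3, a0, a1, a2]
  · generalize rr (A i) = r at *
    generalize nn (A i) = n at *
    generalize nn (A (i + 1)) = x at *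
    generalize nn (A (i + 2)) = y at *
    generalize Complex.normSq (al (A i) (A (i + 1))) = p at *
    generalize Complex.normSq (al (A i) (A (i + 2))) = q at *
    have e1 : r * x = p + n * q := by
      apply mul_left_cancel₀ h0; linear_combination d1
    have e2 : r * y = q + n * p := by
      apply mul_left_cancel₀ h0; linear_combination d2
    apply mul_left_cancel₀ h0
    linear_combination (r * y - q) * e1 + (n * q) * e2 - p * q * hr

lemma gg_nonneg {A : M3} (hA : A * Aᵀ = 1) (i : Fin 3) : 0 ≤ gg A i := by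
  have h := g_ok A i hA
  have n1 := one_le_nn (row_self hA (i + 1))
  have n2 := one_le_nn (row_self hA (i + 2))
  have hp : 0 < nn (A (i + 1)) * nn (A (i + 2)) := by positivity
  have h2 : 0 ≤ gg A i * (nn (A (i + 1)) * nn (A (i + 2))) := by
    rw [h]; exact mul_nonneg (sq_nonneg _) (Complex.normSq_nonneg _)
  exact nonneg_of_mul_nonneg_left h2 hp

end Pool.Agent.Lib.MP_abd417_co.U.Fine
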