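import Pool.Agent.Lib.MP_abd417_co.U.FineTh

/-! The fine test: the case split on pairs of mates. -/

namespace Pool.Agent.Lib.MP_abd417_co.U.Fine

open Matrix Classical

lemma log_row_nonneg {A : M3} (hA : A * Aᵀ = 1) (i : Fin 3) : 0 ≤ Real.log (nn (A i)) :=
  Real.log_nonneg (one_le_nn (row_self hA i))

lemma ph_nonneg {A : M3} (hA : A * Aᵀ = 1) : 0 ≤ ph A :=
  Finset.sum_nonneg fun i _ => log_row_nonneg hA i

lemma log_row_le {A : M3} (hA : A * Aᵀ = 1) (i : Fin 3) : Real.log (nn (A i)) ≤ ph A :=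
  Finset.single_le_sum (f := fun i => Real.log (nn (A i))) (fun j _ => log_row_nonneg hA j)
    (Finset.mem_univ i)

lemma two_rows_le {A : M3} (hA : A * Aᵀ = 1) (i : Fin 3) :
    nn (A (i + 1)) * nn (A (i + 2)) ≤ Real.exp (ph A) := by
  have n1 := one_le_nn (row_self hA (i + 1))
  have n2 := one_le_nn (row_self hA (i + 2))
  have h := sum_cyc (fun j => Real.log (nn (A j))) i
  have h0 := log_row_nonneg hA i
  rw [← Real.log_le_iff_le_exp (by positivity), Real.log_mul (by positivity) (by positivity)]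
  unfold ph
  linarith

lemma log_theta_le {A B : M3} (hA : A * Aᵀ = 1) (hB : B * Bᵀ = 1) (i : Fin 3)
    (h : theta i A B ≠ 0) : Real.log ‖theta i A B‖ ≤ 1 + 2 * ph A + 2 * ph B := by
  have n1 := one_le_nn (row_self hA (i + 1))
  have n2 := one_le_nn (row_self hB (i + 1))
  have h1 := Real.log_le_log (norm_pos_iff.mpr h) (theta_le hA hB i)
  rw [Real.log_mul (by norm_num) (by positivity), Real.log_pow,
    Real.log_mul (by positivity) (by positivity)] at h1
  have h2 := log_row_le hA (i + 1)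
  have h3 := log_row_le hB (i + 1)
  have h4 := Real.log_two_lt_d9
  push_cast at h1
  linarith

/-- Threshold for the second order quantity. -/
noncomputable def ta (R : ℝ) : ℝ := Real.exp (-(16 * R + 12) - R) / (20 * 10 ^ 16)

lemma ta_pos (R : ℝ) : 0 < ta R := by unfold ta; positivity

/-- Exceptional frames. -/
def Exc (R : ℝ) (A : M3) : Prop := R < ph A ∨ ta R < ∑ i, gg A i

/-- The share of one frame in the bound for `log |Θ|`. -/
noncomputable def sh (R : ℝ) (A : M3) (i : Fin 3) : ℝ :=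
  if Exc R A then 2 * ph A + 7 + 10 * R
  else if 1 + 1 / 10000 ≤ nn (A i) then -(8 * R + 6)
  else if ∀ j, nn (A j) ≤ 1 + 1 / 10000 then -(Real.log 2 / 2) else 4 * R + 2

lemma sh_ge {R : ℝ} (hR : 1 ≤ R) {A : M3} (hA : A * Aᵀ = 1) (i : Fin 3) :
    -(8 * R + 6) ≤ sh R A i := by
  have h0 := ph_nonneg hA
  have h4 := Real.log_two_lt_d9
  unfold sh
  split_ifs <;> linarith

lemma aligned {R : ℝ} {A : M3} (hA : A * Aᵀ = 1) (h : ¬ Exc R A) (i : Fin 3) :
    Complex.normSq (al (A i) (A (i + 1)) * al (A i) (A (i + 2))) ≤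
      Real.exp (-(16 * R + 12)) / (20 * 10 ^ 16) := by
  unfold Exc at h
  push Not at h
  have g1 : gg A i ≤ ta R :=
    (Finset.single_le_sum (f := fun i => gg A i) (fun j _ => gg_nonneg hA j)
      (Finset.mem_univ i)).trans h.2
  have g2 := (two_rows_le hA i).trans (Real.exp_le_exp.mpr h.1)
  have g3 := g_ok A i hA
  have n0 := one_le_nn (row_self hA i)
  have n1 := one_le_nn (row_self hA (i + 1))
  have n2 := one_le_nn (row_self hA (i + 2))
  have g4 := mul_le_mul g1 g2 (by positivity) (ta_pos R).le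
  have e : ta R * Real.exp R = Real.exp (-(16 * R + 12)) / (20 * 10 ^ 16) := by
    unfold ta; rw [div_mul_eq_mul_div, ← Real.exp_add]; congr 2; ring
  rw [g3, e] at g4
  have n3 : 1 ≤ nn (A i) ^ 2 := one_le_pow₀ n0
  exact (le_mul_of_one_le_left (Complex.normSq_nonneg _) n3).trans g4

lemma pair_le {R : ℝ} (hR : 1 ≤ R) {A B : M3} (hA : A * Aᵀ = 1) (hB : B * Bᵀ = 1) (i : Fin 3)
    (hAB : A i = B i) (h : theta i A B ≠ 0) :
    Real.log ‖theta i A B‖ ≤ sh R A i + sh R B i := by
  have c := log_theta_le hA hB i h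
  have a0 := ph_nonneg hA
  have b0 := ph_nonneg hB
  have a1 := sh_ge hR hA i
  have b1 := sh_ge hR hB i
  have l2 := Real.log_two_lt_d9
  have hp := norm_pos_iff.mpr h
  by_cases ea : Exc R A
  · have ea' : sh R A i = 2 * ph A + 7 + 10 * R := by unfold sh; rw [if_pos ea]
    by_cases eb : Exc R B
    · have eb' : sh R B i = 2 * ph B + 7 + 10 * R := by unfold sh; rw [if_pos eb]
      linarith
    · have : ph B ≤ R := by unfold Exc at eb; push Not at eb; exact eb.1
      linarith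
  have pa : ph A ≤ R := by unfold Exc at ea; push Not at ea; exact ea.1
  by_cases eb : Exc R B
  · have eb' : sh R B i = 2 * ph B + 7 + 10 * R := by unfold sh; rw [if_pos eb]
    linarith
  have pb : ph B ≤ R := by unfold Exc at eb; push Not at eb; exact eb.1
  unfold sh
  rw [if_neg ea, if_neg eb, ← hAB]
  by_cases hn : 1 + 1 / 10000 ≤ nn (A i)
  · rw [if_pos hn, if_pos hn]
    have e1 : Real.exp (-(16 * R + 12)) ≤ 1 := Real.exp_le_one_iff.mpr (by linarith)
    have t := al_ok A B i _ hA hB hAB hn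
      (by rw [div_le_one (by norm_num)]; exact e1.trans (by norm_num))
      (aligned hA ea i) (aligned hB eb i)
    rw [mul_div_cancel₀ _ (by norm_num)] at t
    have := (Real.log_le_iff_le_exp hp).mpr t
    linarith
  rw [if_neg hn, if_neg hn]
  by_cases sa : ∀ j, nn (A j) ≤ 1 + 1 / 10000
  · by_cases sb : ∀ j, nn (B j) ≤ 1 + 1 / 10000
    · rw [if_pos sa, if_pos sb]
      have t := re_ok _ _ (row_self hA (i + 1)) (row_self hB (i + 1)) (sa _) (sb _)
      have := Real.log_le_log hp t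
      rw [one_div, Real.log_inv] at this
      linarith
    · rw [if_pos sa, if_neg sb]; linarith
  · rw [if_neg sa]
    split_ifs <;> linarith

lemma sum_sh_le {R : ℝ} (hR : 1 ≤ R) {A : M3} (hA : A * Aᵀ = 1) :
    ∑ i, sh R A i ≤ -(1039 / 1000) + 59 * (if R < ph A then ph A else 0) +
      (36 * R + 23) / ta R * ∑ i, gg A i := by
  have a0 := ph_nonneg hA
  have l1 := Real.log_two_gt_d9
  have l2 := Real.log_two_lt_d9
  have tp := ta_pos R
  have g0 : 0 ≤ ∑ i, gg A i := Finset.sum_nonneg fun i _ => gg_nonneg hA i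
  have g1 : 0 ≤ (36 * R + 23) / ta R * ∑ i, gg A i := by positivity
  by_cases ea : Exc R A
  · have e : ∑ i, sh R A i = 3 * (2 * ph A + 7 + 10 * R) := by
      simp only [sh, if_pos ea, Fin.sum_univ_three]; ring
    rw [e]
    by_cases h : R < ph A
    · rw [if_pos h]; linarith
    · rw [if_neg h]
      have h2 : ta R < ∑ i, gg A i := ea.resolve_left h
      have h3 : (36 * R + 23) / ta R * ta R ≤ (36 * R + 23) / ta R * ∑ i, gg A i :=
        mul_le_mul_of_nonneg_left h2.le (by positivity)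
      rw [div_mul_cancel₀ _ tp.ne'] at h3
      push Not at h
      linarith
  have g2 : 0 ≤ (if R < ph A then ph A else 0) := by split_ifs <;> linarith
  by_cases sa : ∀ j, nn (A j) ≤ 1 + 1 / 10000
  · have e : ∀ i, sh R A i ≤ -(Real.log 2 / 2) := by
      intro i
      unfold sh
      rw [if_neg ea, if_pos sa]
      split_ifs <;> linarith
    rw [Fin.sum_univ_three]
    linarith [e 0, e 1, e 2]
  · have e : ∀ i, sh R A i ≤ 4 * R + 2 := by
      intro i
      unfold sh
      rw [if_neg ea, if_neg sa]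
      split_ifs <;> linarith
    push Not at sa
    obtain ⟨j, hj⟩ := sa
    have e2 : sh R A j = -(8 * R + 6) := by
      unfold sh; rw [if_neg ea, if_pos hj.le]
    have := sum_cyc (fun i => sh R A i) j
    linarith [e (j + 1), e (j + 2)]

variable {Ω : Type} [Fintype Ω]

lemma marg {ν H : Ω → ℝ} {π : Ω → Ω → ℝ} {c : ℝ} (h1 : ∑ g, ν g = 1) (hH : ∀ g, -c ≤ H g)
    (hm : ∀ g, ∑ g', π g g' ≤ ν g) :
    ∑ g, ∑ g', π g g' * H g ≤ ex ν H + c * (1 - ∑ g, ∑ g', π g g') := by
  have k : ∑ g, (∑ g', π g g') * (H g + c) ≤ ∑ g, ν g * (H g + c) :=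
    Finset.sum_le_sum fun g _ => mul_le_mul_of_nonneg_right (hm g) (by linarith [hH g])
  simp only [mul_add, Finset.sum_add_distrib, ← Finset.sum_mul] at k
  rw [h1] at k
  simp only [← Finset.sum_mul]
  unfold ex
  linarith

/-- The mean of `log |Θ|` when the tail and the second order quantity are small. -/
theorem mean_le {R γ : ℝ} (hR : 1 ≤ R) (hγ : (16 * R + 12) * γ ≤ 1 / 10) {ν : Ω → ℝ}
    {G : Ω → M3} {π : Fin 3 → Ω → Ω → ℝ} (h0 : ∀ g, 0 ≤ ν g) (h1 : ∑ g, ν g = 1)
    (hG : ∀ g, G g * (G g)ᵀ = 1)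
    (ht : ex ν (fun g => if R < ph (G g) then ph (G g) else 0) ≤ 1 / 400)
    (hg : (36 * R + 23) / ta R * ∑ i, ex ν (fun g => gg (G g) i) ≤ 1 / 10)
    (p0 : ∀ i g g', 0 ≤ π i g g') (p1 : ∀ i g, ∑ g', π i g g' ≤ ν g)
    (p2 : ∀ i g', ∑ g, π i g g' ≤ ν g') (p3 : ∀ i, 1 - γ ≤ ∑ g, ∑ g', π i g g')
    (p4 : ∀ i g g', π i g g' ≠ 0 → G g i = G g' i ∧ theta i (G g) (G g') ≠ 0) :
    ∑ i, ∑ g, ∑ g', π i g g' * Real.log ‖theta i (G g) (G g')‖ ≤ -1 := by
  have k : ∀ i, ∑ g, ∑ g', π i g g' * Real.log ‖theta i (G g) (G g')‖ ≤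
      2 * ex ν (fun g => sh R (G g) i) + 1 / 10 := by
    intro i
    have a : ∑ g, ∑ g', π i g g' * Real.log ‖theta i (G g) (G g')‖ ≤
        ∑ g, ∑ g', (π i g g' * sh R (G g) i + π i g g' * sh R (G g') i) := by
      refine Finset.sum_le_sum fun g _ => Finset.sum_le_sum fun g' _ => ?_
      by_cases hz : π i g g' = 0
      · simp [hz]
      · rw [← mul_add]
        exact mul_le_mul_of_nonneg_left
          (pair_le hR (hG g) (hG g') i (p4 i g g' hz).1 (p4 i g g' hz).2) (p0 i g g')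
    simp only [Finset.sum_add_distrib] at a
    have b1 := marg (H := fun g => sh R (G g) i) h1 (fun g => sh_ge hR (hG g) i) (p1 i)
    have b2 := marg (H := fun g => sh R (G g) i) (π := fun g g' => π i g' g) h1
      (fun g => sh_ge hR (hG g) i) (p2 i)
    rw [Finset.sum_comm, Finset.sum_comm (f := fun g g' => π i g' g)] at b2
    have b3 : (8 * R + 6) * (1 - ∑ g, ∑ g', π i g g') ≤ (8 * R + 6) * γ :=
      mul_le_mul_of_nonneg_left (by linarith [p3 i]) (by linarith)
    linarith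
  have s : ∑ i, ex ν (fun g => sh R (G g) i) ≤ -(1039 / 1000) +
      59 * ex ν (fun g => if R < ph (G g) then ph (G g) else 0) +
      (36 * R + 23) / ta R * ∑ i, ex ν (fun g => gg (G g) i) := by
    have e1 : ∑ i, ex ν (fun g => sh R (G g) i) = ∑ g, ν g * ∑ i, sh R (G g) i := by
      unfold ex; rw [Finset.sum_comm]; simp only [Finset.mul_sum]
    have e2 : ∑ i, ex ν (fun g => gg (G g) i) = ∑ g, ν g * ∑ i, gg (G g) i := by
      unfold ex; rw [Finset.sum_comm]; simp only [Finset.mul_sum]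
    rw [e1, e2]
    refine (Finset.sum_le_sum fun g _ =>
      mul_le_mul_of_nonneg_left (sum_sh_le hR (hG g)) (h0 g)).trans (le_of_eq ?_)
    have e3 : ∑ g, ν g * (-(1039 / 1000) : ℝ) = -(1039 / 1000) := by
      rw [← Finset.sum_mul, h1, one_mul]
    unfold ex
    simp only [mul_add, Finset.sum_add_distrib]
    rw [e3, Finset.mul_sum, Finset.mul_sum]
    congr 1
    · congr 1
      exact Finset.sum_congr rfl fun g _ => by ring
    · exact Finset.sum_congr rfl fun g _ => by ring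
  rw [Fin.sum_univ_three] at s ⊢
  linarith [k 0, k 1, k 2]

end Pool.Agent.Lib.MP_abd417_co.U.Fine
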