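import Pool.Agent.Lib.MP_abd417_co.U.FineCase
import Pool.Agent.Lib.MP_abd417_co.U.Base

/-! The fine test: change of base and assembly. -/

namespace Pool.Agent.Lib.MP_abd417_co.U.Fine

open Matrix Classical

lemma row_mul (A k : M3) (i : Fin 3) : (A * kᵀ) i = k *ᵥ A i := by
  funext a
  simp only [Matrix.mul_apply, transpose_apply, mulVec, dotProduct]
  exact Finset.sum_congr rfl fun b _ => mul_comm _ _

lemma dot_mulVec {k : M3} (hk : k * kᵀ = 1) (u v : V3) : (k *ᵥ u) ⬝ᵥ (k *ᵥ v) = u ⬝ᵥ v := by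
  have hk' : kᵀ * k = 1 := mul_eq_one_comm.mp hk
  rw [dotProduct_mulVec, ← mulVec_transpose, mulVec_mulVec, hk', one_mulVec]

lemma theta_mul {k : M3} (hk : k * kᵀ = 1) (i : Fin 3) (A B : M3) :
    theta i (A * kᵀ) (B * kᵀ) = theta i A B := by
  unfold theta
  rw [row_mul, row_mul, dot_mulVec hk]

lemma ph_le {A : M3} (hA : A * Aᵀ = 1) {d : ℝ} (h : ∀ a b, ‖A a b‖ ≤ Real.exp d) :
    ph A ≤ 6 * d + 6 := by
  have k : ∀ i, Real.log (nn (A i)) ≤ 2 * d + 2 := by
    intro i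
    have n1 := one_le_nn (row_self hA i)
    have e : ∀ b, Complex.normSq (A i b) ≤ Real.exp (2 * d) := by
      intro b
      rw [Complex.normSq_eq_norm_sq, two_mul, Real.exp_add, sq]
      exact mul_self_le_mul_self (norm_nonneg _) (h i b)
    have h3 : (3 : ℝ) ≤ Real.exp 2 := by linarith [Real.add_one_le_exp 2]
    rw [Real.log_le_iff_le_exp (by positivity), Real.exp_add]
    have := mul_le_mul_of_nonneg_left h3 (Real.exp_pos (2 * d)).le
    unfold nn
    rw [Fin.sum_univ_three]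
    linarith [e 0, e 1, e 2]
  unfold ph
  rw [Fin.sum_univ_three]
  linarith [k 0, k 1, k 2]

lemma entry_le {A : M3} (hA : A * Aᵀ = 1) (a b : Fin 3) : ‖A a b‖ ≤ Real.exp (ph A / 2) := by
  have n1 := one_le_nn (row_self hA a)
  have h1 : nn (A a) ≤ Real.exp (ph A) :=
    (Real.log_le_iff_le_exp (by positivity)).mp (log_row_le hA a)
  have h2 : Complex.normSq (A a b) ≤ nn (A a) :=
    Finset.single_le_sum (f := fun b => Complex.normSq (A a b))
      (fun j _ => Complex.normSq_nonneg _) (Finset.mem_univ b)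
  refine le_trans (le_abs_self _) (abs_le_of_sq_le_sq ?_ (Real.exp_pos _).le)
  rw [← Complex.normSq_eq_norm_sq, sq, ← Real.exp_add, add_halves]
  linarith

lemma base_le {A k : M3} (hA : A * Aᵀ = 1) (hk : k * kᵀ = 1) {c : ℝ}
    (h : ph A + ph (A * kᵀ) ≤ 2 * c) (a b : Fin 3) : ‖k a b‖ ≤ 3 * Real.exp c := by
  have hA' : Aᵀ * A = 1 := mul_eq_one_comm.mp hA
  have e : k = (A * kᵀ)ᵀ * A := by
    rw [transpose_mul, transpose_transpose, Matrix.mul_assoc, hA', Matrix.mul_one]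
  have t : ∀ i, ‖(A * kᵀ)ᵀ a i * A i b‖ ≤ Real.exp c := by
    intro i
    rw [norm_mul, transpose_apply]
    refine (mul_le_mul (entry_le (Base.orth_mul hA hk) i a) (entry_le hA i b) (norm_nonneg _)
      (Real.exp_pos _).le).trans ?_
    rw [← Real.exp_add]
    exact Real.exp_le_exp.mpr (by linarith)
  have e2 : k a b = ∑ i, (A * kᵀ)ᵀ a i * A i b := by
    rw [← Matrix.mul_apply, ← e]
  rw [e2]
  refine (norm_sum_le _ _).trans ?_
  rw [Fin.sum_univ_three]
  linarith [t 0, t 1, t 2]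

lemma ph_mul_le {A k : M3} (hA : A * Aᵀ = 1) (hk : k * kᵀ = 1) {D : ℝ} (hD : 0 < D)
    (h : ∀ a b, ‖k a b‖ ≤ D) : ph (A * kᵀ) ≤ ph A + 3 * Real.log (9 * D ^ 2) := by
  have r : ∀ a, nn (k a) ≤ 3 * D ^ 2 := by
    intro a
    have e : ∀ b, Complex.normSq (k a b) ≤ D ^ 2 := fun b => by
      rw [Complex.normSq_eq_norm_sq]; exact pow_le_pow_left₀ (norm_nonneg _) (h a b) 2
    unfold nn
    rw [Fin.sum_univ_three]
    linarith [e 0, e 1, e 2]
  have k1 : ∀ i, Real.log (nn ((A * kᵀ) i)) ≤ Real.log (nn (A i)) + Real.log (9 * D ^ 2) := by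
    intro i
    have n1 := one_le_nn (row_self hA i)
    have n2 := one_le_nn (row_self (Base.orth_mul hA hk) i)
    rw [← Real.log_mul (by positivity) (by positivity)]
    refine Real.log_le_log (by positivity) ?_
    have e : ∀ a, Complex.normSq ((A * kᵀ) i a) ≤ 3 * D ^ 2 * nn (A i) := by
      intro a
      rw [row_mul, Complex.normSq_eq_norm_sq]
      exact (normSq_dot_le (k a) (A i)).trans
        (mul_le_mul_of_nonneg_right (r a) (by positivity))
    have e3 : nn ((A * kᵀ) i) = ∑ a, Complex.normSq ((A * kᵀ) i a) := rfl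
    rw [e3, Fin.sum_univ_three]
    linarith [e 0, e 1, e 2]
  unfold ph
  rw [Fin.sum_univ_three, Fin.sum_univ_three]
  linarith [k1 0, k1 1, k1 2]

lemma av_im_eq (u : V3) (c : Fin 3) :
    av u c = 2 * ((u (c + 2) * (starRingEnd ℂ) (u (c + 1))).im / Base.Nn u) := by
  unfold av
  have e : Base.Nn u = nn u := rfl
  rw [e, Complex.mul_im, Complex.conj_re, Complex.conj_im]
  ring

variable {Ω : Type} [Fintype Ω]

lemma ex_mono {ν X Y : Ω → ℝ} (h0 : ∀ g, 0 ≤ ν g) (h : ∀ g, X g ≤ Y g) : ex ν X ≤ ex ν Y :=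
  Finset.sum_le_sum fun g _ => mul_le_mul_of_nonneg_left (h g) (h0 g)

lemma ex_lin {ν : Ω → ℝ} (h1 : ∑ g, ν g = 1) (X : Ω → ℝ) (a b : ℝ) :
    ex ν (fun g => a * X g + b) = a * ex ν X + b := by
  unfold ex
  simp only [mul_add, Finset.sum_add_distrib]
  rw [← Finset.sum_mul, h1, one_mul, Finset.mul_sum]
  congr 1
  exact Finset.sum_congr rfl fun g _ => by ring

lemma exists_le_ex {ν : Ω → ℝ} (h0 : ∀ g, 0 ≤ ν g) (h1 : ∑ g, ν g = 1) (X : Ω → ℝ) :
    ∃ g, X g ≤ ex ν X := by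
  have hne : (Finset.univ : Finset Ω).Nonempty := by
    by_contra hc
    rw [Finset.not_nonempty_iff_eq_empty.mp hc] at h1
    simp at h1
  obtain ⟨g, -, hg⟩ := Finset.exists_min_image Finset.univ X hne
  refine ⟨g, ?_⟩
  have := ex_mono (ν := ν) (X := fun _ => 0 * (0 : ℝ) + X g) (Y := X) h0
    (fun g' => by simpa using hg g' (Finset.mem_univ _))
  rw [ex_lin h1 (fun _ => (0 : ℝ)) 0 (X g)] at this
  simpa using this

theorem fine_of (hS : SumSt) (hL : LipSt) : FineSt := by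
  intro C R
  set D : ℝ := 3 * Real.exp (6 * C + 6) with hD
  have D0 : 0 < D := by positivity
  set R1 : ℝ := max (max R (6 + 3 * Real.log (9 * D ^ 2))) 1 with hR1
  have r1 : R ≤ R1 := (le_max_left _ _).trans (le_max_left _ _)
  have r2 : 6 + 3 * Real.log (9 * D ^ 2) ≤ R1 := (le_max_right _ _).trans (le_max_left _ _)
  have r3 : 1 ≤ R1 := le_max_right _ _
  set R2 : ℝ := 7 * R1 with hR2
  have r4 : 1 ≤ R2 := by linarith
  have tp := ta_pos R2
  set t : ℝ := min 1 (ta R2 / (850 * (36 * R2 + 23))) with ht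
  have t0 : 0 < t := lt_min one_pos (by positivity)
  have t1 : t ≤ 1 := min_le_left _ _
  have t2 : t ≤ ta R2 / (850 * (36 * R2 + 23)) := min_le_right _ _
  set γ : ℝ := min (t ^ 2) (1 / (10 * (16 * R2 + 12))) with hγ
  have g0 : 0 < γ := lt_min (by positivity) (by positivity)
  have g1 : γ ≤ t ^ 2 := min_le_left _ _
  have g2 : (16 * R2 + 12) * γ ≤ 1 / 10 := by
    have : γ ≤ 1 / (10 * (16 * R2 + 12)) := min_le_right _ _
    rw [le_div_iff₀ (by positivity)] at this
    linarith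
  obtain ⟨L, L0, hL⟩ := hL D
  refine ⟨γ, L, g0, L0, ?_⟩
  intro Ω _ ν d G π h0 h1 hG d0 hd hC hT p0 p1 p2 p3 p4
  obtain ⟨k, hk, k1, k2⟩ := Base.exists_base Finset.univ ν G (fun g _ => h0 g)
    (fun g _ => hG g) 1 (by simp)
  have hG' : ∀ g, G g * kᵀ * (G g * kᵀ)ᵀ = 1 := fun g => Base.orth_mul (hG g) hk
  have e1 : ex ν (fun g => ph (G g)) ≤ 6 * C + 6 := by
    have := ex_mono (ν := ν) h0 (fun g => ph_le (hG g) (hd g))
    rw [ex_lin h1] at this
    linarith
  have e2 : ex ν (fun g => ph (G g * kᵀ)) ≤ ex ν (fun g => ph (G g)) := by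
    have a : Base.Phi Finset.univ ν G 1 = ex ν (fun g => ph (G g)) := by
      unfold Base.Phi; simp only [transpose_one, Matrix.mul_one]; rfl
    rw [a] at k1
    exact k1
  have kD : ∀ a b, ‖k a b‖ ≤ D := by
    obtain ⟨g, hg⟩ := exists_le_ex h0 h1 (fun g => ph (G g) + ph (G g * kᵀ))
    have a : ex ν (fun g => ph (G g) + ph (G g * kᵀ)) =
        ex ν (fun g => ph (G g)) + ex ν (fun g => ph (G g * kᵀ)) := by
      unfold ex; simp only [mul_add, Finset.sum_add_distrib]
    exact base_le (hG g) hk (by linarith)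
  have tl : ex ν (fun g => if R2 < ph (G g * kᵀ) then ph (G g * kᵀ) else 0) ≤ 1 / 400 := by
    have a : ∀ g, (if R2 < ph (G g * kᵀ) then ph (G g * kᵀ) else 0) ≤
        7 * (if R < d g then d g else 0) + 0 := by
      intro g
      have b1 := ph_mul_le (hG g) hk D0 kD
      have b2 := ph_le (hG g) (hd g)
      have b3 := d0 g
      by_cases h : R2 < ph (G g * kᵀ)
      · rw [if_pos h, if_pos (by linarith)]; linarith
      · rw [if_neg h]; split_ifs <;> linarith
    have := ex_mono (ν := ν) h0 a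
    rw [ex_lin h1] at this
    linarith
  have bal : ∀ c, ex ν (fun g => ∑ i, av ((G g * kᵀ) i) c) = 0 := by
    intro c
    have := k2 (c + 2) (c + 1)
    unfold ex
    simp only [av_im_eq, ← Finset.mul_sum, mul_left_comm _ (2 : ℝ)]
    rw [this, mul_zero]
  by_contra hc
  push Not at hc
  obtain ⟨c1, c2⟩ := hc
  have s := hS Ω ν (fun g => G g * kᵀ) t γ h0 h1 hG' t0.le t1 bal
    (fun i j a b hij => by
      have := c2 i j _ _ hij (hL k t hk kD t0.le t1 a b).1 (hL k t hk kD t0.le t1 a b).2.1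
      simpa only [row_mul] using this.le)
    (fun i j c hij => by
      have := c2 i j _ _ hij (hL k t hk kD t0.le t1 c c).2.2 (hL k t hk kD t0.le t1 c c).2.2
      simpa only [row_mul] using this.le)
  have s2 : ∑ i, ex ν (fun g => gg (G g * kᵀ) i) ≤ 85 * t := by
    apply le_of_mul_le_mul_left _ t0
    nlinarith
  have s3 : (36 * R2 + 23) / ta R2 * ∑ i, ex ν (fun g => gg (G g * kᵀ) i) ≤ 1 / 10 := by
    rw [le_div_iff₀ (by positivity)] at t2
    rw [div_mul_eq_mul_div, div_le_iff₀ tp]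
    have := mul_le_mul_of_nonneg_left s2 (show 0 ≤ 36 * R2 + 23 by linarith)
    linarith
  have m := mean_le (G := fun g => G g * kᵀ) r4 g2 h0 h1 hG' tl s3 p0 p1 p2 p3
    (fun i g g' h => by
      refine ⟨?_, ?_⟩
      · rw [row_mul, row_mul, (p4 i g g' h).1]
      · rw [theta_mul hk]; exact (p4 i g g' h).2)
  simp only [theta_mul hk] at m
  linarith

end Pool.Agent.Lib.MP_abd417_co.U.Fine
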