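import Pool.Agent.Lib.MP_abd417_co.U.FineAlg

/-! The fine test: three bounds for `Θ`. -/

namespace Pool.Agent.Lib.MP_abd417_co.U.Fine

open Matrix

lemma diff_sq_le {α l : ℂ} {r e : ℝ} (h : α ^ 2 + l ^ 2 = r) (h0 : 0 ≤ r) (h1 : r ≤ 1)
    (he : e ≤ 1) (hp : Complex.normSq (α * l) ≤ e) : ‖α ^ 2 - l ^ 2‖ ^ 2 ≤ 5 := by
  have e1 : (α ^ 2 - l ^ 2) ^ 2 = (r : ℂ) ^ 2 - 4 * (α * l) ^ 2 := by
    rw [← h]; ring
  rw [← norm_pow, e1]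
  refine (norm_sub_le _ _).trans ?_
  rw [norm_mul, norm_pow, norm_pow, ← Complex.normSq_eq_norm_sq (α * l), Complex.norm_real,
    Real.norm_of_nonneg h0]
  have : ‖(4 : ℂ)‖ = 4 := by simp
  rw [this]
  nlinarith

theorem al_ok : AlSt := by
  intro A B i e hA hB hAB hn he h1 h2
  have hu := row_self hA i
  have hv := row_one hA i
  have hw : A i ⬝ᵥ B (i + 1) = 0 := by rw [hAB]; exact row_one hB i
  have d := dot_decomp (B (i + 1)) hu hv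
  have s1 := sq_decomp hu hv (row_self hA (i + 1))
  have s2 := sq_decomp hu hw (row_self hB (i + 1))
  have l1 := normSq_of_sq (la_one hA i)
  have l2 := normSq_of_sq (la_one hB i)
  rw [← hAB] at l2 h2
  rw [map_mul, ← l1, ← map_mul] at h1
  rw [map_mul, ← l2, ← map_mul] at h2
  have r0 := rr_nonneg (A i)
  have r1 := rr_le hu
  have r2 : 1 / 10000 ≤ rr (A i) := by
    have := rr_eq hu
    by_contra hc
    push Not at hc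
    nlinarith
  unfold theta
  generalize A (i + 1) ⬝ᵥ B (i + 1) = z at *
  generalize al (A i) (A (i + 1)) = α at *
  generalize la (A i) (A (i + 1)) = l at *
  generalize al (A i) (B (i + 1)) = α' at *
  generalize la (A i) (B (i + 1)) = l' at *
  generalize rr (A i) = r at *
  have k1 := diff_sq_le s1 r0 r1 he h1
  have k2 := diff_sq_le s2 r0 r1 he h2
  have key : (r : ℂ) ^ 4 * (z ^ 2 * (1 - z ^ 2)) =
      (α' * l' * (α ^ 2 - l ^ 2) - α * l * (α' ^ 2 - l' ^ 2)) ^ 2 := by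
    have e1 : (r : ℂ) ^ 4 * (z ^ 2 * (1 - z ^ 2)) =
        ((r : ℂ) * z) ^ 2 * ((r : ℂ) * r - ((r : ℂ) * z) ^ 2) := by ring
    rw [e1, d]
    nth_rewrite 1 [← s1]
    rw [← s2]
    ring
  have hn1 := congrArg norm key
  rw [norm_mul, norm_pow, norm_pow, Complex.norm_real, Real.norm_of_nonneg r0] at hn1
  have hW : ‖α' * l' * (α ^ 2 - l ^ 2) - α * l * (α' ^ 2 - l' ^ 2)‖ ≤
      ‖α' * l'‖ * ‖α ^ 2 - l ^ 2‖ + ‖α * l‖ * ‖α' ^ 2 - l' ^ 2‖ := by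
    refine (norm_sub_le _ _).trans ?_
    rw [norm_mul (α' * l'), norm_mul (α * l)]
  rw [Complex.normSq_eq_norm_sq] at h1 h2
  have e0 : 0 ≤ e := le_trans (sq_nonneg _) h1
  have hx : (‖α' * l'‖ * ‖α ^ 2 - l ^ 2‖) ^ 2 ≤ e * 5 := by
    rw [mul_pow]; exact mul_le_mul h2 k1 (sq_nonneg _) e0
  have hy : (‖α * l‖ * ‖α' ^ 2 - l' ^ 2‖) ^ 2 ≤ e * 5 := by
    rw [mul_pow]; exact mul_le_mul h1 k2 (sq_nonneg _) e0
  have hW2 : ‖α' * l' * (α ^ 2 - l ^ 2) - α * l * (α' ^ 2 - l' ^ 2)‖ ^ 2 ≤ 20 * e := by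
    refine (pow_le_pow_left₀ (norm_nonneg _) hW 2).trans ?_
    nlinarith [sq_nonneg (‖α' * l'‖ * ‖α ^ 2 - l ^ 2‖ - ‖α * l‖ * ‖α' ^ 2 - l' ^ 2‖)]
  have r4 : (1 / 10000 : ℝ) ^ 4 ≤ r ^ 4 := pow_le_pow_left₀ (by norm_num) r2 4
  have hT := norm_nonneg (z ^ 2 * (1 - z ^ 2))
  have := mul_le_mul_of_nonneg_right r4 hT
  nlinarith

/-- Cauchy-Schwarz. -/
lemma normSq_dot_le (v w : V3) : ‖v ⬝ᵥ w‖ ^ 2 ≤ nn v * nn w := by
  have h1 : ‖v ⬝ᵥ w‖ ≤ ∑ j, ‖v j‖ * ‖w j‖ := by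
    refine (norm_sum_le _ _).trans (le_of_eq ?_)
    exact Finset.sum_congr rfl fun j _ => norm_mul _ _
  refine (pow_le_pow_left₀ (norm_nonneg _) h1 2).trans ?_
  unfold nn
  simp only [Complex.normSq_eq_norm_sq]
  exact Finset.sum_mul_sq_le_sq_mul_sq _ _ _

lemma im_small {v : V3} (h : v ⬝ᵥ v = 1) :
    2 * ((v 0).im ^ 2 + (v 1).im ^ 2 + (v 2).im ^ 2) = nn v - 1 ∧
    2 * ((v 0).re ^ 2 + (v 1).re ^ 2 + (v 2).re ^ 2) = nn v + 1 := by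
  rw [dot3] at h
  have h1 := congrArg Complex.re h
  simp only [Complex.add_re, Complex.mul_re, Complex.one_re] at h1
  rw [nn_eq]
  constructor <;> linarith

lemma cs3 (a b c x y z : ℝ) :
    (a * x + b * y + c * z) ^ 2 ≤ (a ^ 2 + b ^ 2 + c ^ 2) * (x ^ 2 + y ^ 2 + z ^ 2) := by
  nlinarith [sq_nonneg (a * y - b * x), sq_nonneg (a * z - c * x), sq_nonneg (b * z - c * y)]

lemma re_num {r s e : ℝ} (h0 : 0 ≤ r) (hr : r ≤ 1001 / 1000) (hs0 : 0 ≤ s) (hs : s ≤ r)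
    (he0 : 0 ≤ e) (hi : e ≤ 3 / 10000) :
    r ^ 2 * ((1 - r + 2 * e) ^ 2 + 4 * s * e) ≤ (1 / 2) ^ 2 := by
  have k1 : (r * (1 - r + 2 * e)) ^ 2 ≤ (26 / 100) ^ 2 := by
    apply sq_le_sq'
    · nlinarith
    · nlinarith [sq_nonneg (r - 1 / 2)]
  have k2 : s * e ≤ 4 / 10000 := by nlinarith
  have k3 : r ^ 2 ≤ 2 := by nlinarith
  have k4 : r ^ 2 * (s * e) ≤ 2 * (4 / 10000) :=
    mul_le_mul k3 k2 (mul_nonneg hs0 he0) (by norm_num)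
  nlinarith

lemma im_num {x y p q p' q' n m : ℝ} (a1 : 2 * q = n - 1) (a2 : 2 * p = n + 1)
    (b1 : 2 * q' = m - 1) (b2 : 2 * p' = m + 1) (n1 : 1 ≤ n) (n2 : 1 ≤ m)
    (h1 : n ≤ 1 + 1 / 10000) (h2 : m ≤ 1 + 1 / 10000) (c1 : x ^ 2 ≤ p * q')
    (c2 : y ^ 2 ≤ p' * q) : (x + y) ^ 2 ≤ 3 / 10000 := by
  have hx : x ^ 2 ≤ 6 / 100000 := by nlinarith
  have hy : y ^ 2 ≤ 6 / 100000 := by nlinarith
  nlinarith [sq_nonneg (x - y)]

theorem re_ok : ReSt := by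
  intro v w hv hw h1 h2
  obtain ⟨a1, a2⟩ := im_small hv
  obtain ⟨b1, b2⟩ := im_small hw
  have n1 := one_le_nn hv
  have n2 := one_le_nn hw
  have hz := normSq_dot_le v w
  have hi : (v ⬝ᵥ w).im ^ 2 ≤ 3 / 10000 := by
    have c1 := cs3 (v 0).re (v 1).re (v 2).re (w 0).im (w 1).im (w 2).im
    have c2 := cs3 (w 0).re (w 1).re (w 2).re (v 0).im (v 1).im (v 2).im
    have e : (v ⬝ᵥ w).im = ((v 0).re * (w 0).im + (v 1).re * (w 1).im + (v 2).re * (w 2).im) +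
        ((w 0).re * (v 0).im + (w 1).re * (v 1).im + (w 2).re * (v 2).im) := by
      rw [dot3]; simp only [Complex.add_im, Complex.mul_im]; ring
    rw [e]
    exact im_num a1 a2 b1 b2 n1 n2 h1 h2 c1 c2
  have hr : ‖v ⬝ᵥ w‖ ^ 2 ≤ 1001 / 1000 :=
    hz.trans ((mul_le_mul h1 h2 (by linarith) (by norm_num)).trans (by norm_num))
  clear hz a1 a2 b1 b2 hv hw
  generalize v ⬝ᵥ w = z at *
  have e1 : ‖z‖ ^ 2 = z.re ^ 2 + z.im ^ 2 := by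
    rw [← Complex.normSq_eq_norm_sq, Complex.normSq_apply]; ring
  have e2 : ‖1 - z ^ 2‖ ^ 2 = (1 - ‖z‖ ^ 2 + 2 * z.im ^ 2) ^ 2 + 4 * z.re ^ 2 * z.im ^ 2 := by
    rw [e1, ← Complex.normSq_eq_norm_sq, Complex.normSq_apply, sq z]
    simp only [Complex.sub_re, Complex.sub_im, Complex.mul_re, Complex.mul_im, Complex.one_re,
      Complex.one_im]
    ring
  rw [norm_mul, norm_pow]
  have h0 : 0 ≤ ‖z‖ ^ 2 := sq_nonneg _
  have hs : z.re ^ 2 ≤ ‖z‖ ^ 2 := by rw [e1]; nlinarith [sq_nonneg z.im]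
  refine le_trans (le_abs_self _) (abs_le_of_sq_le_sq ?_ (by norm_num))
  rw [mul_pow, e2]
  exact re_num h0 hr (sq_nonneg _) hs (sq_nonneg _) hi

/-- The crude bound. -/
lemma theta_le {A B : M3} (hA : A * Aᵀ = 1) (hB : B * Bᵀ = 1) (i : Fin 3) :
    ‖theta i A B‖ ≤ 2 * (nn (A (i + 1)) * nn (B (i + 1))) ^ 2 := by
  have h := normSq_dot_le (A (i + 1)) (B (i + 1))
  have n1 := one_le_nn (row_self hA (i + 1))
  have n2 := one_le_nn (row_self hB (i + 1))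
  have n3 : 1 ≤ nn (A (i + 1)) * nn (B (i + 1)) := one_le_mul_of_one_le_of_one_le n1 n2
  unfold theta
  rw [norm_mul, norm_pow]
  have h2 : ‖1 - (A (i + 1) ⬝ᵥ B (i + 1)) ^ 2‖ ≤ 1 + ‖A (i + 1) ⬝ᵥ B (i + 1)‖ ^ 2 := by
    refine (norm_sub_le _ _).trans ?_
    rw [norm_one, norm_pow]
  have h3 := norm_nonneg (1 - (A (i + 1) ⬝ᵥ B (i + 1)) ^ 2)
  generalize ‖1 - (A (i + 1) ⬝ᵥ B (i + 1)) ^ 2‖ = y at *
  have h0 := sq_nonneg ‖A (i + 1) ⬝ᵥ B (i + 1)‖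
  generalize ‖A (i + 1) ⬝ᵥ B (i + 1)‖ ^ 2 = x at *
  nlinarith

end Pool.Agent.Lib.MP_abd417_co.U.Fine
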