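import Pool.Agent.Lib.MP_abd417_co.U.Base

/-! The six pair Hermitian sum (step 8). -/

namespace Pool.Agent.Lib.MP_abd417_co.U.Six

open Matrix Finset Pool.Agent.Lib.MP_abd417_co.U.Base

/-- Real part of the Hermitian projector on `u`. -/
noncomputable def Rr (u : Fin 3 → ℂ) (a b : Fin 3) : ℝ := (u a * (starRingEnd ℂ) (u b)).re / Nn u
/-- Imaginary part of the Hermitian projector on `u`. -/
noncomputable def Jj (u : Fin 3 → ℂ) (a b : Fin 3) : ℝ := (u a * (starRingEnd ℂ) (u b)).im / Nn u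
/-- The real vector `2 (p × q) / N` for `u = p + i q`. -/
noncomputable def av (u : Fin 3 → ℂ) : Fin 3 → ℝ := ![-2 * Jj u 1 2, -2 * Jj u 2 0, -2 * Jj u 0 1]
/-- Its square. -/
noncomputable def Qx (u : Fin 3 → ℂ) (a b : Fin 3) : ℝ := av u a * av u b
/-- First test (`s = false` real part, `s = true` imaginary part). -/
noncomputable def Xt (t : ℝ) (s : Bool) (a b : Fin 3) (u : Fin 3 → ℂ) : ℝ :=
  if s then Jj u a b else Rr u a b + t * Qx u a b
/-- Second test. -/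
noncomputable def Yt (s : Bool) (a b : Fin 3) (u : Fin 3 → ℂ) : ℝ :=
  if s then Jj u a b else - Rr u a b
/-- The defect `G` of row `i` of a frame. -/
noncomputable def Gd (m : M3) (i : Fin 3) : ℝ :=
  ∑ a, Qx (m i) a a - ∑ j, if i = j then 0 else ∑ a, ∑ b, Qx (m i) a b * Rr (m j) a b

lemma Nn_eq (u : Fin 3 → ℂ) : Nn u = (u 0).re ^ 2 + (u 0).im ^ 2 + ((u 1).re ^ 2 + (u 1).im ^ 2)
    + ((u 2).re ^ 2 + (u 2).im ^ 2) := by
  simp only [Nn, Fin.sum_univ_three, Complex.normSq_apply]; ring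

lemma P1 {u : Fin 3 → ℂ} (h : 0 < Nn u) :
    ∑ a, ∑ b, (Rr u a b ^ 2 + Jj u a b ^ 2) = 1 := by
  have := h.ne'
  simp only [Rr, Jj, Fin.sum_univ_three, Complex.mul_re, Complex.mul_im, Complex.conj_re,
    Complex.conj_im]
  field_simp
  rw [Nn_eq]; ring

lemma P2 {u v : Fin 3 → ℂ} (hu : 0 < Nn u) (hv : 0 < Nn v) (h : u ⬝ᵥ v = 0) :
    ∑ a, ∑ b, (Jj u a b * Jj v a b - Rr u a b * Rr v a b) = 0 := by
  have h1 := hu.ne'
  have h2 := hv.ne'
  have hre := congrArg Complex.re h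
  have him := congrArg Complex.im h
  simp only [dotProduct, Fin.sum_univ_three, Complex.add_re, Complex.add_im, Complex.mul_re,
    Complex.mul_im, Complex.zero_re, Complex.zero_im] at hre him
  simp only [Rr, Jj, Fin.sum_univ_three, Complex.mul_re, Complex.mul_im, Complex.conj_re,
    Complex.conj_im]
  field_simp
  linear_combination (-((u 0).re * (v 0).re - (u 0).im * (v 0).im
    + ((u 1).re * (v 1).re - (u 1).im * (v 1).im) + ((u 2).re * (v 2).re - (u 2).im * (v 2).im)))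
    * hre - ((u 0).re * (v 0).im + (u 0).im * (v 0).re + ((u 1).re * (v 1).im + (u 1).im * (v 1).re)
    + ((u 2).re * (v 2).im + (u 2).im * (v 2).re)) * him

lemma P3 {u : Fin 3 → ℂ} (h : 0 < Nn u) : ∑ a, ∑ b, Qx u a b * Rr u a b = 0 := by
  have := h.ne'
  simp only [Qx, av, Rr, Jj, Fin.sum_univ_three, Complex.mul_re, Complex.mul_im, Complex.conj_re,
    Complex.conj_im, Matrix.cons_val_zero, Matrix.cons_val_one, Matrix.cons_val_two,
    Matrix.head_cons, Matrix.tail_cons]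
  field_simp
  ring

lemma P4 {u : Fin 3 → ℂ} (h : 0 < Nn u) : ∑ a, Rr u a a = 1 := by
  have := h.ne'
  simp only [Rr, Fin.sum_univ_three, Complex.mul_re, Complex.conj_re, Complex.conj_im]
  field_simp
  rw [Nn_eq]; ring

/-- `|a|^2 = (N^2 - 1) / N^2` for a unit vector. -/
lemma trQ {u : Fin 3 → ℂ} (h : u ⬝ᵥ u = 1) : ∑ a, Qx u a a = 1 - 1 / Nn u ^ 2 := by
  have h0 : Nn u ≠ 0 := by have := one_le_Nn h; linarith
  have hre := congrArg Complex.re h
  have him := congrArg Complex.im h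
  simp only [dotProduct, Fin.sum_univ_three, Complex.add_re, Complex.add_im, Complex.mul_re,
    Complex.mul_im, Complex.one_re, Complex.one_im] at hre him
  simp only [Qx, av, Jj, Fin.sum_univ_three, Complex.mul_im, Complex.conj_re,
    Complex.conj_im, Matrix.cons_val_zero, Matrix.cons_val_one, Matrix.cons_val_two,
    Matrix.head_cons, Matrix.tail_cons]
  field_simp
  rw [Nn_eq]
  linear_combination (-((u 0).re * (u 0).re - (u 0).im * (u 0).im
    + ((u 1).re * (u 1).re - (u 1).im * (u 1).im) + ((u 2).re * (u 2).re - (u 2).im * (u 2).im))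
    - 1) * hre - ((u 0).re * (u 0).im + (u 0).im * (u 0).re
    + ((u 1).re * (u 1).im + (u 1).im * (u 1).re)
    + ((u 2).re * (u 2).im + (u 2).im * (u 2).re)) * him

lemma trQ_le {u : Fin 3 → ℂ} (h : u ⬝ᵥ u = 1) : ∑ a, Qx u a a ≤ 1 := by
  rw [trQ h]
  have : 0 ≤ 1 / Nn u ^ 2 := by positivity
  linarith

lemma Q_sq {u : Fin 3 → ℂ} (h : u ⬝ᵥ u = 1) : ∑ a, ∑ b, Qx u a b ^ 2 ≤ 1 := by
  have h1 := trQ_le h
  have h2 : ∑ a, ∑ b, Qx u a b ^ 2 = (∑ a, Qx u a a) ^ 2 := by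
    simp only [Qx, Fin.sum_univ_three]; ring
  have h3 : 0 ≤ ∑ a, Qx u a a := Finset.sum_nonneg fun a _ => mul_self_nonneg _
  rw [h2]; nlinarith

lemma sq_le_sum2 (f : Fin 3 → Fin 3 → ℝ) (hf : ∀ a b, 0 ≤ f a b) (a b : Fin 3) :
    f a b ≤ ∑ a, ∑ b, f a b :=
  (Finset.single_le_sum (fun b _ => hf a b) (Finset.mem_univ b)).trans
    (Finset.single_le_sum (f := fun a => ∑ b, f a b)
      (fun a _ => Finset.sum_nonneg fun b _ => hf a b) (Finset.mem_univ a))

lemma abs_Q_le {u : Fin 3 → ℂ} (h : u ⬝ᵥ u = 1) (a b : Fin 3) : |Qx u a b| ≤ 1 := by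
  have := (sq_le_sum2 (fun a b => Qx u a b ^ 2) (fun _ _ => sq_nonneg _) a b).trans (Q_sq h)
  exact (sq_le_one_iff_abs_le_one _).mp this

lemma abs_RJ_le {u : Fin 3 → ℂ} (h : 0 < Nn u) (a b : Fin 3) :
    |Rr u a b| ≤ 1 ∧ |Jj u a b| ≤ 1 := by
  have := (sq_le_sum2 (fun a b => Rr u a b ^ 2 + Jj u a b ^ 2)
    (fun _ _ => by positivity) a b).trans (P1 h).le
  constructor <;> rw [← sq_le_one_iff_abs_le_one] <;>
    nlinarith [sq_nonneg (Rr u a b), sq_nonneg (Jj u a b)]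

lemma abs_Xt_le {u : Fin 3 → ℂ} (h : u ⬝ᵥ u = 1) {t : ℝ} (ht : 0 ≤ t) (s : Bool) (a b : Fin 3) :
    |Xt t s a b u| ≤ 1 + t := by
  have h0 : 0 < Nn u := by have := one_le_Nn h; linarith
  have h1 := abs_RJ_le h0 a b
  have h2 := abs_Q_le h a b
  cases s
  · simp only [Xt, Bool.false_eq_true, if_false]
    refine (abs_add_le _ _).trans ?_
    rw [abs_mul, abs_of_nonneg ht]
    nlinarith [h1.1]
  · simp only [Xt, if_true]; linarith [h1.2]

lemma abs_Yt_le {u : Fin 3 → ℂ} (h : u ⬝ᵥ u = 1) (s : Bool) (a b : Fin 3) :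
    |Yt s a b u| ≤ 1 := by
  have h0 : 0 < Nn u := by have := one_le_Nn h; linarith
  have h1 := abs_RJ_le h0 a b
  cases s
  · simp only [Yt, Bool.false_eq_true, if_false, abs_neg]; exact h1.1
  · simp only [Yt, if_true]; exact h1.2

/-- The quadratic form `x y - (x^2 + y^2) / 4`. -/
noncomputable def qf (x y : ℝ) : ℝ := x * y - (x ^ 2 + y ^ 2) / 4

/-- Total of `qf` over the six ordered pairs and the eighteen coordinates. -/
noncomputable def tot (X Y : Fin 3 → Bool → Fin 3 → Fin 3 → ℝ) : ℝ :=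
  ∑ i, ∑ j, if i = j then 0 else ∑ s, ∑ a, ∑ b, qf (X i s a b) (Y j s a b)

lemma pointwise {m : M3} (hm : m * mᵀ = 1) (t : ℝ) :
    t * ∑ i, Gd m i - t * ∑ i, ∑ a, Qx (m i) a a - 3 - 3 / 2 * t ^ 2
      ≤ tot (fun i s a b => Xt t s a b (m i)) (fun j s a b => Yt s a b (m j)) := by
  have hN : ∀ i, 0 < Nn (m i) := fun i => by have := one_le_row hm i; linarith
  have hu : ∀ i, m i ⬝ᵥ m i = 1 := fun i => by rw [row_dot hm]; simp
  have key : ∀ i j, i ≠ j → -(t * ∑ a, ∑ b, Qx (m i) a b * Rr (m j) a b) - 1 / 2 - t ^ 2 / 4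
      ≤ ∑ s, ∑ a, ∑ b, qf (Xt t s a b (m i)) (Yt s a b (m j)) := by
    intro i j hij
    have h1 := P1 (hN i)
    have h1' := P1 (hN j)
    have h2 := P2 (hN i) (hN j) (by rw [row_dot hm]; simp [hij])
    have h3 : t * ∑ a, ∑ b, Qx (m i) a b * Rr (m i) a b = 0 := by rw [P3 (hN i), mul_zero]
    have h4 := mul_le_mul_of_nonneg_left (Q_sq (hu i)) (sq_nonneg t)
    simp only [Fintype.sum_bool, Xt, Yt, qf, Bool.false_eq_true, if_false, if_true,
      Fin.sum_univ_three] at h1 h1' h2 h3 h4 ⊢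
    linarith
  have k01 := key 0 1 (by decide)
  have k02 := key 0 2 (by decide)
  have k10 := key 1 0 (by decide)
  have k12 := key 1 2 (by decide)
  have k20 := key 2 0 (by decide)
  have k21 := key 2 1 (by decide)
  unfold tot Gd
  rw [Fin.sum_univ_three, Fin.sum_univ_three (fun i => ∑ a, Qx (m i) a a),
    Fin.sum_univ_three (fun i => ∑ j, if i = j then (0 : ℝ) else _)]
  simp only [Fin.sum_univ_three (fun j => if _ = j then (0 : ℝ) else _)]
  simp only [if_true, show ¬ ((0 : Fin 3) = 1) by decide, show ¬ ((0 : Fin 3) = 2) by decide,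
    show ¬ ((1 : Fin 3) = 0) by decide, show ¬ ((1 : Fin 3) = 2) by decide,
    show ¬ ((2 : Fin 3) = 0) by decide, show ¬ ((2 : Fin 3) = 1) by decide, if_false]
  linarith

lemma entry (t d r0 r1 r2 q0 q1 q2 j0 j1 j2 : ℝ) (hj : j0 + j1 + j2 = 0) (h0 : |q0| ≤ 1)
    (h1 : |q1| ≤ 1) (h2 : |q2| ≤ 1) :
    qf j0 j1 + qf j0 j2 + qf j1 j0 + qf j1 j2 + qf j2 j0 + qf j2 j1
      + (qf (r0 + t * q0) (-r1) + qf (r0 + t * q0) (-r2) + qf (r1 + t * q1) (-r0)
      + qf (r1 + t * q1) (-r2) + qf (r2 + t * q2) (-r0) + qf (r2 + t * q2) (-r1))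
      ≤ d ^ 2 - 2 * d * (r0 + r1 + r2) - t * d * (q0 + q1 + q2) + 3 / 4 * t ^ 2 := by
  have a0 := (sq_le_one_iff_abs_le_one _).mpr h0
  have a1 := (sq_le_one_iff_abs_le_one _).mpr h1
  have a2 := (sq_le_one_iff_abs_le_one _).mpr h2
  have b : (q0 + q1 + q2) ^ 2 / 4 - (q0 ^ 2 + q1 ^ 2 + q2 ^ 2) / 2 ≤ 3 / 4 := by
    nlinarith [sq_nonneg (q0 - q1), sq_nonneg (q0 - q2), sq_nonneg (q1 - q2)]
  have c := mul_le_mul_of_nonneg_left b (sq_nonneg t)
  have e : (j0 + j1 + j2) ^ 2 = 0 := by rw [hj]; ring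
  unfold qf
  nlinarith [sq_nonneg (r0 + r1 + r2 - d + t * (q0 + q1 + q2) / 2), sq_nonneg j0, sq_nonneg j1,
    sq_nonneg j2]

lemma mean (t : ℝ) (r j q : Fin 3 → Fin 3 → Fin 3 → ℝ) (htr : ∑ i, ∑ a, r i a a = 3)
    (hj : ∀ a b, ∑ i, j i a b = 0) (hq : ∀ i a b, |q i a b| ≤ 1) :
    tot (fun i s a b => if s then j i a b else r i a b + t * q i a b)
      (fun i s a b => if s then j i a b else - r i a b)
      ≤ -3 - t * ∑ i, ∑ a, q i a a + 27 / 4 * t ^ 2 := by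
  have e := fun (d : ℝ) (a b : Fin 3) => entry t d (r 0 a b) (r 1 a b) (r 2 a b) (q 0 a b)
    (q 1 a b) (q 2 a b) (j 0 a b) (j 1 a b) (j 2 a b)
    (by have := hj a b; rwa [Fin.sum_univ_three] at this) (hq 0 a b) (hq 1 a b) (hq 2 a b)
  have e00 := e 1 0 0
  have e11 := e 1 1 1
  have e22 := e 1 2 2
  have e01 := e 0 0 1
  have e02 := e 0 0 2
  have e10 := e 0 1 0
  have e12 := e 0 1 2
  have e20 := e 0 2 0
  have e21 := e 0 2 1
  unfold tot
  simp only [Fin.sum_univ_three, Fintype.sum_bool, Bool.false_eq_true, if_true,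
    show ¬ ((0 : Fin 3) = 1) by decide, show ¬ ((0 : Fin 3) = 2) by decide,
    show ¬ ((1 : Fin 3) = 0) by decide, show ¬ ((1 : Fin 3) = 2) by decide,
    show ¬ ((2 : Fin 3) = 0) by decide, show ¬ ((2 : Fin 3) = 1) by decide, if_false] at htr ⊢
  linarith

variable {ι : Type*}

/-- Expectation. -/
def Ex (F : Finset ι) (ν : ι → ℝ) (f : ι → ℝ) : ℝ := ∑ x ∈ F, ν x * f x

/-- `Cov(f,h) - (Var f + Var h) / 4`. -/
noncomputable def Vv (F : Finset ι) (ν : ι → ℝ) (f h : ι → ℝ) : ℝ :=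
  Ex F ν (fun x => f x * h x) - Ex F ν f * Ex F ν h
    - (Ex F ν (fun x => f x ^ 2) - Ex F ν f ^ 2 + (Ex F ν (fun x => h x ^ 2) - Ex F ν h ^ 2)) / 4

lemma Ex_sum {κ : Type*} (F : Finset ι) (ν : ι → ℝ) (S : Finset κ) (f : κ → ι → ℝ) :
    Ex F ν (fun x => ∑ c ∈ S, f c x) = ∑ c ∈ S, Ex F ν (f c) := by
  unfold Ex
  simp only [Finset.mul_sum]
  exact Finset.sum_comm

lemma Vv_eq (F : Finset ι) (ν : ι → ℝ) (f h : ι → ℝ) :
    Vv F ν f h = Ex F ν (fun x => qf (f x) (h x)) - qf (Ex F ν f) (Ex F ν h) := by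
  have : Ex F ν (fun x => qf (f x) (h x)) = Ex F ν (fun x => f x * h x)
      - (Ex F ν (fun x => f x ^ 2) + Ex F ν (fun x => h x ^ 2)) / 4 := by
    unfold Ex qf
    rw [← Finset.sum_add_distrib, Finset.sum_div, ← Finset.sum_sub_distrib]
    exact Finset.sum_congr rfl fun x _ => by ring
  rw [this]; unfold Vv qf; ring

lemma Ex_mono (F : Finset ι) (ν : ι → ℝ) (hν : ∀ x ∈ F, 0 ≤ ν x) {f h : ι → ℝ}
    (hfh : ∀ x ∈ F, f x ≤ h x) : Ex F ν f ≤ Ex F ν h :=
  Finset.sum_le_sum fun x hx => mul_le_mul_of_nonneg_left (hfh x hx) (hν x hx)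

lemma Ex_const (F : Finset ι) (ν : ι → ℝ) (h1 : ∑ x ∈ F, ν x = 1) (c : ℝ) :
    Ex F ν (fun _ => c) = c := by
  unfold Ex; rw [← Finset.sum_mul, h1, one_mul]

lemma Ex_lin (F : Finset ι) (ν : ι → ℝ) (f h : ι → ℝ) (c d : ℝ) :
    Ex F ν (fun x => c * f x + d * h x) = c * Ex F ν f + d * Ex F ν h := by
  unfold Ex
  rw [Finset.mul_sum, Finset.mul_sum, ← Finset.sum_add_distrib]
  exact Finset.sum_congr rfl fun x _ => by ring

/-- **Six pair sum.** -/
theorem six_sum (F : Finset ι) (ν : ι → ℝ) (hν : ∀ x ∈ F, 0 ≤ ν x) (h1 : ∑ x ∈ F, ν x = 1)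
    (m : ι → M3) (hm : ∀ x ∈ F, m x * (m x)ᵀ = 1)
    (hbal : ∀ a b, ∑ x ∈ F, ν x * ∑ i, Jj (m x i) a b = 0) (t : ℝ) :
    t * Ex F ν (fun x => ∑ i, Gd (m x) i) - 9 * t ^ 2 ≤
      ∑ i, ∑ j, if i = j then 0 else ∑ s, ∑ a, ∑ b,
        Vv F ν (fun x => Xt t s a b (m x i)) (fun x => Yt s a b (m x j)) := by
  have hN : ∀ x ∈ F, ∀ i, 0 < Nn (m x i) := fun x hx i => by
    have := one_le_row (hm x hx) i; linarith
  have hu : ∀ x ∈ F, ∀ i, m x i ⬝ᵥ m x i = 1 := fun x hx i => by rw [row_dot (hm x hx)]; simp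
  have hmean := mean t (fun i a b => Ex F ν fun x => Rr (m x i) a b)
    (fun i a b => Ex F ν fun x => Jj (m x i) a b) (fun i a b => Ex F ν fun x => Qx (m x i) a b)
    (by
      simp only [← Ex_sum]
      rw [← Ex_const F ν h1 3]
      refine Finset.sum_congr rfl fun x hx => ?_
      have : ∑ i, ∑ a, Rr (m x i) a a = 3 := by
        rw [Finset.sum_congr rfl fun i _ => P4 (hN x hx i)]
        simp
      exact congrArg (fun z => ν x * z) this)
    (fun a b => by rw [← Ex_sum]; exact hbal a b)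
    (fun i a b => by
      rw [abs_le]
      constructor
      · rw [← Ex_const F ν h1 (-1)]
        exact Ex_mono F ν hν fun x hx => (abs_le.mp (abs_Q_le (hu x hx i) a b)).1
      · rw [← Ex_const F ν h1 1]
        exact Ex_mono F ν hν fun x hx => (abs_le.mp (abs_Q_le (hu x hx i) a b)).2)
  have hX : ∀ i s a b, Ex F ν (fun x => Xt t s a b (m x i)) = if s then
      Ex F ν (fun x => Jj (m x i) a b) else Ex F ν (fun x => Rr (m x i) a b)
        + t * Ex F ν (fun x => Qx (m x i) a b) := by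
    intro i s a b
    cases s
    · have := Ex_lin F ν (fun x => Rr (m x i) a b) (fun x => Qx (m x i) a b) 1 t
      simpa [Xt] using this
    · simp [Xt]
  have hY : ∀ i s a b, Ex F ν (fun x => Yt s a b (m x i)) = if s then
      Ex F ν (fun x => Jj (m x i) a b) else - Ex F ν (fun x => Rr (m x i) a b) := by
    intro i s a b
    cases s
    · have := Ex_lin F ν (fun x => Rr (m x i) a b) (fun x => Rr (m x i) a b) (-1) 0
      simpa [Yt] using this
    · simp [Yt]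
  have hpt := Ex_mono F ν hν fun x hx => pointwise (hm x hx) t
  have hL : Ex F ν (fun x => t * ∑ i, Gd (m x) i - t * ∑ i, ∑ a, Qx (m x i) a a - 3 - 3 / 2 * t ^ 2)
      = t * Ex F ν (fun x => ∑ i, Gd (m x) i)
        - t * ∑ i, ∑ a, Ex F ν (fun x => Qx (m x i) a a) - 3 - 3 / 2 * t ^ 2 := by
    simp only [← Ex_sum]
    have e1 := Ex_const F ν h1 (3 + 3 / 2 * t ^ 2)
    unfold Ex at e1 ⊢
    rw [Finset.mul_sum, Finset.mul_sum, sub_sub _ 3, ← e1, ← Finset.sum_sub_distrib,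
      ← Finset.sum_sub_distrib]
    exact Finset.sum_congr rfl fun x _ => by ring
  have hR : (∑ i, ∑ j, if i = j then 0 else ∑ s, ∑ a, ∑ b,
        Vv F ν (fun x => Xt t s a b (m x i)) (fun x => Yt s a b (m x j)))
      = Ex F ν (fun x => tot (fun i s a b => Xt t s a b (m x i)) (fun j s a b => Yt s a b (m x j)))
        - tot (fun i s a b => Ex F ν fun x => Xt t s a b (m x i))
          (fun j s a b => Ex F ν fun x => Yt s a b (m x j)) := by
    unfold tot
    rw [Ex_sum, ← Finset.sum_sub_distrib]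
    refine Finset.sum_congr rfl fun i _ => ?_
    rw [Ex_sum, ← Finset.sum_sub_distrib]
    refine Finset.sum_congr rfl fun j _ => ?_
    by_cases hij : i = j
    · simp [hij, Ex]
    · simp only [hij, if_false, Ex_sum, Vv_eq, Finset.sum_sub_distrib]
  rw [hR]
  simp only [hX, hY]
  rw [hL] at hpt
  nlinarith [sq_nonneg t]

/-- One pair and one coordinate carry a share of the six pair sum. -/
theorem six (F : Finset ι) (ν : ι → ℝ) (hν : ∀ x ∈ F, 0 ≤ ν x) (h1 : ∑ x ∈ F, ν x = 1)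
    (m : ι → M3) (hm : ∀ x ∈ F, m x * (m x)ᵀ = 1)
    (hbal : ∀ a b, ∑ x ∈ F, ν x * ∑ i, Jj (m x i) a b = 0) (t : ℝ) (c : ℝ) (hc : 0 < c)
    (hG : 162 * c ≤ t * Ex F ν (fun x => ∑ i, Gd (m x) i) - 9 * t ^ 2) :
    ∃ (i j : Fin 3) (s : Bool) (a b : Fin 3), i ≠ j ∧
      c ≤ Vv F ν (fun x => Xt t s a b (m x i)) (fun x => Yt s a b (m x j)) := by
  by_contra hcon
  push Not at hcon
  have h := hG.trans (six_sum F ν hν h1 m hm hbal t)
  have hb : ∀ i j : Fin 3, (if i = j then 0 else ∑ s, ∑ a, ∑ b,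
      Vv F ν (fun x => Xt t s a b (m x i)) (fun x => Yt s a b (m x j)))
      ≤ if i = j then 0 else 18 * c := by
    intro i j
    by_cases hij : i = j
    · simp [hij]
    · simp only [hij, if_false]
      calc _ ≤ ∑ _s : Bool, ∑ _a : Fin 3, ∑ _b : Fin 3, c :=
            Finset.sum_le_sum fun s _ => Finset.sum_le_sum fun a _ => Finset.sum_le_sum
              fun b _ => (hcon i j s a b hij).le
        _ = 18 * c := by simp; ring
  have h2 := Finset.sum_le_sum fun i (_ : i ∈ Finset.univ) =>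
    Finset.sum_le_sum fun j (_ : j ∈ Finset.univ) => hb i j
  have h3 : (∑ i : Fin 3, ∑ j : Fin 3, if i = j then (0 : ℝ) else 18 * c) = 108 * c := by
    simp only [Fin.sum_univ_three, if_true,
      show ¬ ((0 : Fin 3) = 1) by decide, show ¬ ((0 : Fin 3) = 2) by decide,
      show ¬ ((1 : Fin 3) = 0) by decide, show ¬ ((1 : Fin 3) = 2) by decide,
      show ¬ ((2 : Fin 3) = 0) by decide, show ¬ ((2 : Fin 3) = 1) by decide, if_false]
    ring
  linarith

end Pool.Agent.Lib.MP_abd417_co.U.Six
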